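import Mathlib

set_option autoImplicit false

/-!
# The set of countable ordinals
-/

open Ordinal Cardinal

namespace Pool.Agent.helper60.SA

/-- The set of countable ordinals (in the universe `Type 1`). -/
abbrev W : Type 1 := (ω_ 1 : Ordinal.{1}).ToType

theorem W.countable_Iio (a : W) : (Set.Iio a).Countable := by
  have h1 : (ToType.mk.symm a : Set.Iio (ω_ 1 : Ordinal.{1})).1 < ω_ 1 :=
    (ToType.mk.symm a).2
  have h2 : (Set.Iio (ToType.mk.symm a : Set.Iio (ω_ 1 : Ordinal.{1})).1).Countable := by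
    rw [← Cardinal.le_aleph0_iff_set_countable, Cardinal.mk_Iio_ordinal, ← Cardinal.lift_aleph0.{2, 1},
      Cardinal.lift_le]
    have h3 := lt_ord.1 (show (ToType.mk.symm a : Set.Iio (ω_ 1 : Ordinal.{1})).1 < ord (ℵ_ 1) by
      rw [ord_aleph]; exact h1)
    have h4 : (ℵ_ 1 : Cardinal.{1}) = Order.succ ℵ₀ := by
      rw [← aleph_zero, Cardinal.succ_aleph, zero_add]
    rw [h4] at h3
    exact Order.lt_succ_iff.1 h3
  refine (h2.preimage_of_injOn (f := fun b : W =>
    (ToType.mk.symm b : Set.Iio (ω_ 1 : Ordinal.{1})).1) ?_).mono ?_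
  · intro x _ y _ h
    exact ToType.mk.symm.injective (Subtype.ext h)
  · intro b hb
    have := (ToType.mk.symm).lt_iff_lt.2 hb
    exact this

theorem W.countable_Iic (a : W) : (Set.Iic a).Countable := by
  rw [← Set.Iio_insert]
  exact (W.countable_Iio a).insert a

theorem W.not_countable : ¬ (Set.univ : Set W).Countable := by
  intro h
  rw [← Cardinal.le_aleph0_iff_set_countable, Cardinal.mk_univ, Cardinal.mk_toType,
    ← ord_aleph, Cardinal.card_ord] at h
  exact absurd h (not_le.2 aleph0_lt_aleph_one)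

theorem W.exists_gt_seq (f : ℕ → W) : ∃ b, ∀ n, f n < b := by
  by_contra hcon
  push Not at hcon
  refine W.not_countable ((Set.countable_iUnion fun n => W.countable_Iic (f n)).mono ?_)
  intro b _
  obtain ⟨n, hn⟩ := hcon b
  exact Set.mem_iUnion.2 ⟨n, hn⟩

instance : NoMaxOrder W := ⟨fun a => by
  obtain ⟨b, hb⟩ := W.exists_gt_seq (fun _ => a)
  exact ⟨b, hb 0⟩⟩

instance : Nonempty W := by
  by_contra h
  rw [not_nonempty_iff] at h
  exact W.not_countable (Set.countable_univ_iff.2 inferInstance)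

theorem W.exists_gt_countable {S : Set W} (hS : S.Countable) : ∃ b, ∀ a ∈ S, a < b := by
  by_cases hne : S.Nonempty
  · obtain ⟨f, rfl⟩ := hS.exists_eq_range hne
    obtain ⟨b, hb⟩ := W.exists_gt_seq f
    exact ⟨b, by rintro _ ⟨n, rfl⟩; exact hb n⟩
  · rw [Set.not_nonempty_iff_eq_empty] at hne
    subst hne
    exact ⟨Classical.arbitrary W, by simp⟩

/-- The supremum of a sequence. -/
theorem W.exists_lub (f : ℕ → W) : ∃ d, (∀ n, f n < d) ∧ ∀ b < d, ∃ n, b ≤ f n := by
  obtain ⟨b, hb⟩ := W.exists_gt_seq f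
  obtain ⟨d, hd, hmin⟩ := WellFounded.has_min (wellFounded_lt (α := W)) {b | ∀ n, f n < b} ⟨b, hb⟩
  refine ⟨d, hd, fun b hb => ?_⟩
  by_contra hcon
  push Not at hcon
  exact hmin b hcon hb

/-- The least element above `a`. -/
theorem W.exists_succ (a : W) : ∃ d, a < d ∧ ∀ b < d, b ≤ a := by
  obtain ⟨d, hd, hmin⟩ := W.exists_lub (fun _ => a)
  exact ⟨d, hd 0, fun b hb => (hmin b hb).elim fun _ h => h⟩

/-- There is a least element. -/
theorem W.exists_bot : ∃ d : W, ∀ b, d ≤ b := by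
  obtain ⟨d, -, hmin⟩ := WellFounded.has_min (wellFounded_lt (α := W)) Set.univ
    ⟨Classical.arbitrary W, trivial⟩
  exact ⟨d, fun b => not_lt.1 (hmin b trivial)⟩

instance : Small.{0} W := by
  have e : (ω_ 1 : Ordinal.{1}) = Ordinal.lift.{1, 0} (ω_ 1 : Ordinal.{0}) := by
    rw [Ordinal.lift_omega, Ordinal.lift_one]
  have h : Cardinal.lift.{0, 1} #W = Cardinal.lift.{1, 0} #((ω_ 1 : Ordinal.{0}).ToType) := by
    rw [Cardinal.mk_toType, Cardinal.mk_toType, e, ← Ordinal.lift_card, Cardinal.lift_uzero]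
  obtain ⟨f⟩ := Cardinal.lift_mk_eq'.1 h
  exact ⟨_, ⟨f⟩⟩

end Pool.Agent.helper60.SA
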