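import Mathlib
import Pool.Agent.helper60.SA.Omega

set_option autoImplicit false

/-!
# Countable towers
-/

namespace Pool.Agent.helper60.SA

/-- A tower of countable height: a `⊆*`-decreasing sequence of infinite sets `U α` (`α ≤ ht`) and
infinite sets `A α ⊆ U α` (`α < ht`) almost disjoint from the later `U β`. -/
structure Tower where
  /-- the height -/
  ht : W
  /-- the tower -/
  U : W → Set ℕ
  /-- the almost disjoint family -/
  A : W → Set ℕ
  inf : ∀ α ≤ ht, (U α).Infinite
  desc : ∀ α β, α ≤ β → β ≤ ht → (U β \ U α).Finite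
  Ainf : ∀ α < ht, (A α).Infinite
  Asub : ∀ α < ht, A α ⊆ U α
  Adisj : ∀ α β, α < β → β ≤ ht → (A α ∩ U β).Finite

/-- The last set of the tower. -/
def Tower.top (t : Tower) : Set ℕ := t.U t.ht

instance : Preorder Tower where
  le s t := t.ht ≤ s.ht ∧ (∀ α ≤ t.ht, s.U α = t.U α) ∧ ∀ α < t.ht, s.A α = t.A α
  le_refl t := ⟨le_rfl, fun _ _ => rfl, fun _ _ => rfl⟩
  le_trans r s t h h' := ⟨h'.1.trans h.1, fun α hα => (h.2.1 α (hα.trans h'.1)).trans (h'.2.1 α hα),
    fun α hα => (h.2.2 α (hα.trans_le h'.1)).trans (h'.2.2 α hα)⟩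

theorem Tower.le_def {s t : Tower} : s ≤ t ↔
    t.ht ≤ s.ht ∧ (∀ α ≤ t.ht, s.U α = t.U α) ∧ ∀ α < t.ht, s.A α = t.A α := Iff.rfl

theorem Tower.top_diff {s t : Tower} (h : s ≤ t) : (s.top \ t.top).Finite := by
  have := s.desc t.ht s.ht h.1 le_rfl
  rwa [h.2.1 t.ht le_rfl] at this

/-- The sets `A β` of an extension are almost contained in the last set. -/
theorem Tower.A_diff {s t : Tower} (h : s ≤ t) {β : W} (h1 : t.ht ≤ β) (h2 : β < s.ht) :
    (s.A β \ t.top).Finite := by
  have := s.desc t.ht β h1 h2.le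
  rw [h.2.1 t.ht le_rfl] at this
  exact this.subset (Set.sdiff_subset_sdiff_left (s.Asub β h2))

theorem Tower.A_top (t : Tower) {β : W} (h : β < t.ht) : (t.A β ∩ t.top).Finite :=
  t.Adisj β t.ht h le_rfl

theorem Tower.A_A (t : Tower) {α β : W} (hαβ : α < β) (h : β < t.ht) :
    (t.A α ∩ t.A β).Finite :=
  (t.Adisj α β hαβ h.le).subset (Set.inter_subset_inter_right _ (t.Asub β h))

theorem Tower.A_ne (t : Tower) {α β : W} (hαβ : α ≠ β) (hα : α < t.ht) (hβ : β < t.ht) :
    (t.A α ∩ t.A β).Finite := by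
  rcases lt_or_gt_of_ne hαβ with h | h
  · exact t.A_A h hβ
  · rw [Set.inter_comm]
    exact t.A_A h hα

instance : Nonempty Tower := by
  obtain ⟨d, hd⟩ := W.exists_bot
  exact ⟨⟨d, fun _ => Set.univ, fun _ => ∅, fun _ _ => Set.infinite_univ,
    fun _ _ _ _ => by simp, fun α hα => absurd hα (not_lt.2 (hd α)), fun _ _ => by simp,
    fun _ _ _ _ => by simp⟩⟩

/-- An infinite set of natural numbers is the union of two disjoint infinite sets. -/
theorem exists_split (S : Set ℕ) (hS : S.Infinite) : ∃ A B : Set ℕ, A.Infinite ∧ B.Infinite ∧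
    A ⊆ S ∧ B ⊆ S ∧ A ∩ B = ∅ := by
  classical
  let f := Nat.nth (· ∈ S)
  have hf : StrictMono f := Nat.nth_strictMono hS
  have hmem : ∀ n, f n ∈ S := fun n => Nat.nth_mem_of_infinite hS n
  refine ⟨Set.range fun n => f (2 * n), Set.range fun n => f (2 * n + 1), ?_, ?_, ?_, ?_, ?_⟩
  · exact Set.infinite_range_of_injective fun a b h => by
      have := hf.injective h
      omega
  · exact Set.infinite_range_of_injective fun a b h => by
      have := hf.injective h
      omega
  · rintro _ ⟨n, rfl⟩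
    exact hmem _
  · rintro _ ⟨n, rfl⟩
    exact hmem _
  · ext x
    simp only [Set.mem_inter_iff, Set.mem_range, Set.mem_empty_iff_false, iff_false, not_and]
    rintro ⟨a, rfl⟩ ⟨b, hb⟩
    have := hf.injective hb
    omega

/-- Successor extensions. -/
theorem Tower.exists_succ (t : Tower) : ∃ s ≤ t, t.ht < s.ht := by
  classical
  obtain ⟨d, hd, hmax⟩ := W.exists_succ t.ht
  obtain ⟨A, B, hA, hB, hAS, hBS, hAB⟩ := exists_split t.top (t.inf _ le_rfl)
  refine ⟨⟨d, fun α => if α ≤ t.ht then t.U α else B, fun α => if α < t.ht then t.A α else A,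
    ?_, ?_, ?_, ?_, ?_⟩, ⟨hd.le, fun α hα => if_pos hα, fun α hα => if_pos hα⟩, hd⟩
  · intro α _
    split_ifs with h
    · exact t.inf α h
    · exact hB
  · intro α β hαβ hβ
    split_ifs with h1 h2 h2
    · exact t.desc α β hαβ h1
    · exact absurd (hαβ.trans h1) h2
    · exact (t.desc α t.ht h2 le_rfl).subset (Set.sdiff_subset_sdiff_left hBS)
    · simp
  · intro α _
    split_ifs with h
    · exact t.Ainf α h
    · exact hA
  · intro α hα
    split_ifs with h1 h2 h2
    · exact t.Asub α h1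
    · exact absurd h1.le h2
    · have : α = t.ht := le_antisymm h2 (not_lt.1 h1)
      subst this
      exact hAS
    · exact absurd (hmax α hα) h2
  · intro α β hαβ hβ
    split_ifs with h1 h2 h2
    · exact t.Adisj α β hαβ h2
    · exact (t.Adisj α t.ht h1 le_rfl).subset (Set.inter_subset_inter_right _ hBS)
    · exact absurd (hαβ.trans_le h2) h1
    · rw [hAB]
      exact Set.finite_empty

/-- Limit extensions. -/
theorem Tower.exists_limit (t : ℕ → Tower) (hmono : ∀ n, t (n + 1) ≤ t n)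
    (hstrict : ∀ n, (t n).ht < (t (n + 1)).ht) (a : ℕ → ℕ) (ha : StrictMono a)
    (hmem : ∀ m n, m ≤ n → a n ∈ (t m).top) :
    ∃ s : Tower, (∀ n, s ≤ t n) ∧ s.top = Set.range a ∧ (∀ n, (t n).ht < s.ht) ∧
      ∀ β < s.ht, ∃ n, β < (t n).ht := by
  classical
  obtain ⟨d, hd, hlub⟩ := W.exists_lub (fun n => (t n).ht)
  have hle : ∀ m n, m ≤ n → t n ≤ t m := by
    intro m n hmn
    induction n, hmn using Nat.le_induction with
    | base => exact le_rfl
    | succ n _ ih => exact (hmono n).trans ih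
  have hlub' : ∀ β < d, ∃ n, β < (t n).ht := by
    intro β hβ
    obtain ⟨n, hn⟩ := hlub β hβ
    exact ⟨n + 1, hn.trans_lt (hstrict n)⟩
  choose! k hk using hlub'
  have hU : ∀ n, ∀ α < d, α ≤ (t n).ht → (t (k α)).U α = (t n).U α := by
    intro n α hα hn
    rcases le_total (k α) n with h | h
    · exact ((hle _ _ h).2.1 α (hk α hα).le).symm
    · exact (hle _ _ h).2.1 α hn
  have hA : ∀ n, ∀ α < d, α < (t n).ht → (t (k α)).A α = (t n).A α := by
    intro n α hα hn
    rcases le_total (k α) n with h | h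
    · exact ((hle _ _ h).2.2 α (hk α hα)).symm
    · exact (hle _ _ h).2.2 α hn
  have hfin : ∀ n, (Set.range a \ (t n).top).Finite := by
    intro n
    refine ((Set.finite_Iio n).image a).subset ?_
    rintro _ ⟨⟨m, rfl⟩, hm⟩
    refine ⟨m, ?_, rfl⟩
    by_contra hcon
    exact hm (hmem n m (not_lt.1 hcon))
  refine ⟨⟨d, fun α => if α < d then (t (k α)).U α else Set.range a, fun α => (t (k α)).A α,
    ?_, ?_, ?_, ?_, ?_⟩, ?_, ?_, hd, fun β hβ => ⟨k β, hk β hβ⟩⟩
  · intro α _
    split_ifs with h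
    · exact (t (k α)).inf α (hk α h).le
    · exact Set.infinite_range_of_injective ha.injective
  · intro α β hαβ hβ
    split_ifs with h1 h2 h2
    · have h3 : α ≤ (t (k β)).ht := hαβ.trans (hk β h1).le
      rw [hU (k β) α h2 h3]
      exact (t (k β)).desc α β hαβ (hk β h1).le
    · exact absurd (hαβ.trans_lt h1) h2
    · have h3 := (t (k α)).desc α (t (k α)).ht (hk α h2).le le_rfl
      refine ((hfin (k α)).union h3).subset ?_
      rintro x ⟨hx1, hx2⟩
      by_cases hx : x ∈ (t (k α)).top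
      · exact Or.inr ⟨hx, hx2⟩
      · exact Or.inl ⟨hx1, hx⟩
    · simp
  · intro α hα
    exact (t (k α)).Ainf α (hk α hα)
  · intro α hα
    rw [if_pos hα]
    exact (t (k α)).Asub α (hk α hα)
  · intro α β hαβ hβ
    have hα : α < d := hαβ.trans_le hβ
    split_ifs with h1
    · rw [hA (k β) α hα (hαβ.trans (hk β h1))]
      exact (t (k β)).Adisj α β hαβ (hk β h1).le
    · have h3 := (t (k α)).A_top (hk α hα)
      refine ((hfin (k α)).union h3).subset ?_
      rintro x ⟨hx1, hx2⟩
      by_cases hx : x ∈ (t (k α)).top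
      · exact Or.inr ⟨hx1, hx⟩
      · exact Or.inl ⟨hx2, hx⟩
  · intro n
    refine ⟨(hd n).le, fun α hα => ?_, fun α hα => ?_⟩
    · have h : α < d := hα.trans_lt (hd n)
      change (if α < d then (t (k α)).U α else Set.range a) = _
      rw [if_pos h, hU n α h hα]
    · exact hA n α (hα.trans (hd n)) hα
  · change (if d < d then (t (k d)).U d else Set.range a) = _
    rw [if_neg (lt_irrefl d)]

/-- A diagonal pseudo-intersection. -/
theorem Tower.exists_diag (t : ℕ → Tower) (hmono : ∀ n, t (n + 1) ≤ t n) :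
    ∃ a : ℕ → ℕ, StrictMono a ∧ ∀ m n, m ≤ n → a n ∈ (t m).top := by
  have hle : ∀ m n, m ≤ n → t n ≤ t m := by
    intro m n hmn
    induction n, hmn using Nat.le_induction with
    | base => exact le_rfl
    | succ n _ ih => exact (hmono n).trans ih
  have key : ∀ n N, ∃ x > N, ∀ m ≤ n, x ∈ (t m).top := by
    intro n N
    have h1 : (⋃ m ∈ Set.Iic n, ((t n).top \ (t m).top)).Finite :=
      (Set.finite_Iic n).biUnion fun m hm => Tower.top_diff (hle m n hm)
    have h2 : ((t n).top \ ((⋃ m ∈ Set.Iic n, ((t n).top \ (t m).top)) ∪ Set.Iic N)).Infinite :=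
      ((t n).inf _ le_rfl).sdiff (h1.union (Set.finite_Iic N))
    obtain ⟨x, hx1, hx2⟩ := h2.nonempty
    refine ⟨x, ?_, fun m hm => ?_⟩
    · by_contra hcon
      exact hx2 (Or.inr (not_lt.1 hcon))
    · by_contra hcon
      exact hx2 (Or.inl (Set.mem_biUnion hm ⟨hx1, hcon⟩))
  choose f hf1 hf2 using key
  let a : ℕ → ℕ := fun n => Nat.rec (f 0 0) (fun n x => f (n + 1) x) n
  refine ⟨a, strictMono_nat_of_lt_succ fun n => hf1 (n + 1) (a n), fun m n hmn => ?_⟩
  cases n with
  | zero => exact hf2 0 0 m hmn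
  | succ n => exact hf2 (n + 1) (a n) m hmn

/-- Towers can be extended to any height. -/
theorem Tower.exists_ge (γ : W) : ∀ t : Tower, ∃ s ≤ t, γ < s.ht := by
  induction γ using WellFoundedLT.induction with
  | ind γ ih =>
    intro t
    by_cases hne : (Set.Iio γ).Nonempty
    · obtain ⟨f, hf⟩ := (W.countable_Iio γ).exists_eq_range hne
      have hlt : ∀ n, f n < γ := fun n => by
        have : f n ∈ Set.Iio γ := hf ▸ ⟨n, rfl⟩
        exact this
      have step : ∀ n (s : Tower), ∃ s' ≤ s, f n < s'.ht ∧ s.ht < s'.ht := by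
        intro n s
        obtain ⟨s1, h1, h2⟩ := ih (f n) (hlt n) s
        obtain ⟨s2, h3, h4⟩ := s1.exists_succ
        exact ⟨s2, h3.trans h1, h2.trans h4, h1.1.trans_lt h4⟩
      choose g hg1 hg2 hg3 using step
      let s : ℕ → Tower := fun n => Nat.rec t (fun n s => g n s) n
      have hs : ∀ n, s (n + 1) = g n (s n) := fun _ => rfl
      obtain ⟨a, ha1, ha2⟩ := Tower.exists_diag s fun n => by rw [hs]; exact hg1 _ _
      obtain ⟨r, hr1, -, hr3, -⟩ := Tower.exists_limit s (fun n => by rw [hs]; exact hg1 _ _)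
        (fun n => by rw [hs]; exact hg3 _ _) a ha1 ha2
      obtain ⟨r', h5, h6⟩ := r.exists_succ
      refine ⟨r', h5.trans (hr1 0), lt_of_le_of_lt ?_ h6⟩
      by_contra hcon
      have h7 : r.ht ∈ Set.range f := hf ▸ (not_le.1 hcon : r.ht < γ)
      obtain ⟨n, hn⟩ := h7
      have h8 := (hg2 n (s n)).trans (hr3 (n + 1))
      rw [hn] at h8
      exact lt_irrefl _ h8
    · obtain ⟨s, hs, h1⟩ := t.exists_succ
      refine ⟨s, hs, lt_of_le_of_lt ?_ h1⟩
      by_contra hcon
      exact hne ⟨t.ht, not_le.1 hcon⟩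

end Pool.Agent.helper60.SA
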