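import Mathlib
import Pool.Agent.helper60.SA.Tower

set_option autoImplicit false

/-!
# Preconditions

The bits are the elements of `Λ × ℕ`, with a well-founded order; a precondition determines some of
the bits, as functions of finitely many earlier bits.
-/

namespace Pool.Agent.helper60.SA

section Bits

variable {Λ : Type*} [PartialOrder Λ]

/-- The order of the bits. -/
def blt (b c : Λ × ℕ) : Prop := b.1 < c.1 ∨ (b.1 = c.1 ∧ b.2 < c.2)

theorem blt.trans {a b c : Λ × ℕ} (h : blt a b) (h' : blt b c) : blt a c := by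
  rcases h with h | ⟨h1, h2⟩ <;> rcases h' with h' | ⟨h3, h4⟩
  · exact Or.inl (h.trans h')
  · exact Or.inl (h3 ▸ h)
  · exact Or.inl (h1 ▸ h')
  · exact Or.inr ⟨h1.trans h3, h2.trans h4⟩

theorem blt.irrefl (a : Λ × ℕ) : ¬ blt a a := by
  rintro (h | ⟨-, h⟩)
  · exact lt_irrefl _ h
  · exact lt_irrefl _ h

theorem blt.le {a b : Λ × ℕ} (h : blt a b) : a.1 ≤ b.1 := by
  rcases h with h | ⟨h, -⟩
  · exact h.le
  · exact h.le

theorem blt_wf [WellFoundedLT Λ] : WellFounded (blt : Λ × ℕ → Λ × ℕ → Prop) := by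
  refine Subrelation.wf ?_ (WellFounded.prod_lex (wellFounded_lt (α := Λ)) (wellFounded_lt (α := ℕ)))
  intro a b h
  exact Prod.lex_def.2 h

end Bits

/-- Assignments of truth values to the bits. -/
abbrev X (Λ : Type*) := Λ × ℕ → Bool

/-- Preconditions. -/
structure PC (Λ : Type*) [PartialOrder Λ] where
  /-- the tower -/
  t : Tower
  /-- the support -/
  I : Set Λ
  cnt : I.Countable
  /-- the constraints -/
  H : Λ × ℕ → X Λ → Option Bool
  off : ∀ b, b.1 ∉ I → ∀ z, H b z = none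
  dep : ∀ b, ∃ F : Finset (Λ × ℕ), (∀ c ∈ F, blt c b ∧ c.1 ∈ I) ∧
    ∀ z z' : X Λ, (∀ c ∈ F, z c = z' c) → H b z = H b z'

namespace PC

variable {Λ : Type*} [PartialOrder Λ]

@[ext] theorem ext' {p q : PC Λ} (h1 : p.t = q.t) (h2 : p.I = q.I) (h3 : p.H = q.H) : p = q := by
  cases p
  cases q
  subst h1 h2 h3
  rfl

/-- The assignments satisfying the constraints. -/
def Z (p : PC Λ) : Set (X Λ) := {z | ∀ b v, p.H b z = some v → z b = v}

theorem congr (p : PC Λ) {b : Λ × ℕ} {z z' : X Λ} (h : ∀ c, blt c b → c.1 ∈ p.I → z c = z' c) :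
    p.H b z = p.H b z' := by
  obtain ⟨F, h1, h2⟩ := p.dep b
  exact h2 z z' fun c hc => h c (h1 c hc).1 (h1 c hc).2

theorem congr' (p : PC Λ) {b : Λ × ℕ} {z z' : X Λ} (h : ∀ c, blt c b → z c = z' c) :
    p.H b z = p.H b z' := p.congr fun c hc _ => h c hc

theorem I_of_some (p : PC Λ) {b : Λ × ℕ} {z : X Λ} {v : Bool} (h : p.H b z = some v) :
    b.1 ∈ p.I := by
  by_contra hcon
  rw [p.off b hcon z] at h
  exact absurd h (by simp)

section Compl

variable [WellFoundedLT Λ]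

open Classical in
/-- The completion of an assignment on `D`. -/
noncomputable def cmpl (p : PC Λ) (D : Set (Λ × ℕ)) (z : X Λ) : X Λ :=
  blt_wf.fix (fun b ih => if b ∈ D then z b else
    (p.H b (fun c => if h : blt c b then ih c h else false)).getD (z b))

open Classical in
theorem cmpl_eq (p : PC Λ) (D : Set (Λ × ℕ)) (z : X Λ) (b : Λ × ℕ) :
    p.cmpl D z b = if b ∈ D then z b else (p.H b (p.cmpl D z)).getD (z b) := by
  unfold cmpl
  rw [WellFounded.fix_eq]
  split_ifs with h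
  · rfl
  · congr 1
    refine p.congr' fun c hc => ?_
    rw [dif_pos hc]

theorem exists_ext' (p : PC Λ) {D : Set (Λ × ℕ)}
    (hD : ∀ b ∈ D, ∀ z z' : X Λ, (∀ c ∈ D, blt c b → z c = z' c) → p.H b z = p.H b z') {z : X Λ}
    (hz : ∀ b ∈ D, ∀ v, p.H b z = some v → z b = v) :
    ∃ z' ∈ p.Z, (∀ b ∈ D, z' b = z b) ∧ ∀ b, p.H b z' = none → z' b = z b := by
  have h1 : ∀ b ∈ D, p.cmpl D z b = z b := fun b hb => by rw [cmpl_eq, if_pos hb]
  refine ⟨p.cmpl D z, fun b v hv => ?_, h1, fun b hb => ?_⟩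
  · by_cases hb : b ∈ D
    · rw [h1 b hb]
      refine hz b hb v ?_
      rw [← hv]
      exact hD b hb _ _ fun c hc _ => (h1 c hc).symm
    · rw [cmpl_eq, if_neg hb, hv]
      rfl
  · rw [cmpl_eq]
    split_ifs with h
    · rfl
    · rw [hb]
      rfl

theorem exists_ext (p : PC Λ) {D : Set (Λ × ℕ)} (hD : ∀ b ∈ D, ∀ c, blt c b → c ∈ D) {z : X Λ}
    (hz : ∀ b ∈ D, ∀ v, p.H b z = some v → z b = v) :
    ∃ z' ∈ p.Z, (∀ b ∈ D, z' b = z b) ∧ ∀ b, p.H b z' = none → z' b = z b :=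
  p.exists_ext' (fun b hb _ _ h => p.congr' fun c hc => h c (hD b hb c hc) hc) hz

theorem Z_nonempty (p : PC Λ) : p.Z.Nonempty := by
  obtain ⟨z, hz, -⟩ := p.exists_ext (D := ∅) (z := fun _ => false) (by simp) (by simp)
  exact ⟨z, hz⟩

end Compl

instance : Preorder (PC Λ) where
  le p q := p.t ≤ q.t ∧ q.I ⊆ p.I ∧ p.Z ⊆ q.Z
  le_refl p := ⟨le_rfl, subset_rfl, subset_rfl⟩
  le_trans p q r h h' := ⟨h.1.trans h'.1, h'.2.1.trans h.2.1, h.2.2.trans h'.2.2⟩

theorem le_def {p q : PC Λ} : p ≤ q ↔ p.t ≤ q.t ∧ q.I ⊆ p.I ∧ p.Z ⊆ q.Z := Iff.rfl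

section Flip

variable [WellFoundedLT Λ]

theorem H_of_le {p q : PC Λ} (h : p.Z ⊆ q.Z) {z : X Λ} (hz : z ∈ p.Z) {b : Λ × ℕ} {v : Bool}
    (hb : q.H b z = some v) : p.H b z = some v := by
  classical
  cases hp : p.H b z with
  | none =>
    exfalso
    let z' : X Λ := Function.update z b (!v)
    have hz' : ∀ c, blt c b → z' c = z c := fun c hc => by
      refine Function.update_of_ne ?_ _ _
      rintro rfl
      exact blt.irrefl _ hc
    obtain ⟨w, hw, hwD, -⟩ := p.exists_ext (D := {c | blt c b ∨ c = b}) (z := z') (by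
      rintro c (hc | rfl) d hd
      · exact Or.inl (hd.trans hc)
      · exact Or.inl hd) (by
      rintro c (hc | rfl) v' hv'
      · rw [hz' c hc]
        refine hz c v' ?_
        rw [← hv']
        exact p.congr' fun d hd => (hz' d (hd.trans hc)).symm
      · rw [p.congr' (z' := z) hz', hp] at hv'
        exact absurd hv' (by simp))
    have h1 : w b = !v := by
      rw [hwD b (Or.inr rfl)]
      exact Function.update_self _ _ _
    have h2 : q.H b w = some v := by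
      rw [← hb]
      refine q.congr' fun c hc => ?_
      rw [hwD c (Or.inl hc), hz' c hc]
    have h3 := h hw b v h2
    rw [h1] at h3
    cases v <;> simp at h3
  | some v' =>
    rw [← hz b v' hp, ← h hz b v hb]

/-- A local version of `H_of_le`. -/
theorem H_of_le' {p q : PC Λ} (h : p.Z ⊆ q.Z) {z : X Λ} {b : Λ × ℕ} {v : Bool}
    (hz : ∀ c, blt c b → ∀ v, p.H c z = some v → z c = v)
    (hb : q.H b z = some v) : p.H b z = some v := by
  obtain ⟨w, hw, hwD, -⟩ := p.exists_ext (D := {c | blt c b}) (z := z)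
    (fun c hc d hd => blt.trans hd hc) hz
  rw [p.congr' (z' := w) fun c hc => (hwD c hc).symm]
  refine H_of_le h hw ?_
  rw [← hb]
  exact q.congr' fun c hc => hwD c hc

end Flip

/-! ### Restriction to a lower set of coordinates -/

open Classical in
/-- The restriction to a lower set of coordinates. -/
noncomputable def res (p : PC Λ) (C : LowerSet Λ) : PC Λ where
  t := p.t
  I := p.I ∩ C
  cnt := p.cnt.mono Set.inter_subset_left
  H b z := if b.1 ∈ C then p.H b z else none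
  off b hb z := by
    split_ifs with h
    · exact p.off b (fun h' => hb ⟨h', h⟩) z
    · rfl
  dep b := by
    by_cases h : b.1 ∈ C
    · obtain ⟨F, h1, h2⟩ := p.dep b
      refine ⟨F, fun c hc => ⟨(h1 c hc).1, (h1 c hc).2, C.lower (h1 c hc).1.le h⟩, ?_⟩
      intro z z' hzz
      rw [if_pos h, if_pos h]
      exact h2 z z' hzz
    · exact ⟨∅, by simp, fun z z' _ => by rw [if_neg h, if_neg h]⟩

theorem res_t (p : PC Λ) (C : LowerSet Λ) : (p.res C).t = p.t := rfl

theorem res_I (p : PC Λ) (C : LowerSet Λ) : (p.res C).I = p.I ∩ C := rfl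

open Classical in
theorem res_H (p : PC Λ) (C : LowerSet Λ) (b : Λ × ℕ) (z : X Λ) :
    (p.res C).H b z = if b.1 ∈ C then p.H b z else none := rfl

theorem res_H_of_mem (p : PC Λ) {C : LowerSet Λ} {b : Λ × ℕ} (h : b.1 ∈ C) (z : X Λ) :
    (p.res C).H b z = p.H b z := if_pos h

theorem mem_Z_res {p : PC Λ} {C : LowerSet Λ} {z : X Λ} :
    z ∈ (p.res C).Z ↔ ∀ b : Λ × ℕ, b.1 ∈ C → ∀ v, p.H b z = some v → z b = v := by
  constructor
  · intro h b hb v hv
    exact h b v (by rw [res_H_of_mem p hb]; exact hv)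
  · intro h b v hv
    by_cases hb : b.1 ∈ C
    · rw [res_H_of_mem p hb] at hv
      exact h b hb v hv
    · rw [res_H, if_neg hb] at hv
      exact absurd hv (by simp)

theorem mem_Z_res' [WellFoundedLT Λ] {p : PC Λ} {C : LowerSet Λ} {z : X Λ} :
    z ∈ (p.res C).Z ↔ ∃ z' ∈ p.Z, ∀ b : Λ × ℕ, b.1 ∈ C → z' b = z b := by
  rw [mem_Z_res]
  constructor
  · intro h
    obtain ⟨w, hw, hwD, -⟩ := p.exists_ext (D := {c | c.1 ∈ C}) (z := z)
      (fun c hc d hd => C.lower hd.le hc) (fun b hb v hv => h b hb v hv)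
    exact ⟨w, hw, hwD⟩
  · rintro ⟨w, hw, h⟩ b hb v hv
    rw [← h b hb]
    refine hw b v ?_
    rw [← hv]
    exact p.congr' fun c hc => h c (C.lower hc.le hb)

theorem le_res (p : PC Λ) (C : LowerSet Λ) : p ≤ p.res C :=
  ⟨le_rfl, Set.inter_subset_left, fun _ hz => mem_Z_res.2 fun b _ v hv => hz b v hv⟩

theorem res_mono [WellFoundedLT Λ] {p q : PC Λ} (h : p ≤ q) (C : LowerSet Λ) :
    p.res C ≤ q.res C :=
  ⟨h.1, Set.inter_subset_inter_left _ h.2.1, fun z hz => by
    obtain ⟨w, hw, h1⟩ := mem_Z_res'.1 hz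
    exact mem_Z_res'.2 ⟨w, h.2.2 hw, h1⟩⟩

theorem res_eq_self {p : PC Λ} {C : LowerSet Λ} (h : p.I ⊆ C) : p.res C = p := by
  refine PC.ext' rfl (Set.inter_eq_left.2 h) (funext fun b => funext fun z => ?_)
  rw [res_H]
  split_ifs with hb
  · rfl
  · exact (p.off b (fun h' => hb (h h')) z).symm

theorem res_res {p : PC Λ} {C D : LowerSet Λ} (h : D ≤ C) : (p.res C).res D = p.res D := by
  refine PC.ext' rfl ?_ (funext fun b => funext fun z => ?_)
  · rw [res_I, res_I, res_I, Set.inter_assoc, Set.inter_eq_right.2 (show (D : Set Λ) ⊆ C from h)]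
  · rw [res_H, res_H, res_H]
    split_ifs with h1 h2
    · rfl
    · exact absurd (h h1) h2
    · rfl

/-- Membership in `Z` only depends on the coordinates in the support. -/
theorem mem_Z_congr {p : PC Λ} {z z' : X Λ} (h : ∀ b : Λ × ℕ, b.1 ∈ p.I → z b = z' b) :
    z ∈ p.Z ↔ z' ∈ p.Z := by
  have key : ∀ z z' : X Λ, (∀ b : Λ × ℕ, b.1 ∈ p.I → z b = z' b) → z ∈ p.Z → z' ∈ p.Z := by
    intro z z' h hz b v hv
    have h1 := p.I_of_some hv
    rw [← h b h1]
    refine hz b v ?_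
    rw [← hv]
    exact p.congr fun c _ hc => h c hc
  exact ⟨key z z' h, key z' z fun b hb => (h b hb).symm⟩

/-! ### Amalgamation -/

open Classical in
/-- The condition given by `q` on `C` and by `p` outside `C`. -/
noncomputable def amal (q p : PC Λ) (C : LowerSet Λ) : PC Λ where
  t := q.t
  I := q.I ∪ p.I
  cnt := q.cnt.union p.cnt
  H b z := if b.1 ∈ C then q.H b z else p.H b z
  off b hb z := by
    split_ifs with h
    · exact q.off b (fun h' => hb (Or.inl h')) z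
    · exact p.off b (fun h' => hb (Or.inr h')) z
  dep b := by
    by_cases h : b.1 ∈ C
    · obtain ⟨F, h1, h2⟩ := q.dep b
      refine ⟨F, fun c hc => ⟨(h1 c hc).1, Or.inl (h1 c hc).2⟩, ?_⟩
      intro z z' hzz
      rw [if_pos h, if_pos h]
      exact h2 z z' hzz
    · obtain ⟨F, h1, h2⟩ := p.dep b
      refine ⟨F, fun c hc => ⟨(h1 c hc).1, Or.inr (h1 c hc).2⟩, ?_⟩
      intro z z' hzz
      rw [if_neg h, if_neg h]
      exact h2 z z' hzz

open Classical in
theorem amal_H (q p : PC Λ) (C : LowerSet Λ) (b : Λ × ℕ) (z : X Λ) :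
    (q.amal p C).H b z = if b.1 ∈ C then q.H b z else p.H b z := rfl

theorem amal_H_of_mem (q p : PC Λ) {C : LowerSet Λ} {b : Λ × ℕ} (h : b.1 ∈ C) (z : X Λ) :
    (q.amal p C).H b z = q.H b z := if_pos h

theorem amal_H_of_not_mem (q p : PC Λ) {C : LowerSet Λ} {b : Λ × ℕ} (h : b.1 ∉ C) (z : X Λ) :
    (q.amal p C).H b z = p.H b z := if_neg h

theorem Z_amal {q p : PC Λ} {C : LowerSet Λ} (hq : q.I ⊆ C) (h : q ≤ p.res C) :
    (q.amal p C).Z = q.Z ∩ p.Z := by
  ext z
  constructor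
  · intro hz
    have h1 : z ∈ q.Z := fun b v hv => by
      have hb : b.1 ∈ C := hq (q.I_of_some hv)
      exact hz b v (by rw [amal_H_of_mem _ _ hb]; exact hv)
    refine ⟨h1, fun b v hv => ?_⟩
    by_cases hb : b.1 ∈ C
    · exact mem_Z_res.1 (h.2.2 h1) b hb v hv
    · exact hz b v (by rw [amal_H_of_not_mem _ _ hb]; exact hv)
  · rintro ⟨h1, h2⟩ b v hv
    by_cases hb : b.1 ∈ C
    · rw [amal_H_of_mem _ _ hb] at hv
      exact h1 b v hv
    · rw [amal_H_of_not_mem _ _ hb] at hv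
      exact h2 b v hv

theorem amal_le_left {q p : PC Λ} {C : LowerSet Λ} (hq : q.I ⊆ C) (h : q ≤ p.res C) :
    q.amal p C ≤ q :=
  ⟨le_rfl, Set.subset_union_left, by rw [Z_amal hq h]; exact Set.inter_subset_left⟩

theorem amal_le_right {q p : PC Λ} {C : LowerSet Λ} (hq : q.I ⊆ C) (h : q ≤ p.res C) :
    q.amal p C ≤ p :=
  ⟨h.1, Set.subset_union_right, by rw [Z_amal hq h]; exact Set.inter_subset_right⟩

theorem amal_res {q p : PC Λ} {C : LowerSet Λ} (hq : q.I ⊆ C) (h : q ≤ p.res C) :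
    (q.amal p C).res C = q := by
  refine PC.ext' rfl ?_ (funext fun b => funext fun z => ?_)
  · change (q.I ∪ p.I) ∩ C = q.I
    rw [Set.union_inter_distrib_right, Set.inter_eq_left.2 hq]
    exact Set.union_eq_left.2 h.2.1
  · rw [res_H, amal_H]
    split_ifs with hb
    · rfl
    · exact (q.off b (fun h' => hb (hq h')) z).symm

/-! ### Restriction to a clopen set -/

/-- A finite set of bits in the support, closed under dependence. -/
structure Closed (p : PC Λ) (B : Finset (Λ × ℕ)) : Prop where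
  sub : ∀ b ∈ B, b.1 ∈ p.I
  dep : ∀ b ∈ B, ∀ z z' : X Λ, (∀ c ∈ B, blt c b → z c = z' c) → p.H b z = p.H b z'

open Classical in
/-- The values of the bits in `B` are fixed to be those of `s`. -/
noncomputable def restr (p : PC Λ) (B : Finset (Λ × ℕ)) (s : X Λ) : PC Λ where
  t := p.t
  I := p.I
  cnt := p.cnt
  H b z := if b ∈ B ∧ b.1 ∈ p.I then some (s b) else p.H b z
  off b hb z := by
    rw [if_neg fun h => hb h.2]
    exact p.off b hb z
  dep b := by
    by_cases h : b ∈ B ∧ b.1 ∈ p.I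
    · exact ⟨∅, by simp, fun z z' _ => by rw [if_pos h, if_pos h]⟩
    · obtain ⟨F, h1, h2⟩ := p.dep b
      refine ⟨F, h1, ?_⟩
      intro z z' hzz
      rw [if_neg h, if_neg h]
      exact h2 z z' hzz

open Classical in
theorem restr_H (p : PC Λ) (B : Finset (Λ × ℕ)) (s : X Λ) (b : Λ × ℕ) (z : X Λ) :
    (p.restr B s).H b z = if b ∈ B ∧ b.1 ∈ p.I then some (s b) else p.H b z := rfl

theorem restr_H_of_mem {p : PC Λ} {B : Finset (Λ × ℕ)} (hB : p.Closed B) (s : X Λ) {b : Λ × ℕ}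
    (hb : b ∈ B) (z : X Λ) : (p.restr B s).H b z = some (s b) := if_pos ⟨hb, hB.sub b hb⟩

theorem restr_H_of_not_mem (p : PC Λ) {B : Finset (Λ × ℕ)} (s : X Λ) {b : Λ × ℕ}
    (hb : b ∉ B) (z : X Λ) : (p.restr B s).H b z = p.H b z := if_neg fun h => hb h.1

theorem mem_Z_restr {p : PC Λ} {B : Finset (Λ × ℕ)} (hB : p.Closed B) {s : X Λ} (hs : s ∈ p.Z)
    {z : X Λ} : z ∈ (p.restr B s).Z ↔ z ∈ p.Z ∧ ∀ b ∈ B, z b = s b := by
  constructor
  · intro hz
    have h1 : ∀ b ∈ B, z b = s b := fun b hb => hz b _ (restr_H_of_mem hB s hb z)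
    refine ⟨fun b v hv => ?_, h1⟩
    by_cases hb : b ∈ B
    · rw [h1 b hb]
      refine hs b v ?_
      rw [← hv]
      exact hB.dep b hb _ _ fun c hc _ => (h1 c hc).symm
    · exact hz b v (by rw [restr_H_of_not_mem _ _ hb]; exact hv)
  · rintro ⟨h1, h2⟩ b v hv
    by_cases hb : b ∈ B
    · rw [restr_H_of_mem hB s hb] at hv
      rw [h2 b hb]
      exact Option.some.inj hv
    · rw [restr_H_of_not_mem _ _ hb] at hv
      exact h1 b v hv

theorem restr_le {p : PC Λ} {B : Finset (Λ × ℕ)} (hB : p.Closed B) {s : X Λ} (hs : s ∈ p.Z) :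
    p.restr B s ≤ p :=
  ⟨le_rfl, subset_rfl, fun _ hz => ((mem_Z_restr hB hs).1 hz).1⟩

theorem restr_mono {p q : PC Λ} {B B' : Finset (Λ × ℕ)} (hB : p.Closed B) (hB' : q.Closed B')
    {s : X Λ} (hs : s ∈ p.Z) (h : p ≤ q) (hBB : B' ⊆ B) : p.restr B s ≤ q.restr B' s :=
  ⟨h.1, h.2.1, fun z hz => by
    obtain ⟨h1, h2⟩ := (mem_Z_restr hB hs).1 hz
    exact (mem_Z_restr hB' (h.2.2 hs)).2 ⟨h.2.2 h1, fun b hb => h2 b (hBB hb)⟩⟩

theorem self_mem_restr {p : PC Λ} {B : Finset (Λ × ℕ)} (hB : p.Closed B) {s : X Λ}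
    (hs : s ∈ p.Z) : s ∈ (p.restr B s).Z := (mem_Z_restr hB hs).2 ⟨hs, fun _ _ => rfl⟩

theorem restr_congr {p : PC Λ} {B : Finset (Λ × ℕ)} {s s' : X Λ} (h : ∀ b ∈ B, s b = s' b) :
    p.restr B s = p.restr B s' := by
  refine PC.ext' rfl rfl (funext fun b => funext fun z => ?_)
  rw [restr_H, restr_H]
  split_ifs with hb
  · rw [h b hb.1]
  · rfl

/-- Every finite set of bits in the support is contained in a closed one. -/
theorem exists_closed [WellFoundedLT Λ] (p : PC Λ) (B : Finset (Λ × ℕ))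
    (hB : ∀ b ∈ B, b.1 ∈ p.I) : ∃ B', B ⊆ B' ∧ p.Closed B' := by
  classical
  have h1 : ∀ b : Λ × ℕ, b.1 ∈ p.I → ∃ B', b ∈ B' ∧ p.Closed B' := by
    intro b
    refine (blt_wf (Λ := Λ)).induction
      (C := fun b => b.1 ∈ p.I → ∃ B', b ∈ B' ∧ p.Closed B') b fun b ih => ?_
    · intro hb
      obtain ⟨F, hF1, hF2⟩ := p.dep b
      choose! G hG1 hG2 using fun c (hc : c ∈ F) => ih c (hF1 c hc).1 (hF1 c hc).2
      refine ⟨insert b (F.biUnion G), Finset.mem_insert_self _ _, fun c hc => ?_,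
        fun c hc z z' hzz => ?_⟩
      · rcases Finset.mem_insert.1 hc with rfl | hc
        · exact hb
        · obtain ⟨d, hd, hcd⟩ := Finset.mem_biUnion.1 hc
          exact (hG2 d hd).sub c hcd
      · rcases Finset.mem_insert.1 hc with rfl | hc
        · exact hF2 z z' fun d hd => hzz d (Finset.mem_insert_of_mem
            (Finset.mem_biUnion.2 ⟨d, hd, hG1 d hd⟩)) (hF1 d hd).1
        · obtain ⟨d, hd, hcd⟩ := Finset.mem_biUnion.1 hc
          exact (hG2 d hd).dep c hcd z z' fun e he h => hzz e (Finset.mem_insert_of_mem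
            (Finset.mem_biUnion.2 ⟨d, hd, he⟩)) h
  choose! G hG1 hG2 using h1
  refine ⟨B.biUnion G, fun b hb => Finset.mem_biUnion.2 ⟨b, hb, hG1 b (hB b hb)⟩,
    fun c hc => ?_, fun c hc z z' hzz => ?_⟩
  · obtain ⟨d, hd, hcd⟩ := Finset.mem_biUnion.1 hc
    exact (hG2 d (hB d hd)).sub c hcd
  · obtain ⟨d, hd, hcd⟩ := Finset.mem_biUnion.1 hc
    exact (hG2 d (hB d hd)).dep c hcd z z' fun e he h => hzz e
      (Finset.mem_biUnion.2 ⟨d, hd, he⟩) h

/-! ### Mixing -/

open Classical in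
/-- The condition which is `r` on the clopen set given by `s` on `B`, and `p` elsewhere. -/
noncomputable def mix (p : PC Λ) (B : Finset (Λ × ℕ)) (s : X Λ) (r : PC Λ) : PC Λ where
  t := r.t
  I := r.I ∪ p.I
  cnt := r.cnt.union p.cnt
  H b z := if b ∈ B then p.H b z else
    if ∀ c ∈ B, c.1 ∈ p.I → blt c b → z c = s c then r.H b z else p.H b z
  off b hb z := by
    have h1 := p.off b (fun h' => hb (Or.inr h')) z
    have h2 := r.off b (fun h' => hb (Or.inl h')) z
    split_ifs <;> assumption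
  dep b := by
    obtain ⟨F, h1, h2⟩ := p.dep b
    obtain ⟨G, h3, h4⟩ := r.dep b
    refine ⟨F ∪ G ∪ B.filter (fun c => c.1 ∈ p.I ∧ blt c b), fun c hc => ?_, fun z z' hzz => ?_⟩
    · rcases Finset.mem_union.1 hc with hc | hc
      · rcases Finset.mem_union.1 hc with hc | hc
        · exact ⟨(h1 c hc).1, Or.inr (h1 c hc).2⟩
        · exact ⟨(h3 c hc).1, Or.inl (h3 c hc).2⟩
      · obtain ⟨-, hc1, hc2⟩ := Finset.mem_filter.1 hc
        exact ⟨hc2, Or.inr hc1⟩
    · have e1 : p.H b z = p.H b z' := h2 z z' fun c hc => hzz c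
        (Finset.mem_union_left _ (Finset.mem_union_left _ hc))
      have e2 : r.H b z = r.H b z' := h4 z z' fun c hc => hzz c
        (Finset.mem_union_left _ (Finset.mem_union_right _ hc))
      have e3 : (∀ c ∈ B, c.1 ∈ p.I → blt c b → z c = s c) ↔
          ∀ c ∈ B, c.1 ∈ p.I → blt c b → z' c = s c := by
        refine forall_congr' fun c => forall_congr' fun hc => forall_congr' fun hc1 =>
          forall_congr' fun hc2 => ?_
        rw [hzz c (Finset.mem_union_right _ (Finset.mem_filter.2 ⟨hc, hc1, hc2⟩))]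
      rw [e1, e2]
      simp only [e3]

theorem mix_t (p : PC Λ) (B : Finset (Λ × ℕ)) (s : X Λ) (r : PC Λ) : (p.mix B s r).t = r.t := rfl

theorem mix_I (p : PC Λ) (B : Finset (Λ × ℕ)) (s : X Λ) (r : PC Λ) :
    (p.mix B s r).I = r.I ∪ p.I := rfl

theorem mix_H_of_mem (p : PC Λ) {B : Finset (Λ × ℕ)} (s : X Λ) (r : PC Λ) {b : Λ × ℕ}
    (hb : b ∈ B) (z : X Λ) : (p.mix B s r).H b z = p.H b z := if_pos hb

theorem mix_H_of_match {p : PC Λ} {B : Finset (Λ × ℕ)} {s : X Λ} (r : PC Λ)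
    {b : Λ × ℕ} (hb : b ∉ B) {z : X Λ} (h : ∀ c ∈ B, blt c b → z c = s c) :
    (p.mix B s r).H b z = r.H b z :=
  (if_neg hb).trans (if_pos fun c hc _ hcb => h c hc hcb)

theorem mix_H_of_not_match {p : PC Λ} {B : Finset (Λ × ℕ)} (hB : p.Closed B) {s : X Λ} (r : PC Λ)
    {b : Λ × ℕ} {z : X Λ} (h : ∃ c ∈ B, blt c b ∧ z c ≠ s c) :
    (p.mix B s r).H b z = p.H b z := by
  by_cases hb : b ∈ B
  · exact mix_H_of_mem p s r hb z
  · refine (if_neg hb).trans (if_neg fun h' => ?_)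
    obtain ⟨c, hc, h1, h2⟩ := h
    exact h2 (h' c hc (hB.sub c hc) h1)

section Mix

variable [WellFoundedLT Λ] {p r : PC Λ} {B : Finset (Λ × ℕ)} {s : X Λ}

/-- Claim A: assignments satisfying the constraints of the mixed condition, and matching `s` on a
lower set `D` of bits, satisfy the constraints of `r` on `D`. -/
theorem mix_match (hB : p.Closed B) (hs : s ∈ p.Z) (hr : r ≤ p.restr B s) {D : Set (Λ × ℕ)}
    (hD : ∀ b ∈ D, ∀ c, blt c b → c ∈ D) {z : X Λ}
    (hz : ∀ b ∈ D, ∀ v, (p.mix B s r).H b z = some v → z b = v)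
    (hm : ∀ b ∈ B, b ∈ D → z b = s b) : ∀ b ∈ D, ∀ v, r.H b z = some v → z b = v := by
  intro b
  refine (blt_wf (Λ := Λ)).induction
    (C := fun b => b ∈ D → ∀ v, r.H b z = some v → z b = v) b fun b ih => ?_
  · intro hb v hv
    by_cases hbB : b ∈ B
    · obtain ⟨w, hw, hwD, -⟩ := r.exists_ext (D := {c | blt c b}) (z := z)
        (fun c hc d hd => blt.trans hd hc) (fun c hc => ih c hc (hD b hb c hc))
      have h1 : r.H b w = some v := by
        rw [← hv]
        exact r.congr' fun c hc => hwD c hc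
      have h2 := hw b v h1
      have h3 := ((mem_Z_restr hB hs).1 (hr.2.2 hw)).2 b hbB
      rw [hm b hbB hb, ← h3, h2]
    · refine hz b hb v ?_
      rw [mix_H_of_match r hbB fun c hc hcb => hm c hc (hD b hb c hcb)]
      exact hv

theorem mix_match' (hB : p.Closed B) (hs : s ∈ p.Z) (hr : r ≤ p.restr B s) {D : Set (Λ × ℕ)}
    (hD : ∀ b ∈ D, ∀ c, blt c b → c ∈ D) {z : X Λ}
    (hz : ∀ b ∈ D, ∀ v, (p.mix B s r).H b z = some v → z b = v)
    (hm : ∀ b ∈ B, b ∈ D → z b = s b) : ∃ w ∈ r.Z, ∀ b ∈ D, w b = z b := by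
  obtain ⟨w, hw, hwD, -⟩ := r.exists_ext hD (mix_match hB hs hr hD hz hm)
  exact ⟨w, hw, hwD⟩

theorem Z_mix_le (hB : p.Closed B) (hs : s ∈ p.Z) (hr : r ≤ p.restr B s) :
    (p.mix B s r).Z ⊆ p.Z := by
  intro z hz b v hv
  by_cases hbB : b ∈ B
  · exact hz b v (by rw [mix_H_of_mem p s r hbB]; exact hv)
  by_cases hm : ∀ c ∈ B, blt c b → z c = s c
  · refine hz b v ?_
    rw [mix_H_of_match r hbB hm]
    refine H_of_le' (q := p) (hr.2.2.trans (restr_le hB hs).2.2) ?_ hv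
    exact mix_match hB hs hr (D := {c | blt c b}) (fun c hc d hd => blt.trans hd hc)
      (fun c _ v hv => hz c v hv) (fun c hc hcb => hm c hc hcb)
  · push Not at hm
    exact hz b v (by rw [mix_H_of_not_match hB r hm]; exact hv)

theorem mix_le (hB : p.Closed B) (hs : s ∈ p.Z) (hr : r ≤ p.restr B s) : p.mix B s r ≤ p :=
  ⟨hr.1, Set.subset_union_right, Z_mix_le hB hs hr⟩

omit [WellFoundedLT Λ] in
theorem mix_closed (hB : p.Closed B) : (p.mix B s r).Closed B :=
  ⟨fun b hb => Or.inr (hB.sub b hb), fun b hb z z' h => by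
    rw [mix_H_of_mem p s r hb, mix_H_of_mem p s r hb]
    exact hB.dep b hb z z' h⟩

theorem mix_restr_le (hB : p.Closed B) (hs : s ∈ p.Z) (hr : r ≤ p.restr B s) {z : X Λ}
    (hz : z ∈ (p.mix B s r).Z) (hzs : ∀ b ∈ B, z b = s b) : (p.mix B s r).restr B z ≤ r := by
  refine ⟨le_rfl, Set.subset_union_left, fun w hw => ?_⟩
  obtain ⟨h1, h2⟩ := (mem_Z_restr (mix_closed hB) hz).1 hw
  intro b v hv
  exact mix_match hB hs hr (D := Set.univ) (fun _ _ _ _ => trivial) (fun c _ v hv => h1 c v hv)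
    (fun c hc _ => (h2 c hc).trans (hzs c hc)) b trivial v hv

end Mix

end PC

end Pool.Agent.helper60.SA
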