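import Mathlib
import Pool.Agent.helper60.SA.PC

set_option autoImplicit false

/-!
# Conditions
-/

namespace Pool.Agent.helper60.SA

namespace PC

variable {Λ : Type*} [PartialOrder Λ]

/-- The bits in the last set of the tower are (almost all) free. -/
def R1 (p : PC Λ) : Prop :=
  ∀ ζ : Λ, ∃ M, ∀ x, M ≤ x → x ∈ p.t.top → ∀ z ∈ p.Z, p.H (ζ, x) z = none

/-- The bits in each set `A β` are almost all free, or almost all zero. -/
def R2 (p : PC Λ) : Prop :=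
  ∀ ζ : Λ, ∀ β < p.t.ht, ∃ M, ∀ z ∈ p.Z,
    (∀ x, M ≤ x → x ∈ p.t.A β → p.H (ζ, x) z = none) ∨
    (∀ x, M ≤ x → x ∈ p.t.A β → p.H (ζ, x) z = some false)

/-- `A β` has been dealt with (at the coordinate `ζ`, for the assignment `z`). -/
def Done (p : PC Λ) (ζ : Λ) (β : W) (z : X Λ) : Prop :=
  ∃ M, ∀ x, M ≤ x → x ∈ p.t.A β → p.H (ζ, x) z = some false

/-- The set of conditions in `S` deciding that the function with the name `n` takes the value `m`
at `β`. -/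
def F (S : Set (PC Λ)) (n : W → ℕ → Set (PC Λ)) (β : W) (m : ℕ) : Set (PC Λ) :=
  {r | r ∈ S ∧ ∃ s ∈ n β m, r ≤ s}

theorem F_mono {S : Set (PC Λ)} {n : W → ℕ → Set (PC Λ)} {β : W} {m : ℕ} {r r' : PC Λ}
    (h : r ∈ F S n β m) (hr : r' ∈ S) (hle : r' ≤ r) : r' ∈ F S n β m := by
  obtain ⟨-, s, hs, h1⟩ := h
  exact ⟨hr, s, hs, hle.trans h1⟩

/-- `n` is a name of a function from `W` to `ℕ`. -/
structure Legit (S : Set (PC Λ)) (n : W → ℕ → Set (PC Λ)) : Prop where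
  dense : ∀ β, ∀ p ∈ S, ∃ r ≤ p, ∃ m, r ∈ F S n β m
  func : ∀ β m m' r, r ∈ F S n β m → r ∈ F S n β m' → m = m'

/-- The generic set at the coordinate `ζ` meets each `A β` above the value at `β` of the function
with the name `n`. -/
def R3 (S : Set (PC Λ)) (n : W → ℕ → Set (PC Λ)) (ζ : Λ) (p : PC Λ) : Prop :=
  ∀ β < p.t.ht, ∀ m, ∀ r ∈ F S n β m, r ≤ p.res (LowerSet.Iio ζ) → ∀ z ∈ p.Z, z ∈ r.Z →
    p.Done ζ β z → ∃ a ∈ p.t.A β, m ≤ a ∧ z (ζ, a) = true

variable [WellFoundedLT Λ] (N : Λ → W → ℕ → Set (PC Λ))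

/-- The conditions with support below `ζ`. -/
def Pset (ζ : Λ) : Set (PC Λ) :=
  (wellFounded_lt (α := Λ)).fix (fun ζ ih => {p : PC Λ | (p.R1 ∧ p.R2) ∧ p.I ⊆ Set.Iio ζ ∧
    ∀ η, (h : η < ζ) → η ∈ p.I → Legit (ih η h) (N η) ∧ R3 (ih η h) (N η) η p}) ζ

/-- Conditions. -/
structure Mem (p : PC Λ) : Prop where
  r1 : p.R1
  r2 : p.R2
  legit : ∀ η ∈ p.I, Legit (Pset N η) (N η)
  r3 : ∀ η ∈ p.I, R3 (Pset N η) (N η) η p

theorem mem_Pset {ζ : Λ} {p : PC Λ} : p ∈ Pset N ζ ↔ p.Mem N ∧ p.I ⊆ Set.Iio ζ := by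
  have h : Pset N ζ = {p : PC Λ | (p.R1 ∧ p.R2) ∧ p.I ⊆ Set.Iio ζ ∧
      ∀ η, η < ζ → η ∈ p.I → Legit (Pset N η) (N η) ∧ R3 (Pset N η) (N η) η p} := by
    unfold Pset
    rw [WellFounded.fix_eq]
  rw [h]
  constructor
  · rintro ⟨⟨h1, h2⟩, h3, h4⟩
    exact ⟨⟨h1, h2, fun η hη => (h4 η (h3 hη) hη).1, fun η hη => (h4 η (h3 hη) hη).2⟩, h3⟩
  · rintro ⟨⟨h1, h2, h3, h4⟩, h5⟩
    exact ⟨⟨h1, h2⟩, h5, fun η _ hη' => ⟨h3 η hη', h4 η hη'⟩⟩

variable {N} {p q r : PC Λ} {C : LowerSet Λ}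

theorem Mem.res (hp : p.Mem N) (C : LowerSet Λ) : (p.res C).Mem N := by
  refine ⟨fun ζ => ?_, fun ζ β hβ => ?_, fun η hη => hp.legit η hη.1, fun η hη => ?_⟩
  · by_cases hζ : ζ ∈ C
    · obtain ⟨M, hM⟩ := hp.r1 ζ
      refine ⟨M, fun x hx hxt z hz => ?_⟩
      obtain ⟨w, hw, hwC⟩ := mem_Z_res'.1 hz
      rw [res_H_of_mem p (b := (ζ, x)) hζ, ← hM x hx hxt w hw]
      exact p.congr' fun c hc => (hwC c (C.lower hc.le hζ)).symm
    · exact ⟨0, fun x _ _ z _ => if_neg hζ⟩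
  · by_cases hζ : ζ ∈ C
    · obtain ⟨M, hM⟩ := hp.r2 ζ β hβ
      refine ⟨M, fun z hz => ?_⟩
      obtain ⟨w, hw, hwC⟩ := mem_Z_res'.1 hz
      have e : ∀ x, (p.res C).H (ζ, x) z = p.H (ζ, x) w := fun x => by
        rw [res_H_of_mem p (b := (ζ, x)) hζ]
        exact p.congr' fun c hc => (hwC c (C.lower hc.le hζ)).symm
      simp only [e]
      exact hM w hw
    · exact ⟨0, fun z _ => Or.inl fun x _ _ => if_neg hζ⟩
  · intro β hβ m r hr hle z hz hzr hd
    obtain ⟨w, hw, hwC⟩ := mem_Z_res'.1 hz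
    have hC : (LowerSet.Iio η : LowerSet Λ) ≤ C := fun a ha => C.lower (le_of_lt ha) hη.2
    rw [res_res hC] at hle
    have hrI := ((mem_Pset N).1 hr.1).2
    have h1 : w ∈ r.Z := by
      refine (mem_Z_congr fun b hb => ?_).1 hzr
      exact (hwC b (hC (hrI hb))).symm
    obtain ⟨M, hM⟩ := hd
    have h2 : p.Done η β w := ⟨M, fun x hx hxA => by
      rw [← hM x hx hxA, res_H_of_mem p (b := (η, x)) hη.2]
      exact p.congr' fun c hc => hwC c (C.lower hc.le hη.2)⟩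
    obtain ⟨a, ha, hma, hwa⟩ := hp.r3 η hη.1 β hβ m r hr hle w hw h1 h2
    exact ⟨a, ha, hma, by rw [← hwC (η, a) hη.2]; exact hwa⟩

theorem Mem.res_Pset (hp : p.Mem N) (ζ : Λ) : p.res (LowerSet.Iio ζ) ∈ Pset N ζ :=
  (mem_Pset N).2 ⟨hp.res _, Set.inter_subset_right⟩

/-- For a new `β`, the bits in `A β` are almost all free in the old condition. -/
theorem Mem.new_free (hp : p.Mem N) {t : Tower} (ht : t ≤ p.t) {β : W} (h1 : p.t.ht ≤ β)
    (h2 : β < t.ht) (ζ : Λ) : ∃ M, ∀ x, M ≤ x → x ∈ t.A β → ∀ z ∈ p.Z, p.H (ζ, x) z = none := by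
  obtain ⟨M, hM⟩ := hp.r1 ζ
  obtain ⟨M', hM'⟩ := (Tower.A_diff ht h1 h2).bddAbove
  refine ⟨max M (M' + 1), fun x hx hxA z hz => hM x (le_trans (le_max_left _ _) hx) ?_ z hz⟩
  by_contra hcon
  have h3 := hM' ⟨hxA, hcon⟩
  have h4 := le_trans (le_max_right M (M' + 1)) hx
  omega

/-- The last set of an extension of the tower is almost contained in the last set. -/
theorem Mem.top_free (hp : p.Mem N) {t : Tower} (ht : t ≤ p.t) (ζ : Λ) :
    ∃ M, ∀ x, M ≤ x → x ∈ t.top → ∀ z ∈ p.Z, p.H (ζ, x) z = none := by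
  obtain ⟨M, hM⟩ := hp.r1 ζ
  obtain ⟨M', hM'⟩ := (Tower.top_diff ht).bddAbove
  refine ⟨max M (M' + 1), fun x hx hxA z hz => hM x (le_trans (le_max_left _ _) hx) ?_ z hz⟩
  by_contra hcon
  have h3 := hM' ⟨hxA, hcon⟩
  have h4 := le_trans (le_max_right M (M' + 1)) hx
  omega

theorem Tower.exists_mem_ge (t : Tower) {β : W} (hβ : β < t.ht) (M : ℕ) :
    ∃ x, M ≤ x ∧ x ∈ t.A β := by
  obtain ⟨x, hx, hM⟩ := (t.Ainf β hβ).exists_gt M
  exact ⟨x, hM.le, hx⟩

theorem Mem.amal (hq : q.Mem N) (hp : p.Mem N) (hqC : q.I ⊆ C) (h : q ≤ p.res C) :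
    (q.amal p C).Mem N := by
  have hZ := Z_amal hqC h
  refine ⟨fun ζ => ?_, fun ζ β hβ => ?_, fun η hη => ?_, fun η hη => ?_⟩
  · by_cases hζ : ζ ∈ C
    · obtain ⟨M, hM⟩ := hq.r1 ζ
      refine ⟨M, fun x hx hxt z hz => ?_⟩
      rw [amal_H_of_mem q p (b := (ζ, x)) hζ]
      exact hM x hx hxt z (hZ ▸ hz).1
    · obtain ⟨M, hM⟩ := hp.top_free h.1 ζ
      refine ⟨M, fun x hx hxt z hz => ?_⟩
      rw [amal_H_of_not_mem q p (b := (ζ, x)) hζ]
      exact hM x hx hxt z (hZ ▸ hz).2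
  · by_cases hζ : ζ ∈ C
    · obtain ⟨M, hM⟩ := hq.r2 ζ β hβ
      refine ⟨M, fun z hz => ?_⟩
      simp only [amal_H_of_mem q p (b := (ζ, _)) hζ]
      exact hM z (hZ ▸ hz).1
    · simp only [amal_H_of_not_mem q p (b := (ζ, _)) hζ]
      by_cases hβp : β < p.t.ht
      · obtain ⟨M, hM⟩ := hp.r2 ζ β hβp
        have hA : q.t.A β = p.t.A β := h.1.2.2 β hβp
        refine ⟨M, fun z hz => ?_⟩
        have := hM z (hZ ▸ hz).2
        rw [← hA] at this
        exact this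
      · obtain ⟨M, hM⟩ := hp.new_free h.1 (not_lt.1 hβp) hβ ζ
        exact ⟨M, fun z hz => Or.inl fun x hx hxA => hM x hx hxA z (hZ ▸ hz).2⟩
  · rcases hη with hη | hη
    · exact hq.legit η hη
    · exact hp.legit η hη
  · intro β hβ m r hr hle z hz hzr hd
    have hzqp := hZ ▸ hz
    by_cases hηC : η ∈ C
    · have hηq : η ∈ q.I := by
        rcases hη with hη | hη
        · exact hη
        · exact h.2.1 ⟨hη, hηC⟩
      have hC : (LowerSet.Iio η : LowerSet Λ) ≤ C := fun a ha => C.lower (le_of_lt ha) hηC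
      have e : (q.amal p C).res (LowerSet.Iio η) = q.res (LowerSet.Iio η) := by
        rw [← res_res hC, amal_res hqC h]
      rw [e] at hle
      obtain ⟨M, hM⟩ := hd
      refine hq.r3 η hηq β hβ m r hr hle z hzqp.1 hzr ⟨M, fun x hx hxA => ?_⟩
      rw [← hM x hx hxA, amal_H_of_mem q p (b := (η, x)) hηC]
    · have hηp : η ∈ p.I := by
        rcases hη with hη | hη
        · exact absurd (hqC hη) hηC
        · exact hη
      obtain ⟨M, hM⟩ := hd
      simp only [amal_H_of_not_mem q p (b := (η, _)) hηC] at hM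
      by_cases hβp : β < p.t.ht
      · have hA : q.t.A β = p.t.A β := h.1.2.2 β hβp
        obtain ⟨a, ha, h1, h2⟩ := hp.r3 η hηp β hβp m r hr
          (hle.trans (res_mono (amal_le_right hqC h) _)) z hzqp.2 hzr
          ⟨M, fun x hx hxA => hM x hx (hA.symm ▸ hxA)⟩
        exact ⟨a, hA.symm ▸ ha, h1, h2⟩
      · exfalso
        obtain ⟨M', hM'⟩ := hp.new_free h.1 (not_lt.1 hβp) hβ η
        obtain ⟨x, hx, hxA⟩ := Tower.exists_mem_ge q.t hβ (max M M')
        have h1 := hM x (le_trans (le_max_left _ _) hx) hxA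
        rw [hM' x (le_trans (le_max_right _ _) hx) hxA z hzqp.2] at h1
        exact absurd h1 (by simp)

/-- Extension of a condition by an extension of a restriction. -/
theorem Mem.exists_amal (hq : q.Mem N) (hp : p.Mem N) (hqC : q.I ⊆ C) (h : q ≤ p.res C) :
    ∃ s : PC Λ, s.Mem N ∧ s ≤ q ∧ s ≤ p ∧ s.res C = q ∧ s.t = q.t ∧ s.I = q.I ∪ p.I :=
  ⟨q.amal p C, hq.amal hp hqC h, amal_le_left hqC h, amal_le_right hqC h, amal_res hqC h, rfl, rfl⟩

omit [PartialOrder Λ] [WellFoundedLT Λ] in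
/-- The levels of the bits in a finite set are bounded. -/
theorem exists_level (B : Finset (Λ × ℕ)) : ∃ L, ∀ x, L ≤ x → ∀ ζ : Λ, (ζ, x) ∉ B := by
  refine ⟨B.sup Prod.snd + 1, fun x hx ζ h => ?_⟩
  have : x ≤ B.sup Prod.snd := Finset.le_sup (f := Prod.snd) h
  omega

theorem Mem.restr (hp : p.Mem N) {B : Finset (Λ × ℕ)} (hB : p.Closed B) {s : X Λ}
    (hs : s ∈ p.Z) : (p.restr B s).Mem N := by
  obtain ⟨L, hL⟩ := exists_level B
  have hle := restr_le hB hs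
  refine ⟨fun ζ => ?_, fun ζ β hβ => ?_, fun η hη => hp.legit η hη, fun η hη => ?_⟩
  · obtain ⟨M, hM⟩ := hp.r1 ζ
    refine ⟨max M L, fun x hx hxt z hz => ?_⟩
    rw [restr_H_of_not_mem p s (hL x (le_trans (le_max_right _ _) hx) ζ)]
    exact hM x (le_trans (le_max_left _ _) hx) hxt z (hle.2.2 hz)
  · obtain ⟨M, hM⟩ := hp.r2 ζ β hβ
    refine ⟨max M L, fun z hz => ?_⟩
    rcases hM z (hle.2.2 hz) with h | h
    · left
      intro x hx hxA
      rw [restr_H_of_not_mem p s (hL x (le_trans (le_max_right _ _) hx) ζ)]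
      exact h x (le_trans (le_max_left _ _) hx) hxA
    · right
      intro x hx hxA
      rw [restr_H_of_not_mem p s (hL x (le_trans (le_max_right _ _) hx) ζ)]
      exact h x (le_trans (le_max_left _ _) hx) hxA
  · intro β hβ m r hr hle' z hz hzr hd
    obtain ⟨M, hM⟩ := hd
    refine hp.r3 η hη β hβ m r hr (hle'.trans (res_mono hle _)) z (hle.2.2 hz) hzr
      ⟨max M L, fun x hx hxA => ?_⟩
    rw [← hM x (le_trans (le_max_left _ _) hx) hxA,
      restr_H_of_not_mem p s (hL x (le_trans (le_max_right _ _) hx) η)]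

theorem Mem.mix (hp : p.Mem N) {B : Finset (Λ × ℕ)} (hB : p.Closed B) {s : X Λ} (hs : s ∈ p.Z)
    (hr : r.Mem N) (hle : r ≤ p.restr B s) : (p.mix B s r).Mem N := by
  obtain ⟨L, hL⟩ := exists_level B
  have hZ := Z_mix_le hB hs hle
  have htr : r.t ≤ p.t := hle.1
  -- the lower set of bits at coordinates `≤ ζ`
  have hDlow : ∀ ζ : Λ, ∀ b ∈ {c : Λ × ℕ | c.1 ≤ ζ}, ∀ c, blt c b → c ∈ {c : Λ × ℕ | c.1 ≤ ζ} :=
    fun ζ b hb c hc => hc.le.trans hb
  -- the matching case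
  have hmatch : ∀ ζ : Λ, ∀ z ∈ (p.mix B s r).Z, (∀ b ∈ B, b.1 ≤ ζ → z b = s b) →
      ∃ w ∈ r.Z, (∀ b : Λ × ℕ, b.1 ≤ ζ → w b = z b) ∧
        ∀ x, L ≤ x → (p.mix B s r).H (ζ, x) z = r.H (ζ, x) w := by
    intro ζ z hz hm
    obtain ⟨w, hw, hwD⟩ := mix_match' hB hs hle (hDlow ζ) (z := z) (fun b _ v hv => hz b v hv)
      (fun b hb hbD => hm b hb hbD)
    refine ⟨w, hw, fun b hb => hwD b hb, fun x hx => ?_⟩
    rw [mix_H_of_match r (hL x hx ζ) fun c hc hcb => hm c hc hcb.le]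
    exact r.congr' fun c hc => (hwD c hc.le).symm
  -- the other case
  have hnot : ∀ ζ : Λ, ∀ z : X Λ, ¬ (∀ b ∈ B, b.1 ≤ ζ → z b = s b) →
      ∀ x, L ≤ x → (p.mix B s r).H (ζ, x) z = p.H (ζ, x) z := by
    intro ζ z hm x hx
    push Not at hm
    obtain ⟨b, hb, hb1, hb2⟩ := hm
    refine mix_H_of_not_match hB r ⟨b, hb, ?_, hb2⟩
    rcases lt_or_eq_of_le hb1 with h | h
    · exact Or.inl h
    · refine Or.inr ⟨h, ?_⟩
      by_contra hcon
      have h1 : L ≤ b.2 := hx.trans (not_lt.1 hcon)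
      exact hL b.2 h1 b.1 hb
  refine ⟨fun ζ => ?_, fun ζ β hβ => ?_, fun η hη => ?_, fun η hη => ?_⟩
  · obtain ⟨M, hM⟩ := hr.r1 ζ
    obtain ⟨M', hM'⟩ := hp.top_free htr ζ
    refine ⟨max L (max M M'), fun x hx hxt z hz => ?_⟩
    have hxL : L ≤ x := le_trans (le_max_left _ _) hx
    have hxM : M ≤ x := (le_max_left _ _).trans ((le_max_right _ _).trans hx)
    have hxM' : M' ≤ x := (le_max_right _ _).trans ((le_max_right _ _).trans hx)
    by_cases hm : ∀ b ∈ B, b.1 ≤ ζ → z b = s b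
    · obtain ⟨w, hw, -, hH⟩ := hmatch ζ z hz hm
      rw [hH x hxL]
      exact hM x hxM hxt w hw
    · rw [hnot ζ z hm x hxL]
      exact hM' x hxM' hxt z (hZ hz)
  · obtain ⟨M, hM⟩ := hr.r2 ζ β hβ
    have h2 : ∃ M', ∀ z ∈ p.Z, (∀ x, M' ≤ x → x ∈ r.t.A β → p.H (ζ, x) z = none) ∨
        (∀ x, M' ≤ x → x ∈ r.t.A β → p.H (ζ, x) z = some false) := by
      by_cases hβp : β < p.t.ht
      · obtain ⟨M', hM'⟩ := hp.r2 ζ β hβp
        refine ⟨M', fun z hz => ?_⟩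
        rw [show r.t.A β = p.t.A β from htr.2.2 β hβp]
        exact hM' z hz
      · obtain ⟨M', hM'⟩ := hp.new_free htr (not_lt.1 hβp) hβ ζ
        exact ⟨M', fun z hz => Or.inl fun x hx hxA => hM' x hx hxA z hz⟩
    obtain ⟨M', hM'⟩ := h2
    refine ⟨max L (max M M'), fun z hz => ?_⟩
    have hxL : ∀ x, max L (max M M') ≤ x → L ≤ x := fun x hx => le_trans (le_max_left _ _) hx
    have hxM : ∀ x, max L (max M M') ≤ x → M ≤ x := fun x hx =>
      (le_max_left _ _).trans ((le_max_right _ _).trans hx)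
    have hxM' : ∀ x, max L (max M M') ≤ x → M' ≤ x := fun x hx =>
      (le_max_right _ _).trans ((le_max_right _ _).trans hx)
    by_cases hm : ∀ b ∈ B, b.1 ≤ ζ → z b = s b
    · obtain ⟨w, hw, -, hH⟩ := hmatch ζ z hz hm
      rcases hM w hw with h | h
      · exact Or.inl fun x hx hxA => by rw [hH x (hxL x hx)]; exact h x (hxM x hx) hxA
      · exact Or.inr fun x hx hxA => by rw [hH x (hxL x hx)]; exact h x (hxM x hx) hxA
    · rcases hM' z (hZ hz) with h | h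
      · exact Or.inl fun x hx hxA => by
          rw [hnot ζ z hm x (hxL x hx)]; exact h x (hxM' x hx) hxA
      · exact Or.inr fun x hx hxA => by
          rw [hnot ζ z hm x (hxL x hx)]; exact h x (hxM' x hx) hxA
  · rcases hη with hη | hη
    · exact hr.legit η hη
    · exact hp.legit η hη
  · intro β hβ m u hu hule z hz hzu hd
    obtain ⟨hu1, huI⟩ := (mem_Pset N).1 hu.1
    obtain ⟨M, hM⟩ := hd
    by_cases hm : ∀ b ∈ B, b.1 ≤ η → z b = s b
    · obtain ⟨w, hw, hwz, hH⟩ := hmatch η z hz hm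
      have hηr : η ∈ r.I := by
        rcases hη with hη | hη
        · exact hη
        · exact hle.2.1 hη
      -- a closed set of bits of `u`
      classical
      obtain ⟨B', hB', hcl⟩ := u.exists_closed (B.filter (fun b => b.1 < η)) (by
        intro b hb
        obtain ⟨hb1, hb2⟩ := Finset.mem_filter.1 hb
        exact hule.2.1 ⟨Or.inr (hB.sub b hb1), hb2⟩)
      have hu' : u.restr B' z ∈ Pset N η := (mem_Pset N).2 ⟨hu1.restr hcl hzu, huI⟩
      have hwu : w ∈ (u.restr B' z).Z := by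
        refine (mem_Z_restr hcl hzu).2 ⟨(mem_Z_congr fun b hb => ?_).1 hzu, fun b hb => ?_⟩
        · exact (hwz b (huI hb).le).symm
        · exact hwz b (huI (hcl.sub b hb)).le
      have hule' : u.restr B' z ≤ r.res (LowerSet.Iio η) := by
        refine ⟨hule.1, fun i hi => hule.2.1 ⟨Or.inl hi.1, hi.2⟩, fun y hy => ?_⟩
        obtain ⟨hy1, hy2⟩ := (mem_Z_restr hcl hzu).1 hy
        obtain ⟨y', hy', hyy⟩ := mem_Z_res'.1 (hule.2.2 hy1)
        have hD : ∀ b ∈ {c : Λ × ℕ | c.1 < η}, ∀ c, blt c b → c ∈ {c : Λ × ℕ | c.1 < η} :=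
          fun b hb c hc => lt_of_le_of_lt hc.le hb
        obtain ⟨y'', hy'', hyD⟩ := mix_match' hB hs hle hD (z := y')
          (fun b _ v hv => hy' b v hv) (fun b hb hbD => by
            rw [hyy b hbD, hy2 b (hB' (Finset.mem_filter.2 ⟨hb, hbD⟩))]
            exact hm b hb (le_of_lt hbD))
        exact mem_Z_res'.2 ⟨y'', hy'', fun b hb => (hyD b hb).trans (hyy b hb)⟩
      obtain ⟨a, ha, h1, h2⟩ := hr.r3 η hηr β hβ m _ (F_mono hu hu' (restr_le hcl hzu)) hule' w hw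
        hwu ⟨max L M, fun x hx hxA => by
          rw [← hH x (le_trans (le_max_left _ _) hx)]
          exact hM x (le_trans (le_max_right _ _) hx) hxA⟩
      exact ⟨a, ha, h1, by rw [← hwz (η, a) le_rfl]; exact h2⟩
    · have hM2 : ∀ x, max L M ≤ x → x ∈ r.t.A β → p.H (η, x) z = some false := fun x hx hxA => by
        rw [← hnot η z hm x (le_trans (le_max_left _ _) hx)]
        exact hM x (le_trans (le_max_right _ _) hx) hxA
      have hηp : η ∈ p.I := by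
        obtain ⟨x, hx, hxA⟩ := Tower.exists_mem_ge r.t hβ (max L M)
        exact p.I_of_some (hM2 x hx hxA)
      by_cases hβp : β < p.t.ht
      · have hA : r.t.A β = p.t.A β := htr.2.2 β hβp
        obtain ⟨a, ha, h1, h2⟩ := hp.r3 η hηp β hβp m u hu
          (hule.trans (res_mono (mix_le hB hs hle) _)) z (hZ hz) hzu
          ⟨max L M, fun x hx hxA => hM2 x hx (hA.symm ▸ hxA)⟩
        exact ⟨a, hA.symm ▸ ha, h1, h2⟩
      · exfalso
        obtain ⟨M', hM'⟩ := hp.new_free htr (not_lt.1 hβp) hβ η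
        obtain ⟨x, hx, hxA⟩ := Tower.exists_mem_ge r.t hβ (max (max L M) M')
        have h1 := hM2 x (le_trans (le_max_left _ _) hx) hxA
        rw [hM' x (le_trans (le_max_right _ _) hx) hxA z (hZ hz)] at h1
        exact absurd h1 (by simp)

end PC

end Pool.Agent.helper60.SA
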