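import Mathlib
import Pool.Agent.helper60.SA.Cond

set_option autoImplicit false

/-!
# Deciding, and dealing with the sets `A β`
-/

namespace Pool.Agent.helper60.SA

namespace PC

variable {Λ : Type*} [PartialOrder Λ] [WellFoundedLT Λ] {N : Λ → W → ℕ → Set (PC Λ)}
  {p q r : PC Λ}

/-! ### Finite decision -/

omit [WellFoundedLT Λ] in
theorem Closed.of_eq {B : Finset (Λ × ℕ)} (hB : p.Closed B) (hI : p.I ⊆ q.I)
    (h : ∀ b ∈ B, q.H b = p.H b) : q.Closed B :=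
  ⟨fun b hb => hI (hB.sub b hb), fun b hb z z' hzz => by
    rw [h b hb]
    exact hB.dep b hb z z' hzz⟩

theorem Mem.decide (hp : p.Mem N) {B : Finset (Λ × ℕ)} (hB : p.Closed B) {D : Set (PC Λ)}
    (hopen : ∀ q ∈ D, ∀ r : PC Λ, r.Mem N → r ≤ q → r ∈ D)
    (hdense : ∀ q : PC Λ, q.Mem N → q ≤ p → ∃ r ≤ q, r.Mem N ∧ r ∈ D) :
    ∃ q : PC Λ, q.Mem N ∧ q ≤ p ∧ (∀ b ∈ B, q.H b = p.H b) ∧ ∀ z ∈ q.Z, q.restr B z ∈ D := by
  classical
  have key : ∀ L : Finset (B → Bool), ∃ q : PC Λ, q.Mem N ∧ q ≤ p ∧ (∀ b ∈ B, q.H b = p.H b) ∧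
      ∀ z ∈ q.Z, (fun b : B => z b) ∈ L → q.restr B z ∈ D := by
    intro L
    induction L using Finset.induction_on with
    | empty => exact ⟨p, hp, le_rfl, fun _ _ => rfl, fun z _ hz => absurd hz (by simp)⟩
    | insert s L _ ih =>
      obtain ⟨q, hq, hqp, hqB, hqD⟩ := ih
      have hBq : q.Closed B := hB.of_eq hqp.2.1 hqB
      by_cases hs : ∃ z ∈ q.Z, (fun b : B => z b) = s
      · obtain ⟨z₀, hz₀, hzs⟩ := hs
        obtain ⟨r, hr, hrm, hrD⟩ := hdense _ (hq.restr hBq hz₀) ((restr_le hBq hz₀).trans hqp)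
        refine ⟨q.mix B z₀ r, hq.mix hBq hz₀ hrm hr, (mix_le hBq hz₀ hr).trans hqp,
          fun b hb => ?_, fun z hz hzL => ?_⟩
        · rw [← hqB b hb]
          exact funext fun z => mix_H_of_mem q z₀ r hb z
        · have hm := hq.mix hBq hz₀ hrm hr
          have hcl : (q.mix B z₀ r).Closed B := mix_closed hBq
          by_cases hzz : (fun b : B => z b) = s
          · refine hopen r hrD _ (hm.restr hcl hz) (mix_restr_le hBq hz₀ hr hz fun b hb => ?_)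
            have := congrFun (hzz.trans hzs.symm) ⟨b, hb⟩
            exact this
          · have h1 := (Finset.mem_insert.1 hzL).resolve_left hzz
            refine hopen _ (hqD z (Z_mix_le hBq hz₀ hr hz) h1) _ (hm.restr hcl hz) ?_
            exact restr_mono hcl hBq hz (mix_le hBq hz₀ hr) subset_rfl
      · refine ⟨q, hq, hqp, hqB, fun z hz hzL => ?_⟩
        rcases Finset.mem_insert.1 hzL with h | h
        · exact absurd ⟨z, hz, h⟩ hs
        · exact hqD z hz h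
  obtain ⟨q, h1, h2, h3, h4⟩ := key Finset.univ
  exact ⟨q, h1, h2, h3, fun z hz => h4 z hz (Finset.mem_univ _)⟩

omit [WellFoundedLT Λ] in
/-- A bound for a number depending on the values of finitely many bits. -/
theorem exists_bound (q : PC Λ) (B : Finset (Λ × ℕ)) (Q : X Λ → ℕ → Prop)
    (hcongr : ∀ z z' : X Λ, (∀ b ∈ B, z b = z' b) → ∀ n, Q z n → Q z' n)
    (h : ∀ z ∈ q.Z, ∃ n, Q z n) : ∃ K, ∀ z ∈ q.Z, ∃ n ≤ K, Q z n := by
  classical
  have h1 : ∀ s : B → Bool, ∃ n, ∀ z ∈ q.Z, (fun b : B => z b) = s → Q z n := by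
    intro s
    by_cases hs : ∃ z ∈ q.Z, (fun b : B => z b) = s
    · obtain ⟨z, hz, hzs⟩ := hs
      obtain ⟨n, hn⟩ := h z hz
      refine ⟨n, fun z' _ hz' => hcongr z z' (fun b hb => ?_) n hn⟩
      exact congrFun (hzs.trans hz'.symm) ⟨b, hb⟩
    · exact ⟨0, fun z hz hzs => absurd ⟨z, hz, hzs⟩ hs⟩
  choose f hf using h1
  exact ⟨Finset.univ.sup f, fun z hz => ⟨f _, Finset.le_sup (f := f) (Finset.mem_univ _),
    hf _ z hz rfl⟩⟩

/-! ### Extending the tower -/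

/-- The condition with empty support. -/
def triv (Λ : Type*) [PartialOrder Λ] (t : Tower) : PC Λ where
  t := t
  I := ∅
  cnt := Set.countable_empty
  H _ _ := none
  off _ _ _ := rfl
  dep _ := ⟨∅, by simp, fun _ _ _ => rfl⟩

theorem triv_mem (t : Tower) : (triv Λ t).Mem N :=
  ⟨fun _ => ⟨0, fun _ _ _ _ _ => rfl⟩, fun _ _ _ => ⟨0, fun _ _ => Or.inl fun _ _ _ => rfl⟩,
    fun _ h => absurd h (Set.notMem_empty _), fun _ h => absurd h (Set.notMem_empty _)⟩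

theorem Mem.exists_t (hp : p.Mem N) {t : Tower} (ht : t ≤ p.t) :
    ∃ q : PC Λ, q.Mem N ∧ q ≤ p ∧ q.t = t ∧ q.I = p.I := by
  have h : triv Λ t ≤ p.res ⊥ :=
    ⟨ht, fun i hi => absurd hi.2 (LowerSet.notMem_bot), fun z _ =>
      mem_Z_res.2 fun b hb => absurd hb (LowerSet.notMem_bot)⟩
  obtain ⟨s, h1, -, h3, -, h5, h6⟩ := (triv_mem t).exists_amal hp (Set.empty_subset _) h
  exact ⟨s, h1, h3, h5, by rw [h6]; exact Set.empty_union _⟩

theorem Mem.exists_ht (hp : p.Mem N) (γ : W) : ∃ q : PC Λ, q.Mem N ∧ q ≤ p ∧ γ < q.t.ht := by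
  obtain ⟨t, ht, h⟩ := Tower.exists_ge γ p.t
  obtain ⟨q, h1, h2, h3, -⟩ := hp.exists_t ht
  exact ⟨q, h1, h2, by rw [h3]; exact h⟩

/-! ### Filling -/

/-- `A β` is dealt with at the coordinate `ζ`, for all assignments. -/
def AllDone (p : PC Λ) (ζ : Λ) (β : W) : Prop :=
  β < p.t.ht ∧ ∃ M, ∀ x, M ≤ x → x ∈ p.t.A β → ∀ z ∈ p.Z, p.H (ζ, x) z = some false

theorem AllDone.mono {ζ : Λ} {β : W} (h : p.AllDone ζ β) (hq : q ≤ p) : q.AllDone ζ β := by
  obtain ⟨h1, M, hM⟩ := h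
  refine ⟨h1.trans_le hq.1.1, M, fun x hx hxA z hz => ?_⟩
  rw [hq.1.2.2 β h1] at hxA
  exact H_of_le hq.2.2 hz (hM x hx hxA z (hq.2.2 hz))

omit [WellFoundedLT Λ] in
theorem AllDone.done {ζ : Λ} {β : W} (h : p.AllDone ζ β) {z : X Λ} (hz : z ∈ p.Z) :
    p.Done ζ β z := by
  obtain ⟨-, M, hM⟩ := h
  exact ⟨M, fun x hx hxA => hM x hx hxA z hz⟩

open Classical in
/-- Deal with `A β` at `ζ`, with the witness `a`. -/
noncomputable def fill (p : PC Λ) (ζ : Λ) (β : W) (M a : ℕ) : PC Λ where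
  t := p.t
  I := insert ζ p.I
  cnt := p.cnt.insert ζ
  H b z := if b.1 = ζ ∧ M ≤ b.2 ∧ b.2 ∈ p.t.A β ∧ p.H b z = none then some (decide (b.2 = a))
    else p.H b z
  off b hb z := by
    rw [if_neg fun h => hb (Or.inl h.1)]
    exact p.off b (fun h => hb (Or.inr h)) z
  dep b := by
    obtain ⟨F, h1, h2⟩ := p.dep b
    refine ⟨F, fun c hc => ⟨(h1 c hc).1, Or.inr (h1 c hc).2⟩, fun z z' hzz => ?_⟩
    rw [h2 z z' hzz]

omit [WellFoundedLT Λ] in
open Classical in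
theorem fill_H (p : PC Λ) (ζ : Λ) (β : W) (M a : ℕ) (b : Λ × ℕ) (z : X Λ) :
    (p.fill ζ β M a).H b z = if b.1 = ζ ∧ M ≤ b.2 ∧ b.2 ∈ p.t.A β ∧ p.H b z = none then
      some (decide (b.2 = a)) else p.H b z := rfl

omit [WellFoundedLT Λ] in
theorem fill_H_of_some {ζ : Λ} {β : W} {M a : ℕ} {b : Λ × ℕ} {z : X Λ} {v : Bool}
    (h : p.H b z = some v) : (p.fill ζ β M a).H b z = some v := by
  rw [fill_H, if_neg, h]
  rintro ⟨-, -, -, h'⟩
  rw [h] at h'
  exact absurd h' (by simp)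

omit [WellFoundedLT Λ] in
theorem fill_H_of_ne {ζ : Λ} {β : W} {M a : ℕ} {b : Λ × ℕ} {z : X Λ}
    (h : b.1 = ζ → b.2 ∉ p.t.A β) : (p.fill ζ β M a).H b z = p.H b z := by
  rw [fill_H, if_neg]
  rintro ⟨h1, -, h3, -⟩
  exact h h1 h3

omit [WellFoundedLT Λ] in
theorem fill_le (p : PC Λ) (ζ : Λ) (β : W) (M a : ℕ) : p.fill ζ β M a ≤ p :=
  ⟨le_rfl, Set.subset_insert _ _, fun _ hz b v hv => hz b v (fill_H_of_some hv)⟩

omit [WellFoundedLT Λ] in
theorem fill_res (p : PC Λ) (ζ : Λ) (β : W) (M a : ℕ) :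
    (p.fill ζ β M a).res (LowerSet.Iio ζ) = p.res (LowerSet.Iio ζ) := by
  refine PC.ext' rfl ?_ (funext fun b => funext fun z => ?_)
  · rw [res_I, res_I]
    change insert ζ p.I ∩ Set.Iio ζ = p.I ∩ Set.Iio ζ
    rw [Set.insert_inter_of_notMem (by simp)]
  · rw [res_H, res_H]
    split_ifs with h
    · refine fill_H_of_ne fun h' => ?_
      have : b.1 < ζ := h
      exact absurd (h' ▸ this) (lt_irrefl _)
    · rfl

theorem Mem.fill (hp : p.Mem N) {ζ : Λ} (hζ : Legit (Pset N ζ) (N ζ)) {β : W}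
    (hβ : β < p.t.ht) {m : ℕ} (hres : p.res (LowerSet.Iio ζ) ∈ F (Pset N ζ) (N ζ) β m)
    {M a : ℕ} (hmM : m ≤ M) (hM : ∀ z ∈ p.Z,
      (∀ x, M ≤ x → x ∈ p.t.A β → p.H (ζ, x) z = none) ∨
      (∀ x, M ≤ x → x ∈ p.t.A β → p.H (ζ, x) z = some false)) (hMa : M ≤ a)
    (ha : a ∈ p.t.A β) : (p.fill ζ β M a).Mem N := by
  have hle := fill_le p ζ β M a
  have hne : ∀ β' < p.t.ht, β' ≠ β → ∃ K, ∀ x, K ≤ x → x ∈ p.t.A β' → x ∉ p.t.A β := by
    intro β' hβ' hne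
    obtain ⟨K, hK⟩ := (p.t.A_ne hne hβ' hβ).bddAbove
    refine ⟨K + 1, fun x hx h1 h2 => ?_⟩
    have := hK ⟨h1, h2⟩
    omega
  -- outside the exceptional case, being done is inherited
  have hdone : ∀ η, ∀ β' < p.t.ht, (η ≠ ζ ∨ β' ≠ β) → ∀ z, (p.fill ζ β M a).Done η β' z →
      p.Done η β' z ∧ η ∈ p.I := by
    intro η β' hβ' hor z ⟨K, hK⟩
    have h1 : ∃ K', ∀ x, K' ≤ x → x ∈ p.t.A β' → p.H (η, x) z = some false := by
      rcases hor with h | h
      · refine ⟨K, fun x hx hxA => ?_⟩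
        rw [← hK x hx hxA]
        exact (fill_H_of_ne fun h' => absurd h' h).symm
      · obtain ⟨K', hK'⟩ := hne β' hβ' h
        refine ⟨max K K', fun x hx hxA => ?_⟩
        rw [← hK x (le_trans (le_max_left _ _) hx) hxA]
        exact (fill_H_of_ne fun _ => hK' x (le_trans (le_max_right _ _) hx) hxA).symm
    obtain ⟨K', hK'⟩ := h1
    obtain ⟨x, hx, hxA⟩ := Tower.exists_mem_ge p.t hβ' K'
    exact ⟨⟨K', hK'⟩, p.I_of_some (hK' x hx hxA)⟩
  refine ⟨fun η => ?_, fun η β' hβ' => ?_, fun η hη => ?_, fun η hη => ?_⟩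
  · obtain ⟨K, hK⟩ := hp.r1 η
    obtain ⟨K', hK'⟩ := (p.t.A_top hβ).bddAbove
    refine ⟨max K (K' + 1), fun x hx hxt z hz => ?_⟩
    rw [fill_H_of_ne fun _ hxA => ?_]
    · exact hK x (le_trans (le_max_left _ _) hx) hxt z (hle.2.2 hz)
    · have h1 := hK' ⟨hxA, hxt⟩
      have h2 := le_trans (le_max_right K (K' + 1)) hx
      have h3 : ((η, x) : Λ × ℕ).2 = x := rfl
      rw [h3] at h1
      omega
  · have hβ'' : β' < p.t.ht := hβ'
    by_cases hor : η ≠ ζ ∨ β' ≠ β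
    · obtain ⟨K, hK⟩ := hp.r2 η β' hβ'
      have h1 : ∃ K', ∀ x, K' ≤ x → x ∈ p.t.A β' → ∀ z,
          (p.fill ζ β M a).H (η, x) z = p.H (η, x) z := by
        rcases hor with h | h
        · exact ⟨0, fun x _ _ z => fill_H_of_ne fun h' => absurd h' h⟩
        · obtain ⟨K', hK'⟩ := hne β' hβ'' h
          exact ⟨K', fun x hx hxA z => fill_H_of_ne fun _ => hK' x hx hxA⟩
      obtain ⟨K', hK'⟩ := h1
      refine ⟨max K K', fun z hz => ?_⟩
      rcases hK z (hle.2.2 hz) with h | h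
      · exact Or.inl fun x hx hxA => by
          rw [hK' x (le_trans (le_max_right _ _) hx) hxA]
          exact h x (le_trans (le_max_left _ _) hx) hxA
      · exact Or.inr fun x hx hxA => by
          rw [hK' x (le_trans (le_max_right _ _) hx) hxA]
          exact h x (le_trans (le_max_left _ _) hx) hxA
    · push Not at hor
      obtain ⟨rfl, rfl⟩ := hor
      refine ⟨a + 1, fun z hz => Or.inr fun x hx hxA => ?_⟩
      rcases hM z (hle.2.2 hz) with h | h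
      · rw [fill_H, if_pos ⟨rfl, by change M ≤ x; omega, hxA, h x (by omega) hxA⟩]
        congr 1
        exact decide_eq_false (by change x ≠ a; omega)
      · exact fill_H_of_some (h x (by omega) hxA)
  · rcases hη with rfl | hη
    · exact hζ
    · exact hp.legit η hη
  · intro β' hβ' m' u hu hule z hz hzu hd
    have hβ'' : β' < p.t.ht := hβ'
    have hzp := hle.2.2 hz
    by_cases hor : η ≠ ζ ∨ β' ≠ β
    · obtain ⟨h1, h2⟩ := hdone η β' hβ'' hor z hd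
      exact hp.r3 η h2 β' hβ' m' u hu (hule.trans (res_mono hle _)) z hzp hzu h1
    · push Not at hor
      obtain ⟨rfl, rfl⟩ := hor
      rw [fill_res] at hule
      have hmm : m' = m := hζ.func _ _ _ u hu (F_mono hres hu.1 hule)
      subst hmm
      rcases hM z hzp with h | h
      · refine ⟨a, ha, hmM.trans hMa, ?_⟩
        refine hz (η, a) true ?_
        rw [fill_H, if_pos ⟨rfl, hMa, ha, h a hMa ha⟩]
        congr 1
        exact decide_eq_true rfl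
      · have hηp : η ∈ p.I := p.I_of_some (h a hMa ha)
        exact hp.r3 η hηp β' hβ'' m' u hu hule z hzp hzu ⟨M, h⟩

/-- `A β` can be dealt with at the coordinate `ζ`. -/
theorem Mem.exists_done (hp : p.Mem N) {ζ : Λ} (hζ : Legit (Pset N ζ) (N ζ)) {β : W}
    (hβ : β < p.t.ht) : ∃ q : PC Λ, q.Mem N ∧ q ≤ p ∧ ζ ∈ q.I ∧ q.AllDone ζ β ∧
      ∃ m, q.res (LowerSet.Iio ζ) ∈ F (Pset N ζ) (N ζ) β m := by
  obtain ⟨r, hr, m, hrm⟩ := hζ.dense β _ (hp.res_Pset ζ)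
  obtain ⟨hr1, hrI⟩ := (mem_Pset N).1 hrm.1
  obtain ⟨p', h1, -, h3, h4, h5, -⟩ := hr1.exists_amal hp (C := LowerSet.Iio ζ) hrI hr
  have hβ' : β < p'.t.ht := by rw [h5]; exact hβ.trans_le hr.1.1
  obtain ⟨M, hM⟩ := h1.r2 ζ β hβ'
  obtain ⟨a, ha, haA⟩ := Tower.exists_mem_ge p'.t hβ' (max m M)
  have hM' : ∀ z ∈ p'.Z,
      (∀ x, max m M ≤ x → x ∈ p'.t.A β → p'.H (ζ, x) z = none) ∨
      (∀ x, max m M ≤ x → x ∈ p'.t.A β → p'.H (ζ, x) z = some false) := fun z hz => by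
    rcases hM z hz with h | h
    · exact Or.inl fun x hx => h x (le_trans (le_max_right _ _) hx)
    · exact Or.inr fun x hx => h x (le_trans (le_max_right _ _) hx)
  have hres : p'.res (LowerSet.Iio ζ) ∈ F (Pset N ζ) (N ζ) β m := by rw [h4]; exact hrm
  refine ⟨p'.fill ζ β (max m M) a, h1.fill hζ hβ' hres (le_max_left _ _) hM' ha haA,
    (fill_le _ _ _ _ _).trans h3, Or.inl rfl, ⟨hβ', a + 1, fun x hx hxA z hz => ?_⟩, m, ?_⟩
  · rcases hM' z ((fill_le p' ζ β (max m M) a).2.2 hz) with h | h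
    · rw [fill_H, if_pos ⟨rfl, by change max m M ≤ x; omega, hxA, h x (by omega) hxA⟩]
      congr 1
      exact decide_eq_false (by change x ≠ a; omega)
    · exact fill_H_of_some (h x (by omega) hxA)
  · rw [fill_res, h4]
    exact hrm

end PC

end Pool.Agent.helper60.SA
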