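import Mathlib
import Pool.Agent.helper60.SA.Fill

set_option autoImplicit false

/-!
# Fusion
-/

namespace Pool.Agent.helper60.SA

namespace PC

variable {Λ : Type*} [PartialOrder Λ] [WellFoundedLT Λ] {N : Λ → W → ℕ → Set (PC Λ)}
  {p q r : PC Λ}

/-- Finitely many pairs can be dealt with. -/
theorem Mem.exists_done_finset (hp : p.Mem N) (L : Finset (Λ × W))
    (hL : ∀ x ∈ L, x.1 ∈ p.I ∧ x.2 < p.t.ht) :
    ∃ q : PC Λ, q.Mem N ∧ q ≤ p ∧ ∀ x ∈ L, q.AllDone x.1 x.2 := by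
  classical
  induction L using Finset.induction_on with
  | empty => exact ⟨p, hp, le_rfl, by simp⟩
  | insert x L _ ih =>
    obtain ⟨q, hq, hqp, hqL⟩ := ih fun y hy => hL y (Finset.mem_insert_of_mem hy)
    obtain ⟨h1, h2⟩ := hL x (Finset.mem_insert_self _ _)
    obtain ⟨r, hr, hrq, -, h3, -⟩ := hq.exists_done (ζ := x.1) (β := x.2) (hp.legit _ h1)
      (h2.trans_le hqp.1.1)
    refine ⟨r, hr, hrq.trans hqp, fun y hy => ?_⟩
    rcases Finset.mem_insert.1 hy with rfl | hy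
    · exact h3
    · exact (hqL y hy).mono hrq

/-- Being dealt with can be checked on the pieces of a finite partition. -/
theorem AllDone.of_restr {B : Finset (Λ × ℕ)} (hB : q.Closed B) {ζ : Λ} {β : W}
    (h : ∀ z ∈ q.Z, (q.restr B z).AllDone ζ β) : q.AllDone ζ β := by
  obtain ⟨L, hL⟩ := exists_level B
  obtain ⟨K, hK⟩ := q.exists_bound B (fun z n => ∀ x, n ≤ x → x ∈ q.t.A β →
      ∀ w ∈ (q.restr B z).Z, (q.restr B z).H (ζ, x) w = some false)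
    (fun z z' hzz n hn => by rw [← restr_congr (s := z) (s' := z') hzz]; exact hn)
    (fun z hz => by
      obtain ⟨-, M, hM⟩ := h z hz
      exact ⟨M, hM⟩)
  obtain ⟨z₀, hz₀⟩ := q.Z_nonempty
  refine ⟨(h z₀ hz₀).1, max K L, fun x hx hxA z hz => ?_⟩
  obtain ⟨n, hn, h1⟩ := hK z hz
  have h2 := h1 x (hn.trans ((le_max_left _ _).trans hx)) hxA z (self_mem_restr hB hz)
  rwa [restr_H_of_not_mem q z (hL x (le_trans (le_max_right _ _) hx) ζ)] at h2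

/-- A schedule for a countable set. -/
theorem exists_schedule {α : Type*} (S : Set α) (hS : S.Countable) :
    ∃ w : ℕ → Finset α, (∀ n, ∀ x ∈ w n, x ∈ S) ∧ ∀ x ∈ S, ∃ n₀, ∀ n, n₀ ≤ n → x ∈ w n := by
  classical
  by_cases hne : S.Nonempty
  · obtain ⟨f, rfl⟩ := hS.exists_eq_range hne
    refine ⟨fun n => (Finset.range (n + 1)).image f, fun n x hx => ?_, ?_⟩
    · obtain ⟨i, -, rfl⟩ := Finset.mem_image.1 hx
      exact ⟨i, rfl⟩
    · rintro _ ⟨i, rfl⟩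
      exact ⟨i, fun n hn => Finset.mem_image.2 ⟨i, Finset.mem_range.2 (by omega), rfl⟩⟩
  · exact ⟨fun _ => ∅, by simp, fun x hx => absurd ⟨x, hx⟩ hne⟩

/-- The states of the fusion construction. -/
structure FS (N : Λ → W → ℕ → Set (PC Λ)) where
  /-- the condition -/
  p : PC Λ
  mem : p.Mem N
  /-- the frozen bits -/
  B : Finset (Λ × ℕ)
  cl : p.Closed B
  /-- schedule for the coordinates -/
  w : ℕ → Finset Λ
  w_mem : ∀ n, ∀ ζ ∈ w n, ζ ∈ p.I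
  w_all : ∀ ζ ∈ p.I, ∃ n₀, ∀ n, n₀ ≤ n → ζ ∈ w n
  /-- schedule for the ordinals -/
  v : ℕ → Finset W
  v_mem : ∀ n, ∀ β ∈ v n, β < p.t.ht
  v_all : ∀ β < p.t.ht, ∃ n₀, ∀ n, n₀ ≤ n → β ∈ v n
  /-- the allowed numbers -/
  T : Set ℕ
  T_fin : (p.t.top \ T).Finite

/-- A step of the fusion construction. -/
structure FStep (D : ℕ → ℕ → Set (PC Λ)) (n lo : ℕ) (s s' : FS N) (a : ℕ) : Prop where
  le : s'.p ≤ s.p
  ht : s.p.t.ht < s'.p.t.ht
  H : ∀ b ∈ s.B, s'.p.H b = s.p.H b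
  B : s.B ⊆ s'.B
  D : ∀ z ∈ s'.p.Z, ∃ k ≤ a, s'.p.restr s.B z ∈ D n k
  done : ∀ ζ ∈ s.w n, ∀ β ∈ s.v n, s'.p.AllDone ζ β
  free : ∀ ζ ∈ s.w n, ∀ z ∈ s'.p.Z, s'.p.H (ζ, a) z = none
  free_mem : ∀ ζ ∈ s.w n, (ζ, a) ∈ s'.B
  bits : ∀ ζ ∈ s.w n, ∀ x, x ≤ n → (ζ, x) ∈ s'.B
  w : ∀ n, s.w n ⊆ s'.w n
  v : ∀ n, s.v n ⊆ s'.v n
  T : s'.T ⊆ s.T
  T_top : s'.T ⊆ s'.p.t.top
  a_mem : a ∈ s'.T
  lo : lo < a

theorem exists_step (D : ℕ → ℕ → Set (PC Λ))
    (hopen : ∀ n k, ∀ q ∈ D n k, ∀ r : PC Λ, r.Mem N → r ≤ q → r ∈ D n k)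
    {p₀ : PC Λ} (hdense : ∀ n, ∀ q : PC Λ, q.Mem N → q ≤ p₀ → ∃ r ≤ q, r.Mem N ∧ ∃ k, r ∈ D n k)
    (n lo : ℕ) (s : FS N) (hs : s.p ≤ p₀) : ∃ (s' : FS N) (a : ℕ), FStep D n lo s s' a := by
  classical
  obtain ⟨q, hq, hqp, hqB, hqD⟩ := s.mem.decide s.cl
    (D := {r | (∃ k, r ∈ D n k) ∧ s.p.t.ht < r.t.ht ∧
      ∀ x ∈ (s.w n) ×ˢ (s.v n), r.AllDone x.1 x.2})
    (by
      rintro q ⟨⟨k, h1⟩, h2, h3⟩ r hr hle
      exact ⟨⟨k, hopen n k q h1 r hr hle⟩, h2.trans_le hle.1.1, fun x hx => (h3 x hx).mono hle⟩)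
    (by
      intro q hq hqp
      obtain ⟨q1, hq1, hle1, h1⟩ := hq.exists_ht s.p.t.ht
      obtain ⟨q2, hq2, hle2, h2⟩ := hq1.exists_done_finset ((s.w n) ×ˢ (s.v n)) (by
        intro x hx
        obtain ⟨hx1, hx2⟩ := Finset.mem_product.1 hx
        exact ⟨(hle1.trans hqp).2.1 (s.w_mem n _ hx1), (s.v_mem n _ hx2).trans h1⟩)
      obtain ⟨r, hr, hrm, k, hk⟩ := hdense n q2 hq2 (((hle2.trans hle1).trans hqp).trans hs)
      exact ⟨r, hr.trans (hle2.trans hle1), hrm, ⟨k, hk⟩, h1.trans_le (hr.trans hle2).1.1,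
        fun x hx => (h2 x hx).mono hr⟩)
  have hclq : q.Closed s.B := s.cl.of_eq hqp.2.1 hqB
  obtain ⟨K, hK⟩ := q.exists_bound s.B (fun z k => q.restr s.B z ∈ D n k)
    (fun z z' hzz k hk => by rw [← restr_congr (s := z) (s' := z') hzz]; exact hk)
    (fun z hz => (hqD z hz).1)
  have hht : s.p.t.ht < q.t.ht := by
    obtain ⟨z₀, hz₀⟩ := q.Z_nonempty
    exact (hqD z₀ hz₀).2.1
  have hdone : ∀ ζ ∈ s.w n, ∀ β ∈ s.v n, q.AllDone ζ β := fun ζ hζ β hβ =>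
    AllDone.of_restr hclq fun z hz => (hqD z hz).2.2 (ζ, β) (Finset.mk_mem_product hζ hβ)
  -- the bound for the free levels
  choose Mf hMf using hq.r1
  -- the number `a`
  let T' : Set ℕ := s.T ∩ q.t.top
  have hT' : (q.t.top \ T').Finite := by
    refine ((Tower.top_diff hqp.1).union s.T_fin).subset ?_
    rintro x ⟨hx1, hx2⟩
    by_cases hx : x ∈ s.p.t.top
    · exact Or.inr ⟨hx, fun h => hx2 ⟨h, hx1⟩⟩
    · exact Or.inl ⟨hx1, hx⟩
  have hT'inf : T'.Infinite := by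
    have h1 : (q.t.top ∩ T').Infinite := by
      have := (q.t.inf _ le_rfl).sdiff hT'
      refine this.mono ?_
      rintro x ⟨hx1, hx2⟩
      refine ⟨hx1, ?_⟩
      by_contra hcon
      exact hx2 ⟨hx1, hcon⟩
    exact h1.mono Set.inter_subset_right
  obtain ⟨a, haT, ha⟩ := hT'inf.exists_gt (max (max lo K) ((s.w n).sup Mf))
  have ha1 : lo < a := lt_of_le_of_lt ((le_max_left _ _).trans (le_max_left _ _)) ha
  have ha2 : K ≤ a := (lt_of_le_of_lt ((le_max_right _ _).trans (le_max_left _ _)) ha).le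
  have ha3 : ∀ ζ ∈ s.w n, Mf ζ ≤ a := fun ζ hζ =>
    (Finset.le_sup (f := Mf) hζ).trans ((le_max_right _ _).trans ha.le)
  -- the frozen bits
  obtain ⟨B', hB', hcl'⟩ := q.exists_closed
    (s.B ∪ (s.w n) ×ˢ (Finset.range (n + 1)) ∪ (s.w n) ×ˢ {a}) (by
      intro b hb
      rcases Finset.mem_union.1 hb with hb | hb
      · rcases Finset.mem_union.1 hb with hb | hb
        · exact hclq.sub b hb
        · exact hqp.2.1 (s.w_mem n _ (Finset.mem_product.1 hb).1)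
      · exact hqp.2.1 (s.w_mem n _ (Finset.mem_product.1 hb).1))
  -- the schedules
  obtain ⟨w', hw'1, hw'2⟩ := exists_schedule q.I q.cnt
  obtain ⟨v', hv'1, hv'2⟩ := exists_schedule (Set.Iio q.t.ht) (W.countable_Iio _)
  refine ⟨⟨q, hq, B', hcl', fun m => s.w m ∪ w' m, ?_, ?_, fun m => s.v m ∪ v' m, ?_, ?_, T', hT'⟩,
    a, ⟨hqp, hht, hqB, ?_, ?_, hdone, ?_, ?_, ?_, fun m => Finset.subset_union_left,
      fun m => Finset.subset_union_left, Set.inter_subset_left, Set.inter_subset_right, haT, ha1⟩⟩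
  · intro m ζ hζ
    rcases Finset.mem_union.1 hζ with hζ | hζ
    · exact hqp.2.1 (s.w_mem m ζ hζ)
    · exact hw'1 m ζ hζ
  · intro ζ hζ
    obtain ⟨n₀, hn₀⟩ := hw'2 ζ hζ
    exact ⟨n₀, fun m hm => Finset.mem_union_right _ (hn₀ m hm)⟩
  · intro m β hβ
    rcases Finset.mem_union.1 hβ with hβ | hβ
    · exact (s.v_mem m β hβ).trans hht
    · exact hv'1 m β hβ
  · intro β hβ
    obtain ⟨n₀, hn₀⟩ := hv'2 β hβ
    exact ⟨n₀, fun m hm => Finset.mem_union_right _ (hn₀ m hm)⟩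
  · exact (Finset.subset_union_left.trans Finset.subset_union_left).trans hB'
  · intro z hz
    obtain ⟨k, hk, h1⟩ := hK z hz
    exact ⟨k, hk.trans ha2, h1⟩
  · intro ζ hζ z hz
    exact hMf ζ a (ha3 ζ hζ) haT.2 z hz
  · intro ζ hζ
    exact hB' (Finset.mem_union_right _ (Finset.mk_mem_product hζ (Finset.mem_singleton_self a)))
  · intro ζ hζ x hx
    exact hB' (Finset.mem_union_left _ (Finset.mem_union_right _
      (Finset.mk_mem_product hζ (Finset.mem_range.2 (by omega)))))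

/-- The fusion theorem. -/
theorem Mem.fusion (hp : p.Mem N) (D : ℕ → ℕ → Set (PC Λ))
    (hopen : ∀ n k, ∀ q ∈ D n k, ∀ r : PC Λ, r.Mem N → r ≤ q → r ∈ D n k)
    (hdense : ∀ n, ∀ q : PC Λ, q.Mem N → q ≤ p → ∃ r ≤ q, r.Mem N ∧ ∃ k, r ∈ D n k) :
    ∃ q : PC Λ, q.Mem N ∧ q ≤ p ∧ p.t.ht < q.t.ht ∧
      ∃ (a : ℕ → ℕ) (B : ℕ → Finset (Λ × ℕ)), StrictMono a ∧ q.t.top = Set.range a ∧
        (∀ n, q.Closed (B n)) ∧ ∀ n, ∀ z ∈ q.Z, ∃ k ≤ a n, q.restr (B n) z ∈ D n k := by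
  classical
  -- the sequence
  obtain ⟨w₀, hw₀1, hw₀2⟩ := exists_schedule p.I p.cnt
  obtain ⟨v₀, hv₀1, hv₀2⟩ := exists_schedule (Set.Iio p.t.ht) (W.countable_Iio _)
  let s₀ : FS N := ⟨p, hp, ∅, ⟨by simp, by simp⟩, w₀, hw₀1, hw₀2, v₀, hv₀1, hv₀2, Set.univ,
    by simp⟩
  let S := {s : FS N // s.p ≤ p}
  have hstep : ∀ (n lo : ℕ) (s : S), ∃ (s' : S) (a : ℕ), FStep D n lo s.1 s'.1 a := by
    intro n lo s
    obtain ⟨s', a, h⟩ := exists_step D hopen hdense n lo s.1 s.2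
    exact ⟨⟨s', h.le.trans s.2⟩, a, h⟩
  choose f g hfg using hstep
  let σ : ℕ → S × ℕ := fun n => Nat.rec (⟨s₀, le_rfl⟩, 0)
    (fun n x => (f n x.2 x.1, g n x.2 x.1)) n
  let s : ℕ → FS N := fun n => (σ n).1.1
  let a : ℕ → ℕ := fun n => (σ (n + 1)).2
  have hst : ∀ n, FStep D n (σ n).2 (s n) (s (n + 1)) (a n) := fun n => hfg n (σ n).2 (σ n).1
  have hs0 : (s 0).p = p := rfl
  have hst1 : ∀ n, (s (n + 1)).p ≤ (s n).p := fun n => (hst n).le
  have hle : ∀ m n, m ≤ n → (s n).p ≤ (s m).p := by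
    intro m n hmn
    induction n, hmn using Nat.le_induction with
    | base => exact le_rfl
    | succ n _ ih => exact (hst1 n).trans ih
  have hBm : ∀ m n, m ≤ n → (s m).B ⊆ (s n).B := by
    intro m n hmn
    induction n, hmn using Nat.le_induction with
    | base => exact subset_rfl
    | succ n _ ih => exact ih.trans (hst n).B
  have hHm : ∀ m n, m ≤ n → ∀ b ∈ (s m).B, (s n).p.H b = (s m).p.H b := by
    intro m n hmn
    induction n, hmn using Nat.le_induction with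
    | base => exact fun _ _ => rfl
    | succ n hn ih =>
      intro b hb
      rw [(hst n).H b (hBm m n hn hb), ih b hb]
  have hwm : ∀ m n, m ≤ n → ∀ i, (s m).w i ⊆ (s n).w i := by
    intro m n hmn
    induction n, hmn using Nat.le_induction with
    | base => exact fun _ => subset_rfl
    | succ n _ ih => exact fun i => (ih i).trans ((hst n).w i)
  have hvm : ∀ m n, m ≤ n → ∀ i, (s m).v i ⊆ (s n).v i := by
    intro m n hmn
    induction n, hmn using Nat.le_induction with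
    | base => exact fun _ => subset_rfl
    | succ n _ ih => exact fun i => (ih i).trans ((hst n).v i)
  have hTm : ∀ m n, m ≤ n → (s n).T ⊆ (s m).T := by
    intro m n hmn
    induction n, hmn using Nat.le_induction with
    | base => exact subset_rfl
    | succ n _ ih => exact (hst n).T.trans ih
  have ha : StrictMono a := strictMono_nat_of_lt_succ fun n => (hst (n + 1)).lo
  have haT : ∀ m n, m ≤ n → a n ∈ (s (m + 1)).p.t.top := fun m n hmn =>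
    (hst m).T_top (hTm (m + 1) (n + 1) (by omega) (hst n).a_mem)
  -- the limit tower
  obtain ⟨t, ht1, ht2, ht3, ht4⟩ := Tower.exists_limit (fun n => (s (n + 1)).p.t)
    (fun n => (hst1 (n + 1)).1) (fun n => (hst (n + 1)).ht) a ha haT
  have ht1' : ∀ n, t ≤ (s n).p.t := fun n => (ht1 n).trans (hst1 n).1
  have hβ : ∀ β < t.ht, ∃ n₀, ∀ n, n₀ ≤ n → β ∈ (s n).v n := by
    intro β hβ
    obtain ⟨n, hn⟩ := ht4 β hβ
    obtain ⟨n₀, hn₀⟩ := (s (n + 1)).v_all β hn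
    exact ⟨max (n + 1) n₀, fun m hm => hvm (n + 1) m (le_trans (le_max_left _ _) hm) m
      (hn₀ m (le_trans (le_max_right _ _) hm))⟩
  have hζ : ∀ ζ, (∃ i, ζ ∈ (s i).p.I) → ∃ n₀, ∀ n, n₀ ≤ n → ζ ∈ (s n).w n := by
    rintro ζ ⟨i, hi⟩
    obtain ⟨n₀, hn₀⟩ := (s i).w_all ζ hi
    exact ⟨max i n₀, fun m hm => hwm i m (le_trans (le_max_left _ _) hm) m
      (hn₀ m (le_trans (le_max_right _ _) hm))⟩
  have hbit : ∀ b : Λ × ℕ, (∃ i, b.1 ∈ (s i).p.I) → ∃ n₀, ∀ n, n₀ ≤ n → b ∈ (s n).B := by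
    rintro ⟨ζ, x⟩ hi
    obtain ⟨n₀, hn₀⟩ := hζ ζ hi
    refine ⟨max n₀ x + 1, fun n hn => hBm (max n₀ x + 1) n hn ?_⟩
    exact (hst (max n₀ x)).bits ζ (hn₀ _ (le_max_left _ _)) x (le_max_right _ _)
  -- the limit condition
  let I : Set Λ := ⋃ n, (s n).p.I
  let H : Λ × ℕ → X Λ → Option Bool := fun b z =>
    if h : ∃ n, b ∈ (s n).B then (s (Nat.find h)).p.H b z else none
  have hH : ∀ n, ∀ b ∈ (s n).B, H b = (s n).p.H b := by
    intro n b hb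
    have h : ∃ n, b ∈ (s n).B := ⟨n, hb⟩
    have h1 : Nat.find h ≤ n := Nat.find_min' h hb
    have h2 : H b = (s (Nat.find h)).p.H b := by
      funext z
      exact dif_pos h
    rw [h2, hHm _ n h1 b (Nat.find_spec h)]
  let q : PC Λ :=
    { t := t
      I := I
      cnt := Set.countable_iUnion fun n => (s n).p.cnt
      H := H
      off := by
        intro b hb z
        refine dif_neg ?_
        rintro ⟨n, hn⟩
        exact hb (Set.mem_iUnion.2 ⟨n, (s n).cl.sub b hn⟩)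
      dep := by
        intro b
        by_cases h : ∃ n, b ∈ (s n).B
        · obtain ⟨n, hn⟩ := h
          obtain ⟨G, h1, h2⟩ := (s n).p.dep b
          refine ⟨G, fun c hc => ⟨(h1 c hc).1, Set.mem_iUnion.2 ⟨n, (h1 c hc).2⟩⟩, ?_⟩
          rw [hH n b hn]
          exact h2
        · exact ⟨∅, by simp, fun z z' _ => by
            change (dite _ _ _ : Option Bool) = dite _ _ _
            rw [dif_neg h, dif_neg h]⟩ }
  have hqH : ∀ n, ∀ b ∈ (s n).B, q.H b = (s n).p.H b := hH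
  have hqI : ∀ ζ, ζ ∈ q.I ↔ ∃ i, ζ ∈ (s i).p.I := fun ζ => Set.mem_iUnion
  have hZ : ∀ n, q.Z ⊆ (s n).p.Z := by
    intro n z hz b v hv
    obtain ⟨G, h1, h2⟩ := (s n).p.dep b
    have hbI : b.1 ∈ (s n).p.I := (s n).p.I_of_some hv
    have h3 : ∃ k, n ≤ k ∧ b ∈ (s k).B ∧ ∀ c ∈ G, c ∈ (s k).B := by
      obtain ⟨n₁, hn₁⟩ := hbit b ⟨n, hbI⟩
      choose! e he using fun c (hc : c ∈ G) => hbit c ⟨n, (h1 c hc).2⟩
      refine ⟨max n (max n₁ (G.sup e)), le_max_left _ _,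
        hn₁ _ ((le_max_left _ _).trans (le_max_right _ _)), fun c hc => he c hc _ ?_⟩
      exact (Finset.le_sup (f := e) hc).trans ((le_max_right _ _).trans (le_max_right _ _))
    obtain ⟨k, hk, hbk, hGk⟩ := h3
    obtain ⟨w, hw, hwD, -⟩ := (s k).p.exists_ext' (D := ((s k).B : Set (Λ × ℕ))) (z := z)
      (fun b hb z z' h => (s k).cl.dep b hb z z' h)
      (fun b hb v hv => hz b v (by rw [hqH k b hb]; exact hv))
    have h4 : w b = v := by
      refine (hle n k hk).2.2 hw b v ?_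
      rw [← hv]
      exact h2 _ _ fun c hc => hwD c (hGk c hc)
    rw [← hwD b hbk]
    exact h4
  have hqle : ∀ n, q ≤ (s n).p := fun n =>
    ⟨ht1' n, fun i hi => Set.mem_iUnion.2 ⟨n, hi⟩, hZ n⟩
  have hoff : ∀ ζ, ζ ∉ q.I → ∀ x z, q.H (ζ, x) z = none := fun ζ hζ x z => q.off (ζ, x) hζ z
  have hqdone : ∀ ζ ∈ q.I, ∀ β < q.t.ht, ∃ n, (s n).p.AllDone ζ β ∧ ζ ∈ (s n).p.I := by
    intro ζ hζI β hβt
    obtain ⟨n₁, hn₁⟩ := hζ ζ ((hqI ζ).1 hζI)
    obtain ⟨n₂, hn₂⟩ := hβ β hβt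
    refine ⟨max n₁ n₂ + 1, (hst (max n₁ n₂)).done ζ (hn₁ _ (le_max_left _ _)) β
      (hn₂ _ (le_max_right _ _)), ?_⟩
    exact (hst1 (max n₁ n₂)).2.1 ((s (max n₁ n₂)).w_mem _ ζ (hn₁ _ (le_max_left _ _)))
  have hqm : q.Mem N := by
    refine ⟨fun ζ => ?_, fun ζ β hβt => ?_, fun η hη => ?_, fun η hη => ?_⟩
    · by_cases hζI : ζ ∈ q.I
      · obtain ⟨n₀, hn₀⟩ := hζ ζ ((hqI ζ).1 hζI)
        refine ⟨a n₀, fun x hx hxt z hz => ?_⟩
        have hxt' : x ∈ t.top := hxt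
        rw [ht2] at hxt'
        obtain ⟨n, rfl⟩ := hxt'
        have hn : n₀ ≤ n := ha.le_iff_le.1 hx
        rw [hqH (n + 1) (ζ, a n) ((hst n).free_mem ζ (hn₀ n hn))]
        exact (hst n).free ζ (hn₀ n hn) z (hZ (n + 1) hz)
      · exact ⟨0, fun x _ _ z _ => hoff ζ hζI x z⟩
    · by_cases hζI : ζ ∈ q.I
      · obtain ⟨n, hn, -⟩ := hqdone ζ hζI β hβt
        obtain ⟨-, M, hM⟩ := hn.mono (hqle n)
        exact ⟨M, fun z hz => Or.inr fun x hx hxA => hM x hx hxA z hz⟩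
      · exact ⟨0, fun z _ => Or.inl fun x _ _ => hoff ζ hζI x z⟩
    · obtain ⟨i, hi⟩ := (hqI η).1 hη
      exact (s i).mem.legit η hi
    · intro β hβt m u hu hule z hz hzu _
      obtain ⟨n, hn, hηn⟩ := hqdone η hη β hβt
      obtain ⟨x, hx, h1, h2⟩ := (s n).mem.r3 η hηn β hn.1 m u hu
        (hule.trans (res_mono (hqle n) _)) z (hZ n hz) hzu (hn.done (hZ n hz))
      refine ⟨x, ?_, h1, h2⟩
      rw [(hqle n).1.2.2 β hn.1]
      exact hx
  have hcl : ∀ n, q.Closed (s n).B := fun n => (s n).cl.of_eq (hqle n).2.1 (hqH n)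
  refine ⟨q, hqm, hqle 0, ?_, a, fun n => (s n).B, ha, ht2, hcl, fun n z hz => ?_⟩
  · exact (hst 0).ht.trans_le (hqle 1).1.1
  · obtain ⟨k, hk, h1⟩ := (hst n).D z (hZ (n + 1) hz)
    refine ⟨k, hk, hopen n k _ h1 _ (hqm.restr (hcl n) hz) ?_⟩
    have hcl' : (s (n + 1)).p.Closed (s n).B := (s n).cl.of_eq (hst n).le.2.1 (hst n).H
    exact restr_mono (hcl n) hcl' hz (hqle (n + 1)) subset_rfl

/-- A piece of a condition is compatible with some extension of each extension. -/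
theorem Mem.exists_piece (hr : r.Mem N) (hrq : r ≤ q) {B : Finset (Λ × ℕ)} (hB : q.Closed B) :
    ∃ z ∈ q.Z, ∃ r' : PC Λ, r'.Mem N ∧ r' ≤ r ∧ r' ≤ q.restr B z := by
  obtain ⟨z, hz⟩ := r.Z_nonempty
  obtain ⟨B', hB', hcl⟩ := r.exists_closed B fun b hb => hrq.2.1 (hB.sub b hb)
  exact ⟨z, hrq.2.2 hz, r.restr B' z, hr.restr hcl hz, restr_le hcl hz,
    restr_mono hcl hB hz hrq hB'⟩

end PC

end Pool.Agent.helper60.SA
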