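import Mathlib
import Pool.Agent.helper60.SA.Fusion

set_option autoImplicit false

/-!
# Coordinates, and capturing names
-/

namespace Pool.Agent.helper60.SA

/-- The part of the code of a precondition which does not mention coordinates. -/
structure Data where
  /-- the tower -/
  t : Tower
  /-- the support -/
  A : Set ℕ
  /-- the constraints -/
  H : ℕ → ℕ → (ℕ × ℕ → Bool) → Option Bool

/-- Coordinates. Each coordinate is the code of a name of a function from `W` to `ℕ`: a set, indexed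
by `J`, of triples of an ordinal, a number, and a code of a precondition whose coordinates are
among the `c j n`. -/
inductive Coord : Type 1
  | mk (J : Type) (β : J → W) (m : J → ℕ) (d : J → Data) (c : J → ℕ → Coord) : Coord

namespace Coord

/-- Immediate subterms. -/
def Sub : Coord → Coord → Prop
  | η, .mk _ _ _ _ c => ∃ j n, η = c j n

theorem sub_wf : WellFounded Sub := by
  refine ⟨fun ζ => ?_⟩
  induction ζ with
  | mk J β m d c ih =>
    refine Acc.intro _ fun η hη => ?_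
    obtain ⟨j, n, rfl⟩ := hη
    exact ih j n

instance : IsStrictOrder Coord (Relation.TransGen Sub) where
  irrefl := fun a h => (sub_wf.transGen.irrefl).irrefl a h
  trans := fun _ _ _ h h' => Relation.TransGen.trans h h'

instance : PartialOrder Coord := partialOrderOfSO (Relation.TransGen Sub)

instance : WellFoundedLT Coord := ⟨sub_wf.transGen⟩

theorem lt_mk {J : Type} {β : J → W} {m : J → ℕ} {d : J → Data} {c : J → ℕ → Coord} {η : Coord} :
    η < .mk J β m d c ↔ ∃ j n, η ≤ c j n := by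
  constructor
  · intro h
    have h' : Relation.TransGen Sub η (.mk J β m d c) := h
    cases h' with
    | single h1 =>
      obtain ⟨j, n, rfl⟩ := h1
      exact ⟨j, n, le_rfl⟩
    | tail h1 h2 =>
      obtain ⟨j, n, rfl⟩ := h2
      exact ⟨j, n, le_of_lt h1⟩
  · rintro ⟨j, n, h⟩
    have h1 : c j n < .mk J β m d c := Relation.TransGen.single ⟨j, n, rfl⟩
    exact h.trans_lt h1

instance small_Iic (ζ : Coord) : Small.{0} (Set.Iic ζ) := by
  induction ζ with
  | mk J β m d c ih =>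
    have : (Set.Iic (Coord.mk J β m d c)) =
        {Coord.mk J β m d c} ∪ ⋃ j, ⋃ n, Set.Iic (c j n) := by
      ext η
      rw [Set.mem_Iic, le_iff_lt_or_eq, lt_mk]
      simp only [Set.mem_union, Set.mem_singleton_iff, Set.mem_iUnion, Set.mem_Iic]
      exact or_comm
    rw [this]
    infer_instance

end Coord

/-- `p` has the code `(d, c)`. -/
structure Codes (p : PC Coord) (d : Data) (c : ℕ → Coord) : Prop where
  t : p.t = d.t
  I : p.I = c '' d.A
  H : ∀ n x z, p.H (c n, x) z = d.H n x (fun b => z (c b.1, b.2))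

theorem Codes.eq {p q : PC Coord} {d : Data} {c : ℕ → Coord} (hp : Codes p d c)
    (hq : Codes q d c) : p = q := by
  refine PC.ext' (hp.t.trans hq.t.symm) (hp.I.trans hq.I.symm) (funext fun b => funext fun z => ?_)
  by_cases h : b.1 ∈ Set.range c
  · obtain ⟨n, hn⟩ := h
    have : b = (c n, b.2) := Prod.ext hn.symm rfl
    rw [this, hp.H, hq.H]
  · have h1 : b.1 ∉ c '' d.A := fun h' => h (Set.image_subset_range _ _ h')
    rw [p.off b (hp.I ▸ h1), q.off b (hq.I ▸ h1)]

theorem exists_codes (p : PC Coord) (c : ℕ → Coord) (hc : p.I ⊆ Set.range c) :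
    ∃ d, Codes p d c := by
  classical
  let ex : (ℕ × ℕ → Bool) → X Coord := fun u b =>
    if h : ∃ k, c k = b.1 then u (Nat.find h, b.2) else false
  refine ⟨⟨p.t, {n | c n ∈ p.I}, fun n x u => p.H (c n, x) (ex u)⟩, rfl, ?_, fun n x z => ?_⟩
  · ext ζ
    constructor
    · intro hζ
      obtain ⟨n, rfl⟩ := hc hζ
      exact ⟨n, hζ, rfl⟩
    · rintro ⟨n, hn, rfl⟩
      exact hn
  · refine p.congr fun b _ hb => ?_
    have h : ∃ k, c k = b.1 := hc hb
    change z b = dite _ _ _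
    rw [dif_pos h]
    change z b = z (c (Nat.find h), b.2)
    rw [Nat.find_spec h]

instance : Small.{0} Tower := by
  refine small_of_injective (β := W × (W → Set ℕ) × (W → Set ℕ)) (f := fun t => (t.ht, t.U, t.A)) ?_
  intro s t h
  cases s
  cases t
  simp only [Prod.mk.injEq] at h
  obtain ⟨rfl, rfl, rfl⟩ := h
  rfl

instance : Small.{0} Data := by
  refine small_of_injective (β := Tower × Set ℕ × (ℕ → ℕ → (ℕ × ℕ → Bool) → Option Bool))
    (f := fun t => (t.t, t.A, t.H)) ?_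
  intro s t h
  cases s
  cases t
  simp only [Prod.mk.injEq] at h
  obtain ⟨rfl, rfl, rfl⟩ := h
  rfl

theorem exists_enum {C S : Set Coord} (hC : C.Nonempty) (hS : S.Countable) (h : S ⊆ C) :
    ∃ c : ℕ → Coord, (∀ n, c n ∈ C) ∧ S ⊆ Set.range c := by
  obtain ⟨ζ, hζ⟩ := hC
  obtain ⟨c, hc⟩ := (hS.insert ζ).exists_eq_range ⟨ζ, Or.inl rfl⟩
  refine ⟨c, fun n => ?_, fun x hx => hc ▸ Or.inr hx⟩
  have : c n ∈ insert ζ S := hc ▸ ⟨n, rfl⟩
  rcases this with h1 | h1
  · rw [h1]
    exact hζ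
  · exact h h1

theorem small_support {C : Set Coord} (hC : C.Nonempty) [Small.{0} C] :
    Small.{0} {p : PC Coord | p.I ⊆ C} := by
  have h : ∀ p : {p : PC Coord | p.I ⊆ C}, ∃ (d : Data) (c : ℕ → C),
      Codes p.1 d (fun n => (c n).1) := by
    intro p
    obtain ⟨c, hc1, hc2⟩ := exists_enum hC p.1.cnt p.2
    obtain ⟨d, hd⟩ := exists_codes p.1 c hc2
    exact ⟨d, fun n => ⟨c n, hc1 n⟩, hd⟩
  choose d c hdc using h
  refine small_of_injective (β := Data × (ℕ → C)) (f := fun p => (d p, c p)) ?_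
  intro p q hpq
  simp only [Prod.mk.injEq] at hpq
  have h1 := hdc p
  rw [hpq.1, hpq.2] at h1
  exact Subtype.ext (h1.eq (hdc q))

/-- The name coded by a coordinate. -/
def NN : Coord → W → ℕ → Set (PC Coord)
  | .mk _ β m d c => fun β' m' => {p | ∃ j, β j = β' ∧ m j = m' ∧ Codes p (d j) (c j)}

/-- Conditions. -/
abbrev PC.Cnd (p : PC Coord) : Prop := p.Mem NN

/-- The conditions deciding that the function coded by `ζ` has the value `m` at `β`. -/
def FF (ζ : Coord) (β : W) (m : ℕ) : Set (PC Coord) := PC.F (PC.Pset NN ζ) (NN ζ) β m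

/-- Closing off a set of coordinates. -/
theorem exists_closure (R : PC Coord → W → PC Coord) : ∃ C : Set Coord, C.Nonempty ∧
    Small.{0} C ∧ IsLowerSet C ∧ ∀ p : PC Coord, p.I ⊆ C → ∀ β, (R p β).I ⊆ C := by
  classical
  let ζ₀ : Coord := .mk Empty (fun j => j.elim) (fun j => j.elim) (fun j => j.elim)
    (fun j => j.elim)
  let st : Set Coord → Set Coord := fun C => C ∪ ⋃ p : {p : PC Coord | p.I ⊆ C}, ⋃ β, (R p.1 β).I
  let G : W → Set Coord := (wellFounded_lt (α := W)).fix (fun i ih =>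
    (lowerClosure ({ζ₀} ∪ ⋃ j : Set.Iio i, st (ih j.1 j.2)) : LowerSet Coord))
  have hG : ∀ i, G i = (lowerClosure ({ζ₀} ∪ ⋃ j : Set.Iio i, st (G j.1)) : LowerSet Coord) :=
    fun i => by
      change (wellFounded_lt (α := W)).fix _ i = _
      rw [WellFounded.fix_eq]
  have h0 : ∀ i, ζ₀ ∈ G i := fun i => by
    rw [hG]
    exact subset_lowerClosure (Or.inl rfl)
  have hlow : ∀ i, IsLowerSet (G i) := fun i => by
    rw [hG]
    exact LowerSet.lower _
  have hst : ∀ j i, j < i → st (G j) ⊆ G i := by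
    intro j i hji
    rw [hG i]
    exact (Set.subset_iUnion (fun j : Set.Iio i => st (G j.1)) ⟨j, hji⟩).trans
      (Set.subset_union_right.trans subset_lowerClosure)
  have hmono : ∀ j i, j < i → G j ⊆ G i := fun j i hji => Set.subset_union_left.trans (hst j i hji)
  have hsmall : ∀ i, Small.{0} (G i) := by
    intro i
    induction i using WellFoundedLT.induction with
    | ind i ih =>
      have h1 : ∀ j : Set.Iio i, Small.{0} (st (G j.1)) := by
        intro j
        have := ih j.1 j.2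
        have h2 := small_support ⟨ζ₀, h0 j.1⟩ (C := G j.1)
        have h3 : ∀ p : {p : PC Coord | p.I ⊆ G j.1}, ∀ β, Small.{0} ((R p.1 β).I) :=
          fun p β => by
            have := (R p.1 β).cnt.to_subtype
            infer_instance
        change Small.{0} ↥(G j.1 ∪ ⋃ p : {p : PC Coord | p.I ⊆ G j.1}, ⋃ β, (R p.1 β).I)
        infer_instance
      have h2 : Small.{0} ↥({ζ₀} ∪ ⋃ j : Set.Iio i, st (G j.1)) := by infer_instance
      rw [hG]
      have h3 : ((lowerClosure ({ζ₀} ∪ ⋃ j : Set.Iio i, st (G j.1)) : LowerSet Coord) :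
          Set Coord) = ⋃ ζ : ↥({ζ₀} ∪ ⋃ j : Set.Iio i, st (G j.1)), Set.Iic ζ.1 := by
        ext η
        simp only [SetLike.mem_coe, mem_lowerClosure, Set.mem_iUnion, Set.mem_Iic, Subtype.exists,
          exists_prop]
      rw [h3]
      infer_instance
  refine ⟨⋃ i, G i, ⟨ζ₀, Set.mem_iUnion.2 ⟨Classical.arbitrary W, h0 _⟩⟩, inferInstance,
    isLowerSet_iUnion fun i => hlow i, fun p hp β => ?_⟩
  choose! e he using fun ζ (hζ : ζ ∈ p.I) => Set.mem_iUnion.1 (hp hζ)
  obtain ⟨i, hi⟩ := W.exists_gt_countable (p.cnt.image e)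
  have h1 : p.I ⊆ G i := fun ζ hζ => hmono _ _ (hi _ ⟨ζ, hζ, rfl⟩) (he ζ hζ)
  obtain ⟨i', hi'⟩ := exists_gt i
  refine subset_trans ?_ ((hst i i' hi').trans (Set.subset_iUnion G i'))
  refine subset_trans ?_ Set.subset_union_right
  intro ζ hζ
  exact Set.mem_iUnion.2 ⟨⟨p, h1⟩, Set.mem_iUnion.2 ⟨β, hζ⟩⟩

/-- Every name of a function from `W` to `ℕ` is captured by a coordinate. -/
theorem exists_capture (g : W → ℕ → Set (PC Coord))
    (hopen : ∀ β m, ∀ q ∈ g β m, ∀ r : PC Coord, r.Cnd → r ≤ q → r ∈ g β m)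
    (hdense : ∀ β, ∀ p : PC Coord, p.Cnd → ∃ r ≤ p, r.Cnd ∧ ∃ m, r ∈ g β m)
    (hfunc : ∀ β m m', ∀ r : PC Coord, r.Cnd → r ∈ g β m → r ∈ g β m' → m = m') :
    ∃ ξ : Coord, PC.Legit (PC.Pset NN ξ) (NN ξ) ∧ ∀ β m, ∀ r ∈ FF ξ β m, r ∈ g β m := by
  classical
  have h : ∀ (p : PC Coord) (β : W), ∃ r : PC Coord, p.Cnd → (r ≤ p ∧ r.Cnd ∧ ∃ m, r ∈ g β m) := by
    intro p β
    by_cases hp : p.Cnd
    · obtain ⟨r, h1, h2, h3⟩ := hdense β p hp
      exact ⟨r, fun _ => ⟨h1, h2, h3⟩⟩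
    · exact ⟨p, fun h => absurd h hp⟩
  choose R hR using h
  obtain ⟨C, hCne, hCs, hClow, hCR⟩ := exists_closure R
  have hsm := small_support hCne
  let T := {x : (W × ℕ) × {p : PC Coord | p.I ⊆ C} // x.2.1.Cnd ∧ x.2.1 ∈ g x.1.1 x.1.2}
  have hT : Small.{0} T := small_subtype _ _
  have hcode : ∀ x : T, ∃ (d : Data) (c : ℕ → Coord), (∀ n, c n ∈ C) ∧ Codes x.1.2.1 d c := by
    intro x
    obtain ⟨c, hc1, hc2⟩ := exists_enum hCne x.1.2.1.cnt x.1.2.2
    obtain ⟨d, hd⟩ := exists_codes x.1.2.1 c hc2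
    exact ⟨d, c, hc1, hd⟩
  choose d c hc hdc using hcode
  let e : T ≃ Shrink.{0} T := equivShrink T
  let ξ : Coord := .mk (Shrink.{0} T) (fun j => (e.symm j).1.1.1) (fun j => (e.symm j).1.1.2)
    (fun j => d (e.symm j)) (fun j => c (e.symm j))
  have hξ : ∀ η, η < ξ → η ∈ C := by
    intro η hη
    obtain ⟨j, n, h1⟩ := Coord.lt_mk.1 hη
    exact hClow h1 (hc _ n)
  have hFg : ∀ β m, ∀ r ∈ FF ξ β m, r ∈ g β m := by
    rintro β m r ⟨hr, s, ⟨j, hj1, hj2, hj3⟩, hrs⟩
    have h1 : s = (e.symm j).1.2.1 := hj3.eq (hdc (e.symm j))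
    have h2 := (e.symm j).2.2
    have hj1' : (e.symm j).1.1.1 = β := hj1
    have hj2' : (e.symm j).1.1.2 = m := hj2
    rw [← h1, hj1', hj2'] at h2
    exact hopen β m s h2 r ((PC.mem_Pset NN).1 hr).1 hrs
  refine ⟨ξ, ⟨fun β p hp => ?_, fun β m m' r hr hr' => ?_⟩, hFg⟩
  · obtain ⟨hp1, hp2⟩ := (PC.mem_Pset NN).1 hp
    have hpC : p.I ⊆ C := fun η hη => hξ η (hp2 hη)
    obtain ⟨h1, h2, m, h3⟩ := hR p β hp1
    let x : T := ⟨((β, m), ⟨R p β, hCR p hpC β⟩), h2, h3⟩
    have hx : e.symm (e x) = x := e.symm_apply_apply x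
    refine ⟨R p β, h1, m, (PC.mem_Pset NN).2 ⟨h2, ?_⟩, R p β, ⟨e x, ?_, ?_, ?_⟩, le_rfl⟩
    · have h4 := (hdc x).I
      intro η hη
      have h5 : η ∈ c x '' (d x).A := h4 ▸ hη
      obtain ⟨n, -, rfl⟩ := h5
      refine Coord.lt_mk.2 ⟨e x, n, ?_⟩
      rw [hx]
    · change (e.symm (e x)).1.1.1 = β
      rw [hx]
    · change (e.symm (e x)).1.1.2 = m
      rw [hx]
    · change Codes _ (d (e.symm (e x))) (c (e.symm (e x)))
      rw [hx]
      exact hdc x
  · exact hfunc β m m' r ((PC.mem_Pset NN).1 hr.1).1 (hFg β m r hr) (hFg β m' r hr')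

end Pool.Agent.helper60.SA
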