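import Mathlib
import Pool.Agent.helper60.SA.Coord

set_option autoImplicit false

/-!
# The forcing poset
-/

namespace Pool.Agent.helper60.SA

/-- A tower. -/
noncomputable def t₀ : Tower := Classical.arbitrary Tower

/-- The forcing poset. -/
def Pos : Type 1 := {p : PC Coord // p.Cnd ∧ p ≤ PC.triv Coord t₀}

instance : Preorder Pos := inferInstanceAs
  (Preorder {p : PC Coord // p.Cnd ∧ p ≤ PC.triv Coord t₀})

noncomputable instance : OrderTop Pos where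
  top := ⟨PC.triv Coord t₀, PC.triv_mem t₀, le_rfl⟩
  le_top p := p.2.2

namespace Pos

/-- The tower of a condition. -/
def t (p : Pos) : Tower := p.1.t

/-- The assignments satisfying the constraints of a condition. -/
def Z (p : Pos) : Set (X Coord) := p.1.Z

theorem le_iff {p q : Pos} : p ≤ q ↔ p.1 ≤ q.1 := Iff.rfl

theorem t_le {p q : Pos} (h : p ≤ q) : p.t ≤ q.t := (le_iff.1 h).1

theorem Z_le {p q : Pos} (h : p ≤ q) : p.Z ⊆ q.Z := (le_iff.1 h).2.2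

theorem Z_nonempty (p : Pos) : p.Z.Nonempty := p.1.Z_nonempty

/-- The condition `r ≤ p.1` as an element of `Pos`. -/
def mk' {p : Pos} (r : PC Coord) (hr : r.Cnd) (h : r ≤ p.1) : Pos := ⟨r, hr, h.trans p.2.2⟩

theorem mk'_le {p : Pos} {r : PC Coord} {hr : r.Cnd} {h : r ≤ p.1} : mk' r hr h ≤ p := h

theorem exists_ht (p : Pos) (γ : W) : ∃ q ≤ p, γ < q.t.ht := by
  obtain ⟨q, h1, h2, h3⟩ := p.2.1.exists_ht γ
  exact ⟨mk' q h1 h2, mk'_le, h3⟩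

/-- The fusion theorem. -/
theorem fusion (p : Pos) (D : ℕ → ℕ → Set Pos) (hopen : ∀ n k, ∀ q ∈ D n k, ∀ r ≤ q, r ∈ D n k)
    (hdense : ∀ n, ∀ q ≤ p, ∃ r ≤ q, ∃ k, r ∈ D n k) :
    ∃ q ≤ p, ∃ a : ℕ → ℕ, StrictMono a ∧ q.t.top = Set.range a ∧
      ∃ S : ℕ → Set Pos, (∀ n, (S n).Finite) ∧ (∀ n, ∀ c ∈ S n, ∃ k ≤ a n, c ∈ D n k) ∧
        ∀ n, ∀ r ≤ q, ∃ c ∈ S n, ∃ r' ≤ r, r' ≤ c := by
  classical
  obtain ⟨q, hq, hqp, -, a, B, ha, htop, hcl, hD⟩ := p.2.1.fusion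
    (fun n k => {r | ∃ h : r.Cnd ∧ r ≤ PC.triv Coord t₀, (⟨r, h⟩ : Pos) ∈ D n k})
    (by
      rintro n k q ⟨hq, hqD⟩ r hr hrq
      exact ⟨⟨hr, hrq.trans hq.2⟩, hopen n k _ hqD _ hrq⟩)
    (by
      intro n q hq hqp
      obtain ⟨r, hr, k, hk⟩ := hdense n (mk' q hq hqp) mk'_le
      exact ⟨r.1, hr, r.2.1, k, r.2, hk⟩)
  refine ⟨mk' q hq hqp, mk'_le, a, ha, htop,
    fun n => {c | ∃ z ∈ q.Z, c.1 = q.restr (B n) z}, fun n => ?_, fun n c ⟨z, hz, hc⟩ => ?_,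
    fun n r hr => ?_⟩
  · have h1 : (Set.range fun s : B n → Bool => (fun s : B n → Bool =>
        q.restr (B n) (fun b => if h : b ∈ B n then s ⟨b, h⟩ else false)) s).Finite :=
      Set.finite_range _
    have h2 : (Subtype.val '' {c : Pos | ∃ z ∈ q.Z, c.1 = q.restr (B n) z}).Finite := by
      refine h1.subset ?_
      rintro _ ⟨c, ⟨z, -, hc⟩, rfl⟩
      refine ⟨fun b => z b, ?_⟩
      rw [hc]
      refine PC.restr_congr fun b hb => ?_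
      rw [dif_pos hb]
    exact h2.of_finite_image Subtype.val_injective.injOn
  · obtain ⟨k, hk, h, hkD⟩ := hD n z hz
    refine ⟨k, hk, ?_⟩
    have : c = ⟨q.restr (B n) z, h⟩ := Subtype.ext hc
    rw [this]
    exact hkD
  · obtain ⟨z, hz, r', h1, h2, h3⟩ := r.2.1.exists_piece (q := q) hr (hcl n)
    have h4 : (q.restr (B n) z).Cnd := hq.restr (hcl n) hz
    have h5 : q.restr (B n) z ≤ PC.triv Coord t₀ :=
      ((PC.restr_le (hcl n) hz).trans hqp).trans p.2.2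
    exact ⟨⟨q.restr (B n) z, h4, h5⟩, ⟨z, hz, rfl⟩, ⟨r', h1, h2.trans r.2.2⟩, h2, h3⟩

/-- A name of a sequence of countable ordinals is bounded by some condition. -/
theorem bound (p : Pos) (E : ℕ → W → Set Pos) (hopen : ∀ n β, ∀ q ∈ E n β, ∀ r ≤ q, r ∈ E n β)
    (hdense : ∀ n, ∀ q ≤ p, ∃ r ≤ q, ∃ β, r ∈ E n β) :
    ∃ q ≤ p, ∃ γ, ∀ n, ∀ r ≤ q, ∃ r' ≤ r, ∃ β < γ, r' ∈ E n β := by
  classical
  obtain ⟨q, hq, a, -, -, S, hS1, hS2, hS3⟩ := p.fusion (fun n _ => {r | ∃ β, r ∈ E n β})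
    (fun n _ q ⟨β, hβ⟩ r hr => ⟨β, hopen n β q hβ r hr⟩)
    (fun n q hq => by
      obtain ⟨r, hr, β, hβ⟩ := hdense n q hq
      exact ⟨r, hr, 0, β, hβ⟩)
  have h1 : ∀ n, ∀ c : Pos, ∃ β, c ∈ S n → c ∈ E n β := by
    intro n c
    by_cases hc : c ∈ S n
    · obtain ⟨_, -, β, hβ⟩ := hS2 n c hc
      exact ⟨β, fun _ => hβ⟩
    · exact ⟨Classical.arbitrary W, fun h => absurd h hc⟩
  choose f hf using h1
  obtain ⟨γ, hγ⟩ := W.exists_gt_countable (S := ⋃ n, f n '' S n)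
    (Set.countable_iUnion fun n => ((hS1 n).image _).countable)
  refine ⟨q, hq, γ, fun n r hr => ?_⟩
  obtain ⟨c, hc, r', h1, h2⟩ := hS3 n r hr
  exact ⟨r', h1, f n c, hγ _ (Set.mem_iUnion.2 ⟨n, c, hc, rfl⟩), hopen n _ c (hf n c hc) r' h2⟩

/-- Every name of a function from `W` to `ℕ` is captured by a coordinate: the generic set at the
coordinate meets all `A β` in a finite set with an element above the value at `β`. -/
theorem capture (g : W → ℕ → Set Pos) (hopen : ∀ β m, ∀ q ∈ g β m, ∀ r ≤ q, r ∈ g β m)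
    (hdense : ∀ β, ∀ p : Pos, ∃ r ≤ p, ∃ m, r ∈ g β m)
    (hfunc : ∀ β m m', ∀ r, r ∈ g β m → r ∈ g β m' → m = m') :
    ∃ ξ : Coord, ∀ β, ∀ p : Pos, ∃ r ≤ p, β < r.t.ht ∧ ∃ m, r ∈ g β m ∧
      (∃ a ∈ r.t.A β, m ≤ a ∧ ∀ z ∈ r.Z, z (ξ, a) = true) ∧
      ∃ M, ∀ x, M ≤ x → x ∈ r.t.A β → ∀ z ∈ r.Z, z (ξ, x) = false := by
  classical
  -- the name, for the poset of all conditions
  let g' : W → ℕ → Set (PC Coord) := fun β m =>
    {r | (∃ h : r.Cnd ∧ r ≤ PC.triv Coord t₀, (⟨r, h⟩ : Pos) ∈ g β m) ∨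
      ((∀ s ≤ r, s.Cnd → ¬ s ≤ PC.triv Coord t₀) ∧ m = 0)}
  obtain ⟨ξ, hξ1, hξ2⟩ := exists_capture g'
    (by
      rintro β m q (⟨hq, hqg⟩ | ⟨hq, hm⟩) r hr hrq
      · exact Or.inl ⟨⟨hr, hrq.trans hq.2⟩, hopen β m _ hqg _ hrq⟩
      · exact Or.inr ⟨fun s hs => hq s (hs.trans hrq), hm⟩)
    (by
      intro β p hp
      by_cases h : ∃ s ≤ p, s.Cnd ∧ s ≤ PC.triv Coord t₀
      · obtain ⟨s, hs, hs1, hs2⟩ := h
        obtain ⟨r, hr, m, hm⟩ := hdense β ⟨s, hs1, hs2⟩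
        exact ⟨r.1, (le_iff.1 hr).trans hs, r.2.1, m, Or.inl ⟨r.2, hm⟩⟩
      · push Not at h
        exact ⟨p, le_rfl, hp, 0, Or.inr ⟨h, rfl⟩⟩)
    (by
      rintro β m m' r hr (⟨h1, h2⟩ | ⟨h1, h2⟩) (⟨h3, h4⟩ | ⟨h3, h4⟩)
      · exact hfunc β m m' _ h2 h4
      · exact absurd h1.2 (h3 r le_rfl hr)
      · exact absurd h3.2 (h1 r le_rfl hr)
      · rw [h2, h4])
  refine ⟨ξ, fun β p => ?_⟩
  obtain ⟨p', hp', hβ⟩ := p.exists_ht β
  obtain ⟨q, hq, hqp, hξq, ⟨hβq, M, hM⟩, m, hm⟩ := p'.2.1.exists_done hξ1 hβ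
  obtain ⟨z₀, hz₀⟩ := q.Z_nonempty
  obtain ⟨a, ha, hma, hza⟩ := hq.r3 ξ hξq β hβq m _ hm le_rfl z₀ hz₀
    ((PC.le_res q _).2.2 hz₀) ⟨M, fun x hx hxA => hM x hx hxA z₀ hz₀⟩
  obtain ⟨B, hB, hcl⟩ := q.exists_closed {(ξ, a)} (by
    intro b hb
    rw [Finset.mem_singleton] at hb
    rw [hb]
    exact hξq)
  have hr := hq.restr hcl hz₀
  have hrq := PC.restr_le hcl hz₀
  refine ⟨mk' (p := p) _ hr (hrq.trans (hqp.trans hp')), mk'_le, hβq, m, ?_, ⟨a, ha, hma, ?_⟩,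
    M, ?_⟩
  · rcases hξ2 β m _ hm with ⟨h, h1⟩ | ⟨h, -⟩
    · exact hopen β m _ h1 _ (hrq.trans (PC.le_res q _))
    · exact absurd (hqp.trans p'.2.2) (h q (PC.le_res q _) hq)
  · intro z hz
    rw [((PC.mem_Z_restr hcl hz₀).1 hz).2 (ξ, a) (hB (Finset.mem_singleton_self _)), hza]
  · intro x hx hxA z hz
    have hz' : z ∈ q.Z := ((PC.mem_Z_restr hcl hz₀).1 hz).1
    exact hz' (ξ, x) false (hM x hx hxA z hz')

end Pos

end Pool.Agent.helper60.SA
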