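import Mathlib
import Pool.Agent.helper60.FcU.Sem

set_option autoImplicit false

/-!
# Selectively (a) almost disjoint families inside a structure `(M, E)`
-/

namespace Pool.Agent.helper60.SA

open Pool.Agent.helper60

namespace Sem

variable {M : Type} (E : M → M → Prop)

/-- `w` is the set `ω` of natural numbers: a limit ordinal no element of which is a limit
ordinal. -/
def IsOmega (w : M) : Prop := FcU.Sem.Ord E w ∧ FcU.Sem.Lim E w ∧ ∀ v, E v w → ¬ FcU.Sem.Lim E v

/-- `x` is an infinite (that is, unbounded) subset of `w = ω`. -/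
def InfSub (w x : M) : Prop := (∀ n, E n x → E n w) ∧ ∀ n, E n w → ∃ m, E m x ∧ E n m

/-- The intersection of the subsets `x` and `y` of `w = ω` is finite (that is, bounded). -/
def FinInter (w x y : M) : Prop := ∃ n, E n w ∧ ∀ m, E m x → E m y → E m n

/-- `a` is an almost disjoint family: a set of infinite subsets of `ω`, any two of which have finite
intersection. -/
def ADFam (w a : M) : Prop :=
  (∀ x, E x a → InfSub E w x) ∧ ∀ x, E x a → ∀ y, E y a → x ≠ y → FinInter E w x y

/-- `D` is a dominating family: a set of functions from `ω` to `ω` such that for every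
`f : ω → ω` there are `g ∈ D` and `n` such that `f(m) ≤ g(m)` for all `m > n`. -/
def Dominating (w D : M) : Prop :=
  (∀ g, E g D → FcU.Sem.Fun E g w w) ∧
  ∀ f, FcU.Sem.Fun E f w w → ∃ g, E g D ∧ ∃ n, E n w ∧ ∀ m, E m w → E n m → ∀ i j,
    FcU.Sem.App E f m i → FcU.Sem.App E g m j → (E i j ∨ i = j)

/-- There is an injection from `x` to `y`. -/
def Le (x y : M) : Prop := ∃ f, FcU.Sem.Fun E f x y ∧ FcU.Sem.Inj E f

/-- The cardinality of `a` is the dominating number: it is the least cardinality of a dominating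
family. -/
def CardIsD (w a : M) : Prop :=
  (∃ D, Dominating E w D ∧ FcU.Sem.Equip E a D) ∧ ∀ D, Dominating E w D → Le E a D

/-- `x` is a point of the space `Ψ(a)`, an element of `ω ∪ a`. -/
def Pt (w a x : M) : Prop := E x w ∨ E x a

/-- `u` is an open subset of the space `Ψ(a)`: a set of points such that for each `x ∈ a ∩ u` the
set `x \ u` is finite. -/
def IsOpen (w a u : M) : Prop :=
  (∀ x, E x u → Pt E w a x) ∧
  ∀ x, E x a → E x u → ∃ n, E n w ∧ ∀ m, E m x → (E m n ∨ E m u)

/-- `c` is a cover of `Ψ(a)` by open sets. -/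
def OpenCover (w a c : M) : Prop :=
  (∀ u, E u c → IsOpen E w a u) ∧ ∀ x, Pt E w a x → ∃ u, E u c ∧ E x u

/-- `d` is a dense subset of `Ψ(a)`. -/
def IsDense (w a d : M) : Prop :=
  (∀ x, E x d → Pt E w a x) ∧
  ∀ u, IsOpen E w a u → (∃ x, E x u) → ∃ x, E x u ∧ E x d

/-- `s` is a sequence indexed by `ω`: a function (a set of ordered pairs) with domain `ω`. -/
def IsSeq (w s : M) : Prop :=
  (∀ z, E z s → ∃ n, E n w ∧ ∃ y, FcU.Sem.OPair E z n y) ∧
  (∀ n, E n w → ∃ y, FcU.Sem.App E s n y) ∧
  ∀ n y y', FcU.Sem.App E s n y → FcU.Sem.App E s n y' → y = y'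

/-- The set `f` of points of `Ψ(a)` is closed and discrete: every point `x` of `Ψ(a)` has an open
neighbourhood which contains no point of `f`, except possibly `x`. -/
def ClosedDiscrete (w a f : M) : Prop :=
  ∀ x, Pt E w a x → ∃ u, IsOpen E w a u ∧ E x u ∧ ∀ y, E y u → E y f → y = x

/-- `Ψ(a)` is selectively (a): for every sequence `s` of open covers and every dense set `d` there
is a sequence `t` of closed discrete subsets of `d` such that each point `x` belongs to the star
`St(t(n), s(n))` for some `n`, i.e. `x` belongs to some `u ∈ s(n)` which meets `t(n)`. -/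
def SelA (w a : M) : Prop := ∀ s, IsSeq E w s →
  (∀ n c, FcU.Sem.App E s n c → OpenCover E w a c) → ∀ d, IsDense E w a d →
    ∃ t, IsSeq E w t ∧
      (∀ n f, FcU.Sem.App E t n f → (∀ x, E x f → E x d) ∧ ClosedDiscrete E w a f) ∧
      ∀ x, Pt E w a x → ∃ n f c u, FcU.Sem.App E t n f ∧ FcU.Sem.App E s n c ∧ E u c ∧ E x u ∧
        ∃ y, E y f ∧ E y u

end Sem

end Pool.Agent.helper60.SA
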