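import Mathlib
import Pool.Agent.helper60.FcU.FoFm
import Pool.Agent.helper60.SA.Defs

set_option autoImplicit false

/-!
# The statement as a formula
-/

open FirstOrder FirstOrder.Language

namespace Pool.Agent.helper60.SA

open FcU

/-! ### Formulas -/

/-- `w = ω`. -/
def fIsOmega {n : ℕ} (w : Fin n) : Fm n := fOrd w ⊓ (fLim w ⊓ fBall w (∼(fLim nw)))

def fInfSub {n : ℕ} (w x : Fin n) : Fm n :=
  fBall x (fMem nw (up w)) ⊓ fBall w (fBex (up x) (fMem (up nw) nw))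

def fFinInter {n : ℕ} (w x y : Fin n) : Fm n :=
  fBex w (fBall (up x) (fMem nw (up (up y)) ⟹ fMem nw (up nw)))

def fADFam {n : ℕ} (w a : Fin n) : Fm n :=
  fBall a (fInfSub (up w) nw) ⊓
  fBall a (fBall (up a) (∼(fEq (up nw) nw) ⟹ fFinInter (up (up w)) (up nw) nw))

/-- `f(m) ≤ g(m)` for all `m > n`. -/
def fDomBy {n : ℕ} (w k f g : Fin n) : Fm n :=
  fBall w (fMem (up k) nw ⟹ ∀' ∀' (fApp (up (up (up f))) (up (up nw)) (up nw) ⟹
    fApp (up (up (up g))) (up (up nw)) nw ⟹ (fMem (up nw) nw ⊔ fEq (up nw) nw)))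

def fDominating {n : ℕ} (w D : Fin n) : Fm n :=
  fBall D (fFun nw (up w) (up w)) ⊓
  ∀' (fFun nw (up w) (up w) ⟹ fBex (up D) (fBex (up (up w))
    (fDomBy (up (up (up w))) nw (up (up nw)) (up nw))))

def fLe {n : ℕ} (x y : Fin n) : Fm n := ∃' (fFun nw (up x) (up y) ⊓ fInj nw)

def fCardIsD {n : ℕ} (w a : Fin n) : Fm n :=
  ∃' (fDominating (up w) nw ⊓ fEquip (up a) nw) ⊓ ∀' (fDominating (up w) nw ⟹ fLe (up a) nw)

def fPt {n : ℕ} (w a x : Fin n) : Fm n := fMem x w ⊔ fMem x a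

def fIsOpen {n : ℕ} (w a u : Fin n) : Fm n :=
  fBall u (fPt (up w) (up a) nw) ⊓
  fBall a (fMem nw (up u) ⟹ fBex (up w) (fBall (up nw)
    (fMem nw (up nw) ⊔ fMem nw (up (up (up u))))))

def fOpenCover {n : ℕ} (w a c : Fin n) : Fm n :=
  fBall c (fIsOpen (up w) (up a) nw) ⊓
  ∀' (fPt (up w) (up a) nw ⟹ fBex (up c) (fMem (up nw) nw))

def fIsDense {n : ℕ} (w a d : Fin n) : Fm n :=
  fBall d (fPt (up w) (up a) nw) ⊓
  ∀' (fIsOpen (up w) (up a) nw ⟹ ∃' (fMem nw (up nw)) ⟹ fBex nw (fMem nw (up (up d))))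

def fIsSeq {n : ℕ} (w s : Fin n) : Fm n :=
  fBall s (fBex (up w) (∃' (fOpair (up (up nw)) (up nw) nw))) ⊓
  (fBall w (∃' (fApp (up (up s)) (up nw) nw)) ⊓
  ∀' ∀' ∀' (fApp (up (up (up s))) (up (up nw)) (up nw) ⟹
    fApp (up (up (up s))) (up (up nw)) nw ⟹ fEq (up nw) nw))

def fClosedDiscrete {n : ℕ} (w a f : Fin n) : Fm n :=
  ∀' (fPt (up w) (up a) nw ⟹ ∃' (fIsOpen (up (up w)) (up (up a)) nw ⊓ (fMem (up nw) nw ⊓
    fBall nw (fMem nw (up (up (up f))) ⟹ fEq nw (up (up nw))))))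

/-- The star condition for the point `x`. -/
def fStar {n : ℕ} (s t x : Fin n) : Fm n :=
  ∃' ∃' ∃' ∃' (fApp (up (up (up (up t)))) (up (up (up nw))) (up (up nw)) ⊓
    (fApp (up (up (up (up s)))) (up (up (up nw))) (up nw) ⊓ (fMem nw (up nw) ⊓
      (fMem (up (up (up (up x)))) nw ⊓ ∃' (fMem nw (up (up (up nw))) ⊓ fMem nw (up nw))))))

def fSelA {n : ℕ} (w a : Fin n) : Fm n :=
  ∀' (fIsSeq (up w) nw ⟹
    (∀' ∀' (fApp (up (up nw)) (up nw) nw ⟹ fOpenCover (up (up (up w))) (up (up (up a))) nw)) ⟹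
    ∀' (fIsDense (up (up w)) (up (up a)) nw ⟹
      ∃' (fIsSeq (up (up (up w))) nw ⊓
        ((∀' ∀' (fApp (up (up nw)) (up nw) nw ⟹
          (fBall nw (fMem nw (up (up (up (up nw))))) ⊓
            fClosedDiscrete (up (up (up (up (up w))))) (up (up (up (up (up a))))) nw))) ⊓
        ∀' (fPt (up (up (up (up w)))) (up (up (up (up a)))) nw ⟹
          fStar (up (up (up nw))) (up nw) nw)))))

section Sat

variable {M : Type} {E : M → M → Prop} {n : ℕ} {b : Fin n → M}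

theorem sat_isOmega {w : Fin n} : Sat E (fIsOmega w) b ↔ Sem.IsOmega E (b w) := by
  simp only [fIsOmega, sat_and, sat_ball, sat_not, sat_ord, sat_lim, sn_nw, Sem.IsOmega]

theorem sat_infSub {w x : Fin n} : Sat E (fInfSub w x) b ↔ Sem.InfSub E (b w) (b x) := by
  simp only [fInfSub, sat_and, sat_ball, sat_bex, sat_mem, sn_nw, sn_up, Sem.InfSub]

theorem sat_finInter {w x y : Fin n} :
    Sat E (fFinInter w x y) b ↔ Sem.FinInter E (b w) (b x) (b y) := by
  simp only [fFinInter, sat_imp, sat_ball, sat_bex, sat_mem, sn_nw, sn_up, Sem.FinInter]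

theorem sat_adfam {w a : Fin n} : Sat E (fADFam w a) b ↔ Sem.ADFam E (b w) (b a) := by
  simp only [fADFam, sat_and, sat_imp, sat_not, sat_eq, sat_ball, sat_infSub, sat_finInter,
    sn_nw, sn_up, Sem.ADFam, ne_eq]

theorem sat_dominating {w D : Fin n} :
    Sat E (fDominating w D) b ↔ Sem.Dominating E (b w) (b D) := by
  simp only [fDominating, fDomBy, sat_and, sat_imp, sat_all, sat_or, sat_mem, sat_eq, sat_ball,
    sat_bex, sat_fun, sat_app, sn_nw, sn_up, Sem.Dominating]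

theorem sat_le {x y : Fin n} : Sat E (fLe x y) b ↔ Sem.Le E (b x) (b y) := by
  simp only [fLe, sat_and, sat_ex, sat_fun, sat_inj, sn_nw, sn_up, Sem.Le]

theorem sat_cardIsD {w a : Fin n} : Sat E (fCardIsD w a) b ↔ Sem.CardIsD E (b w) (b a) := by
  simp only [fCardIsD, sat_and, sat_imp, sat_all, sat_ex, sat_dominating, sat_equip, sat_le,
    sn_nw, sn_up, Sem.CardIsD]

theorem sat_pt {w a x : Fin n} : Sat E (fPt w a x) b ↔ Sem.Pt E (b w) (b a) (b x) := by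
  simp only [fPt, sat_or, sat_mem, Sem.Pt]

theorem sat_isOpen {w a u : Fin n} :
    Sat E (fIsOpen w a u) b ↔ Sem.IsOpen E (b w) (b a) (b u) := by
  simp only [fIsOpen, sat_and, sat_imp, sat_or, sat_mem, sat_ball, sat_bex, sat_pt, sn_nw, sn_up,
    Sem.IsOpen]

theorem sat_openCover {w a c : Fin n} :
    Sat E (fOpenCover w a c) b ↔ Sem.OpenCover E (b w) (b a) (b c) := by
  simp only [fOpenCover, sat_and, sat_imp, sat_all, sat_mem, sat_ball, sat_bex, sat_pt, sat_isOpen,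
    sn_nw, sn_up, Sem.OpenCover]

theorem sat_isDense {w a d : Fin n} :
    Sat E (fIsDense w a d) b ↔ Sem.IsDense E (b w) (b a) (b d) := by
  simp only [fIsDense, sat_and, sat_imp, sat_all, sat_ex, sat_mem, sat_ball, sat_bex, sat_pt,
    sat_isOpen, sn_nw, sn_up, Sem.IsDense]

theorem sat_isSeq {w s : Fin n} : Sat E (fIsSeq w s) b ↔ Sem.IsSeq E (b w) (b s) := by
  simp only [fIsSeq, sat_and, sat_imp, sat_all, sat_ex, sat_eq, sat_ball, sat_bex, sat_app,
    sat_opair, sn_nw, sn_up, Sem.IsSeq]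

theorem sat_closedDiscrete {w a f : Fin n} :
    Sat E (fClosedDiscrete w a f) b ↔ Sem.ClosedDiscrete E (b w) (b a) (b f) := by
  simp only [fClosedDiscrete, sat_and, sat_imp, sat_all, sat_ex, sat_eq, sat_mem, sat_ball, sat_pt,
    sat_isOpen, sn_nw, sn_up, Sem.ClosedDiscrete]

theorem sat_star {s t x : Fin n} : Sat E (fStar s t x) b ↔
    ∃ n f c u, FcU.Sem.App E (b t) n f ∧ FcU.Sem.App E (b s) n c ∧ E u c ∧ E (b x) u ∧
        ∃ y, E y f ∧ E y u := by
  simp only [fStar, sat_and, sat_ex, sat_mem, sat_app, sn_nw, sn_up]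

theorem sat_selA {w a : Fin n} : Sat E (fSelA w a) b ↔ Sem.SelA E (b w) (b a) := by
  simp only [fSelA, sat_and, sat_imp, sat_all, sat_ex, sat_mem, sat_ball, sat_pt, sat_isSeq,
    sat_app, sat_openCover, sat_isDense, sat_closedDiscrete, sat_star, sn_nw, sn_up, Sem.SelA]

end Sat

/-- The sentence. -/
def sentence : Fm 0 := ∃' ∃' (fIsOmega (up nw) ⊓ (fADFam (up nw) nw ⊓
  (fCardIsD (up nw) nw ⊓ fSelA (up nw) nw)))

theorem sat_sentence {M : Type} {E : M → M → Prop} {b : Fin 0 → M} : Sat E sentence b ↔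
    ∃ w a, Sem.IsOmega E w ∧ Sem.ADFam E w a ∧ Sem.CardIsD E w a ∧ Sem.SelA E w a := by
  simp only [sentence, sat_ex, sat_and, sat_isOmega, sat_adfam, sat_cardIsD, sat_selA, sn_nw,
    sn_up]

end Pool.Agent.helper60.SA
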