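import Mathlib
import Pool.Agent.helper60.FcU.Card
import Pool.Agent.helper60.SA.Pos
import Pool.Agent.helper60.SA.Sem

set_option autoImplicit false

/-!
# Names of the generic almost disjoint family
-/

open FirstOrder FirstOrder.Language

namespace Pool.Agent.helper60.SA

open FcU

section Nat

variable {P : Type 1} [Preorder P] [OrderTop P] {p : P} {n : ℕ} {xs : Fin n → Name P}

/-- The names of the natural numbers. -/
noncomputable def nN (P : Type 1) [Preorder P] [OrderTop P] (k : ℕ) : Name P :=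
  oN P (k : Ordinal.{1})

/-- The name of `ω`. -/
noncomputable def wN (P : Type 1) [Preorder P] [OrderTop P] : Name P := oN P Ordinal.omega0

theorem nN_mem_nN {j k : ℕ} : ForcesMem (nN P j) (nN P k) p ↔ j < k := by
  unfold nN
  rw [oN_mem_oN, Nat.cast_lt]

theorem nN_eq_nN {j k : ℕ} : ForcesEq (nN P j) (nN P k) p ↔ j = k := by
  unfold nN
  rw [oN_eq_oN, Nat.cast_inj]

theorem nN_mem_wN (k : ℕ) (p : P) : ForcesMem (nN P k) (wN P) p := by
  unfold nN wN
  rw [oN_mem_oN]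
  exact Ordinal.natCast_lt_omega0 k

theorem mem_wN {z : Name P} :
    ForcesMem z (wN P) p ↔ ∀ q ≤ p, ∃ r ≤ q, ∃ k, ForcesEq z (nN P k) r := by
  unfold wN nN
  rw [mem_oN]
  refine forall_congr' fun q => forall_congr' fun _ => exists_congr fun r =>
    and_congr_right fun _ => ?_
  constructor
  · rintro ⟨i, hi, h⟩
    obtain ⟨k, rfl⟩ := Ordinal.lt_omega0.1 hi
    exact ⟨k, h⟩
  · rintro ⟨k, h⟩
    exact ⟨k, Ordinal.natCast_lt_omega0 k, h⟩

theorem mem_nN {z : Name P} {m : ℕ} :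
    ForcesMem z (nN P m) p ↔ ∀ q ≤ p, ∃ r ≤ q, ∃ k < m, ForcesEq z (nN P k) r := by
  unfold nN
  rw [mem_oN]
  refine forall_congr' fun q => forall_congr' fun _ => exists_congr fun r =>
    and_congr_right fun _ => ?_
  constructor
  · rintro ⟨i, hi, h⟩
    obtain ⟨k, rfl⟩ := Ordinal.lt_omega0.1 (hi.trans (Ordinal.natCast_lt_omega0 m))
    exact ⟨k, Nat.cast_lt.1 hi, h⟩
  · rintro ⟨k, hk, h⟩
    exact ⟨k, Nat.cast_lt.2 hk, h⟩

theorem fo_ball_w {j : Fin n} (hj : xs j = wN P) {φ : Fm (n + 1)} :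
    Fo (fBall j φ) xs p ↔ ∀ k : ℕ, Fo φ (sn xs (nN P k)) p := by
  rw [fo_ball_oN hj]
  constructor
  · exact fun h k => h _ (Ordinal.natCast_lt_omega0 k)
  · intro h i hi
    obtain ⟨k, rfl⟩ := Ordinal.lt_omega0.1 hi
    exact h k

theorem fo_bex_w {j : Fin n} (hj : xs j = wN P) {φ : Fm (n + 1)} :
    Fo (fBex j φ) xs p ↔ ∀ q ≤ p, ∃ r ≤ q, ∃ k : ℕ, Fo φ (sn xs (nN P k)) r := by
  rw [fo_bex_oN hj]
  refine forall_congr' fun q => forall_congr' fun _ => exists_congr fun r =>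
    and_congr_right fun _ => ?_
  constructor
  · rintro ⟨i, hi, h⟩
    obtain ⟨k, rfl⟩ := Ordinal.lt_omega0.1 hi
    exact ⟨k, h⟩
  · rintro ⟨k, h⟩
    exact ⟨_, Ordinal.natCast_lt_omega0 k, h⟩

theorem fo_isOmega {w : Fin n} (hw : xs w = wN P) : Fo (fIsOmega w) xs p := by
  unfold fIsOmega
  rw [fo_and, fo_and]
  refine ⟨fo_ord_oN hw, fo_lim_oN hw Ordinal.isSuccLimit_omega0, ?_⟩
  rw [fo_ball_w hw]
  intro k
  rw [fo_not]
  intro q _ h
  unfold fLim at h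
  rw [fo_and] at h
  obtain ⟨h1, h2⟩ := h
  cases k with
  | zero =>
    obtain ⟨r, _, x, hx⟩ := fo_ex.1 h1 q le_rfl
    rw [fo_mem] at hx
    simp only [sn_nw, sn_up] at hx
    obtain ⟨s, _, k, hk, -⟩ := mem_nN.1 hx r le_rfl
    exact absurd hk (Nat.not_lt_zero k)
  | succ m =>
    rw [fo_ball] at h2
    have h3 := h2 (nN P m) q le_rfl (by rw [sn_nw, nN_mem_nN]; exact Nat.lt_succ_self m)
    rw [fo_bex] at h3
    obtain ⟨r, _, x, hx, h4⟩ := h3 q le_rfl
    rw [fo_mem] at h4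
    simp only [sn_nw, sn_up] at hx h4
    obtain ⟨s, hs, k, hk, h5⟩ := mem_nN.1 hx r le_rfl
    have h6 := (h4.mono hs).congr_right h5
    rw [nN_mem_nN] at h6
    omega

end Nat

/-! ### The almost disjoint family -/

/-- The name of the generic set `A β`. -/
noncomputable def AN (β : W) : Name Pos :=
  .mk {x : ℕ × Pos // β < x.2.t.ht ∧ x.1 ∈ x.2.t.A β} (fun x => nN Pos x.1.1) (fun x => x.1.2)

/-- The name of the generic almost disjoint family. -/
noncomputable def aN : Name Pos := ck AN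

variable {p q r : Pos} {β β' : W} {n : ℕ} {xs : Fin n → Name Pos}

theorem Pos.A_eq (h : q ≤ p) (hβ : β < p.t.ht) : q.t.A β = p.t.A β := (Pos.t_le h).2.2 β hβ

theorem Pos.ht_le (h : q ≤ p) : p.t.ht ≤ q.t.ht := (Pos.t_le h).1

theorem mem_AN {z : Name Pos} : ForcesMem z (AN β) p ↔
    ∀ q ≤ p, ∃ r ≤ q, ∃ k, β < r.t.ht ∧ k ∈ r.t.A β ∧ ForcesEq z (nN Pos k) r := by
  constructor
  · intro h q hq
    obtain ⟨r, hr, ⟨⟨k, s⟩, h1, h2⟩, h3, h4⟩ := h q hq
    have h3' : r ≤ s := h3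
    refine ⟨r, hr, k, h1.trans_le (Pos.ht_le h3'), ?_, h4⟩
    rw [Pos.A_eq h3' h1]
    exact h2
  · intro h q hq
    obtain ⟨r, hr, k, h1, h2, h3⟩ := h q hq
    exact ⟨r, hr, ⟨(k, r), h1, h2⟩, le_rfl, h3⟩

theorem nN_mem_AN (hβ : β < p.t.ht) {k : ℕ} : ForcesMem (nN Pos k) (AN β) p ↔ k ∈ p.t.A β := by
  rw [mem_AN]
  constructor
  · intro h
    obtain ⟨r, hr, j, h1, h2, h3⟩ := h p le_rfl
    rw [nN_eq_nN] at h3
    subst h3
    rw [← Pos.A_eq hr hβ]
    exact h2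
  · intro h q hq
    exact ⟨q, le_rfl, k, hβ.trans_le (Pos.ht_le hq), by rw [Pos.A_eq hq hβ]; exact h,
      ForcesEq.refl _ _⟩

theorem mem_aN {z : Name Pos} : ForcesMem z aN p ↔
    ∀ q ≤ p, ∃ r ≤ q, ∃ β, ForcesEq z (AN β) r := mem_ck

theorem AN_mem_aN (β : W) (p : Pos) : ForcesMem (AN β) aN p := mem_ck_self AN β p

theorem AN_ne (h : β ≠ β') (p : Pos) : ¬ ForcesEq (AN β) (AN β') p := by
  intro heq
  obtain ⟨r, hr, h1⟩ := p.exists_ht (max β β')
  have hβ : β < r.t.ht := (le_max_left _ _).trans_lt h1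
  have hβ' : β' < r.t.ht := (le_max_right _ _).trans_lt h1
  obtain ⟨M, hM⟩ := (r.t.A_ne h hβ hβ').bddAbove
  obtain ⟨k, hk, hkA⟩ := PC.Tower.exists_mem_ge r.t hβ (M + 1)
  have h2 := ((nN_mem_AN hβ).2 hkA).congr_right (heq.mono hr)
  rw [nN_mem_AN hβ'] at h2
  have := hM ⟨hkA, h2⟩
  omega

theorem AN_eq_AN : ForcesEq (AN β) (AN β') p ↔ β = β' := by
  constructor
  · intro h
    by_contra hne
    exact AN_ne hne p h
  · rintro rfl
    exact ForcesEq.refl _ _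

theorem AN_ne_nN (β : W) (m : ℕ) (p : Pos) : ¬ ForcesEq (AN β) (nN Pos m) p := by
  intro heq
  obtain ⟨r, hr, hβ⟩ := p.exists_ht β
  obtain ⟨k, hk, hkA⟩ := PC.Tower.exists_mem_ge r.t hβ m
  have h2 := ((nN_mem_AN hβ).2 hkA).congr_right (heq.mono hr)
  rw [nN_mem_nN] at h2
  omega

theorem fo_ball_a {j : Fin n} (hj : xs j = aN) {φ : Fm (n + 1)} :
    Fo (fBall j φ) xs p ↔ ∀ β : W, Fo φ (sn xs (AN β)) p := fo_ball_ck hj

theorem fo_ball_AN {j : Fin n} (hj : xs j = AN β) (hβ : β < p.t.ht) {φ : Fm (n + 1)} :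
    Fo (fBall j φ) xs p ↔ ∀ k ∈ p.t.A β, Fo φ (sn xs (nN Pos k)) p := by
  rw [fo_ball, hj]
  constructor
  · intro h k hk
    exact h _ p le_rfl ((nN_mem_AN hβ).2 hk)
  · intro h z q hq hz
    refine Fo.dense fun r hr => ?_
    obtain ⟨s, hs, k, -, h2, h3⟩ := mem_AN.1 hz r hr
    have hsp : s ≤ p := (hs.trans hr).trans hq
    rw [Pos.A_eq hsp hβ] at h2
    exact ⟨s, hs, (fo_sn_congr h3).2 (Fo.mono hsp (h k h2))⟩

theorem fo_adfam {w a : Fin n} (hw : xs w = wN Pos) (ha : xs a = aN) :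
    Fo (fADFam w a) xs p := by
  unfold fADFam
  rw [fo_and, fo_ball_a ha, fo_ball_a ha]
  constructor
  · intro β
    unfold fInfSub
    rw [fo_and]
    constructor
    · rw [fo_ball]
      intro z q _ hz
      rw [fo_mem]
      simp only [sn_nw, sn_up] at hz ⊢
      rw [hw]
      refine mem_wN.2 fun r hr => ?_
      obtain ⟨s, hs, k, -, -, h3⟩ := mem_AN.1 hz r hr
      exact ⟨s, hs, k, h3⟩
    · rw [fo_ball_w (by rw [sn_up, hw])]
      intro m
      refine Fo.dense fun q _ => ?_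
      obtain ⟨r, hr, hβ⟩ := q.exists_ht β
      obtain ⟨k, hk, hkA⟩ := PC.Tower.exists_mem_ge r.t hβ (m + 1)
      refine ⟨r, hr, fo_bex_of (nN Pos k) ?_ ?_⟩
      · simp only [sn_nw, sn_up]
        exact (nN_mem_AN hβ).2 hkA
      · rw [fo_mem]
        simp only [sn_nw, sn_up]
        rw [nN_mem_nN]
        omega
  · intro β
    rw [fo_ball_a (by rw [sn_up, ha])]
    intro β'
    rw [fo_imp]
    intro q _ hne
    rw [fo_not] at hne
    simp only [fo_eq, sn_nw, sn_up] at hne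
    have hne' : β ≠ β' := by
      rintro rfl
      exact hne q le_rfl (ForcesEq.refl _ _)
    unfold fFinInter
    refine Fo.dense fun q' _ => ?_
    obtain ⟨r, hr, h1⟩ := q'.exists_ht (max β β')
    have hβ : β < r.t.ht := (le_max_left _ _).trans_lt h1
    have hβ' : β' < r.t.ht := (le_max_right _ _).trans_lt h1
    obtain ⟨M, hM⟩ := (r.t.A_ne hne' hβ hβ').bddAbove
    refine ⟨r, hr, fo_bex_of (nN Pos (M + 1)) ?_ ?_⟩
    · simp only [sn_up]
      rw [hw]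
      exact nN_mem_wN _ _
    · rw [fo_ball_AN (β := β) (by simp only [sn_up, sn_nw]) hβ]
      intro k hk
      rw [fo_imp]
      intro s hs
      rw [fo_mem, fo_mem]
      simp only [sn_nw, sn_up]
      intro h2
      rw [nN_mem_AN (hβ'.trans_le (Pos.ht_le hs)), Pos.A_eq hs hβ'] at h2
      rw [nN_mem_nN]
      have := hM ⟨hk, h2⟩
      omega

end Pool.Agent.helper60.SA
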