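import Mathlib
import Pool.Agent.helper60.SA.NamesA

set_option autoImplicit false

/-!
# The dominating number in the forcing extension
-/

open FirstOrder FirstOrder.Language

namespace Pool.Agent.helper60.SA

open FcU

section General

variable {P : Type 1} [Preorder P] [OrderTop P] {p : P} {n : ℕ} {xs : Fin n → Name P}

omit [OrderTop P] in
/-- The maximum principle. -/
theorem exists_name {C : Name P → P → Prop} (hreg : ∀ x, Reg (C x))
    (hcongr : ∀ x y p, ForcesEq x y p → C x p → C y p)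
    (h : ∀ q ≤ p, ∃ r ≤ q, ∃ x, C x r) : ∃ x, C x p := by
  classical
  let R : {r : P // ∃ x, C x r} → {r : P // ∃ x, C x r} → Prop := WellOrderingRel
  choose x hx using fun r : {r : P // ∃ x, C x r} => r.2
  let X : Name P := .mk {y : (Σ r : {r : P // ∃ x, C x r}, (x r).Idx) × P //
      (y.2 ≤ y.1.1.1 ∧ y.2 ≤ (x y.1.1).cd y.1.2) ∧ ∀ r', R r' y.1.1 → ∀ u ≤ y.2, ¬ u ≤ r'.1}
    (fun y => (x y.1.1.1).el y.1.1.2) (fun y => y.1.2)
  refine ⟨X, (hreg X).dense fun q hq => ?_⟩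
  -- the least element compatible with `q`
  have hne : {r : {r : P // ∃ x, C x r} | ∃ t ≤ q, t ≤ r.1}.Nonempty := by
    obtain ⟨r, hr, y, hy⟩ := h q hq
    exact ⟨⟨r, y, hy⟩, r, hr, le_rfl⟩
  obtain ⟨r, ⟨t, htq, htr⟩, hmin⟩ := WellFounded.has_min
    (IsWellFounded.wf : WellFounded R) _ hne
  have hmin' : ∀ r', R r' r → ∀ u ≤ t, ¬ u ≤ r'.1 := fun r' hr' u hu hur =>
    hmin r' ⟨u, hu.trans htq, hur⟩ hr'
  have key : ForcesEq (x r) X t := by
    refine ForcesEq.ext' (fun i s hs _ => ?_) (fun j s hs _ => ?_)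
    · refine (ForcesMem.reg _ _).dense fun u hu => ?_
      rename_i hmem
      obtain ⟨v, hv, i', hi', heq⟩ := forcesMem_iff.1 hmem u hu
      have hvt : v ≤ t := (hv.trans hu).trans hs
      refine ⟨v, hv, ForcesMem.congr_left ?_ heq.symm⟩
      exact forcesMem_el X ⟨(⟨r, i'⟩, v), ⟨hvt.trans htr, hi'⟩, fun r' hr' w hw =>
        hmin' r' hr' w (hw.trans hvt)⟩ le_rfl
    · refine (ForcesMem.reg _ _).dense fun u hu => ?_
      rename_i hmem
      obtain ⟨v, hv, ⟨⟨⟨r', i'⟩, s'⟩, ⟨h1, h2⟩, h3⟩, hj', heq⟩ := forcesMem_iff.1 hmem u hu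
      have hvt : v ≤ t := (hv.trans hu).trans hs
      have hvs : v ≤ s' := hj'
      have hrr : r' = r := by
        rcases trichotomous_of R r' r with h4 | h4 | h4
        · exact absurd (hvs.trans h1) (hmin' r' h4 v hvt)
        · exact h4
        · exact absurd (hvt.trans htr) (h3 r h4 v hvs)
      subst hrr
      have heq' : ForcesEq (X.el j) ((x r').el i') v := heq
      exact ⟨v, hv, (forcesMem_el (x r') i' (hvs.trans h2)).congr_left heq'.symm⟩
  exact ⟨t, htq, hcongr _ _ _ key ((hreg _).mono htr (hx r))⟩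

theorem ffun_grN' {ι : Type 1} {x y : ι → Name P} {b : Name P} (hy : ∀ i, ForcesMem (y i) b p)
    (hxy : ∀ i j, ∀ q ≤ p, ForcesEq (x i) (x j) q → ForcesEq (y i) (y j) q) :
    FFun (grN x y) (ck x) b p := by
  refine ⟨fun z q hq hz r hr => ?_, fun u q hq hu r hr => ?_, fun u v v' q hq h1 h2 => ?_⟩
  · obtain ⟨s, hs, i, hi⟩ := mem_ck.1 hz r hr
    exact ⟨s, hs, x i, y i, mem_ck_self x i s, (hy i).mono ((hs.trans hr).trans hq), hi⟩
  · obtain ⟨s, hs, i, hi⟩ := mem_ck.1 hu r hr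
    refine ⟨s, hs, y i, (hy i).mono ((hs.trans hr).trans hq), ?_⟩
    exact (mem_grN_self x y i s).congr_left (opN_congr hi.symm (ForcesEq.refl _ _))
  · refine (ForcesEq.reg _ _).dense fun r hr => ?_
    obtain ⟨s, hs, i, h3, h4⟩ := mem_grN.1 h1 r hr
    obtain ⟨t, ht, j, h5, h6⟩ := mem_grN.1 h2 s (hs.trans hr)
    refine ⟨t, ht.trans hs, (h4.mono ht).trans
      ((hxy i j t (((ht.trans hs).trans hr).trans hq) ?_).trans h6.symm)⟩
    exact (h3.mono ht).symm.trans h5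

theorem finj_grN' {ι : Type 1} {x y : ι → Name P}
    (hyx : ∀ i j, ∀ q ≤ p, ForcesEq (y i) (y j) q → ForcesEq (x i) (x j) q) :
    FInj (grN x y) p := by
  intro u u' v q hq h1 h2
  refine (ForcesEq.reg _ _).dense fun r hr => ?_
  obtain ⟨s, hs, i, h3, h4⟩ := mem_grN.1 h1 r hr
  obtain ⟨t, ht, j, h5, h6⟩ := mem_grN.1 h2 s (hs.trans hr)
  refine ⟨t, ht.trans hs, (h3.mono ht).trans
    ((hyx i j t (((ht.trans hs).trans hr).trans hq) ?_).trans h5.symm)⟩
  exact (h4.mono ht).symm.trans h6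

/-- The values of functions from `ω` to `ω` can be decided. -/
theorem _root_.Pool.Agent.helper60.FcU.FFun.val {f : Name P} (h : FFun f (wN P) (wN P) p) (m : ℕ) {q : P} (hq : q ≤ p) :
    ∃ r ≤ q, ∃ k, ForcesMem (opN (nN P m) (nN P k)) f r := by
  obtain ⟨s, hs, y, hy, h1⟩ := h.total _ q hq (nN_mem_wN m q) q le_rfl
  obtain ⟨r, hr, k, hk⟩ := mem_wN.1 hy s le_rfl
  exact ⟨r, hr.trans hs, k, (h1.mono hr).congr_left (opN_congr (ForcesEq.refl _ _) hk)⟩

theorem _root_.Pool.Agent.helper60.FcU.FFun.val_unique {f a b : Name P} (h : FFun f a b p) {x : Name P} {j k : ℕ}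
    {q : P} (hq : q ≤ p) (h1 : ForcesMem (opN x (nN P j)) f q)
    (h2 : ForcesMem (opN x (nN P k)) f q) : j = k :=
  nN_eq_nN.1 (h.func _ _ _ q hq h1 h2)

theorem fo_dominating {w D : Fin n} (hw : xs w = wN P) : Fo (fDominating w D) xs p ↔
    (∀ g, ∀ q ≤ p, ForcesMem g (xs D) q → FFun g (wN P) (wN P) q) ∧
    ∀ f, ∀ q ≤ p, FFun f (wN P) (wN P) q → ∀ r ≤ q, ∃ s ≤ r, ∃ g, ForcesMem g (xs D) s ∧
      ∀ s' ≤ s, ∃ u ≤ s', ∃ k : ℕ, ∀ m : ℕ, ∀ v ≤ u, k < m → ∀ i j, ∀ v' ≤ v,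
        ForcesMem (opN (nN P m) i) f v' → ∀ v'' ≤ v', ForcesMem (opN (nN P m) j) g v'' →
          ∀ a ≤ v'', ∃ b ≤ a, ForcesMem i j b ∨ ForcesEq i j b := by
  unfold fDominating fDomBy
  rw [fo_and, fo_ball, fo_all]
  refine and_congr ?_ ?_
  · simp only [fo_fun, sn_up, sn_nw, hw]
  · refine forall_congr' fun f => ?_
    rw [fo_imp]
    refine forall_congr' fun q => forall_congr' fun _ => ?_
    refine imp_congr (by rw [fo_fun]; simp only [sn_up, sn_nw, hw]) ?_
    rw [fo_bex]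
    refine forall_congr' fun r => forall_congr' fun _ => exists_congr fun s =>
      and_congr_right fun _ => exists_congr fun g => and_congr ?_ ?_
    · simp only [sn_up]
    · rw [fo_bex_w (by simp only [sn_up, hw])]
      refine forall_congr' fun s' => forall_congr' fun _ => exists_congr fun u =>
        and_congr_right fun _ => exists_congr fun k => ?_
      rw [fo_ball_w (by simp only [sn_up, hw])]
      refine forall_congr' fun m => ?_
      simp only [fo_imp, fo_all, fo_mem, fo_app, fo_or, fo_eq, sn_up, sn_nw, nN_mem_nN]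

end General

/-! ### The generic dominating family -/

open Classical in
/-- The increasing enumeration of a set of natural numbers. -/
noncomputable def en (S : Set ℕ) (n : ℕ) : ℕ := Nat.nth (· ∈ S) n

open Classical in
theorem en_strictMono {S : Set ℕ} (hS : S.Infinite) : StrictMono (en S) := Nat.nth_strictMono hS

open Classical in
theorem range_en {S : Set ℕ} (hS : S.Infinite) : Set.range (en S) = S := by
  have := Nat.range_nth_of_infinite (p := (· ∈ S)) hS
  exact this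

theorem en_range {a : ℕ → ℕ} (ha : StrictMono a) : en (Set.range a) = a := by
  have h : (Set.range a).Infinite := Set.infinite_range_of_injective ha.injective
  exact ((en_strictMono h).range_inj ha).1 (range_en h)

/-- The name of the increasing enumeration of the generic set `U δ`. -/
noncomputable def EN (δ : W) : Name Pos :=
  .mk {x : ℕ × Pos // δ ≤ x.2.t.ht}
    (fun x => opN (nN Pos x.1.1) (nN Pos (en (x.1.2.t.U δ) x.1.1))) (fun x => x.1.2)

variable {p q r : Pos} {δ δ' : W} {n : ℕ} {xs : Fin n → Name Pos}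

theorem Pos.U_eq (h : q ≤ p) (hδ : δ ≤ p.t.ht) : q.t.U δ = p.t.U δ := (Pos.t_le h).2.1 δ hδ

theorem mem_EN (hδ : δ ≤ p.t.ht) {z : Name Pos} : ForcesMem z (EN δ) p ↔
    ∀ q ≤ p, ∃ r ≤ q, ∃ k, ForcesEq z (opN (nN Pos k) (nN Pos (en (p.t.U δ) k))) r := by
  constructor
  · intro h q hq
    obtain ⟨r, hr, ⟨⟨k, s⟩, h1⟩, h3, h4⟩ := h q hq
    have h3' : r ≤ s := h3
    have h4' : ForcesEq z (opN (nN Pos k) (nN Pos (en (s.t.U δ) k))) r := h4
    rw [← Pos.U_eq h3' h1, Pos.U_eq (hr.trans hq) hδ] at h4'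
    exact ⟨r, hr, k, h4'⟩
  · intro h q hq
    obtain ⟨r, hr, k, h3⟩ := h q hq
    refine ⟨r, hr, ⟨(k, r), hδ.trans (Pos.ht_le (hr.trans hq))⟩, le_rfl, ?_⟩
    change ForcesEq z (opN (nN Pos k) (nN Pos (en (r.t.U δ) k))) r
    rw [Pos.U_eq (hr.trans hq) hδ]
    exact h3

theorem opN_mem_EN (hδ : δ ≤ p.t.ht) {k m : ℕ} :
    ForcesMem (opN (nN Pos k) (nN Pos m)) (EN δ) p ↔ m = en (p.t.U δ) k := by
  rw [mem_EN hδ]
  constructor
  · intro h
    obtain ⟨r, _, j, hj⟩ := h p le_rfl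
    rw [opN_inj, nN_eq_nN, nN_eq_nN] at hj
    rw [hj.2, hj.1]
  · rintro rfl q _
    exact ⟨q, le_rfl, k, ForcesEq.refl _ _⟩

theorem FFun_EN (δ : W) (p : Pos) : FFun (EN δ) (wN Pos) (wN Pos) p := by
  refine FFun.dense fun q _ => ?_
  obtain ⟨p', hp', hδ'⟩ := q.exists_ht δ
  have hδ := hδ'.le
  refine ⟨p', hp', fun z q hq hz r hr => ?_, fun u q hq hu r hr => ?_,
    fun u v v' q hq h1 h2 => ?_⟩
  · obtain ⟨s, hs, k, hk⟩ := (mem_EN (hδ.trans (Pos.ht_le hq))).1 hz r hr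
    exact ⟨s, hs, _, _, nN_mem_wN _ _, nN_mem_wN _ _, hk⟩
  · obtain ⟨s, hs, k, hk⟩ := mem_wN.1 hu r hr
    refine ⟨s, hs, nN Pos (en (s.t.U δ) k), nN_mem_wN _ _, ?_⟩
    have h1 : ForcesMem (opN (nN Pos k) (nN Pos (en (s.t.U δ) k))) (EN δ) s :=
      (opN_mem_EN (hδ.trans (Pos.ht_le ((hs.trans hr).trans hq)))).2 rfl
    exact h1.congr_left (opN_congr hk.symm (ForcesEq.refl _ _))
  · refine (ForcesEq.reg _ _).dense fun r hr => ?_
    obtain ⟨s, hs, i, h3⟩ := (mem_EN (hδ.trans (Pos.ht_le hq))).1 h1 r hr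
    obtain ⟨t, ht, j, h4⟩ := (mem_EN (hδ.trans (Pos.ht_le hq))).1 h2 s (hs.trans hr)
    rw [opN_inj] at h3 h4
    have h5 : ForcesEq (nN Pos i) (nN Pos j) t := (h3.1.mono ht).symm.trans h4.1
    rw [nN_eq_nN] at h5
    subst h5
    exact ⟨t, ht.trans hs, (h3.2.mono ht).trans h4.2.symm⟩

theorem Tower.U_ne (t : Tower) {α β : W} (hαβ : α < β) (hβ : β ≤ t.ht) : t.U α ≠ t.U β := by
  intro h
  have h1 := t.Adisj α β hαβ hβ
  rw [← h, Set.inter_eq_left.2 (t.Asub α (hαβ.trans_le hβ))] at h1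
  exact t.Ainf α (hαβ.trans_le hβ) h1

theorem EN_eq_EN : ForcesEq (EN δ) (EN δ') p ↔ δ = δ' := by
  constructor
  · intro h
    by_contra hne
    obtain ⟨r, hr, h1⟩ := p.exists_ht (max δ δ')
    have hδ : δ ≤ r.t.ht := ((le_max_left _ _).trans_lt h1).le
    have hδ' : δ' ≤ r.t.ht := ((le_max_right _ _).trans_lt h1).le
    have h2 : en (r.t.U δ) = en (r.t.U δ') := by
      funext k
      have h3 : ForcesMem (opN (nN Pos k) (nN Pos (en (r.t.U δ) k))) (EN δ) r :=
        (opN_mem_EN hδ).2 rfl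
      exact (opN_mem_EN hδ').1 (h3.congr_right (h.mono hr))
    have h3 : r.t.U δ = r.t.U δ' := by
      rw [← range_en (r.t.inf δ hδ), ← range_en (r.t.inf δ' hδ'), h2]
    rcases lt_or_gt_of_ne hne with h4 | h4
    · exact r.t.U_ne h4 hδ' h3
    · exact r.t.U_ne h4 hδ h3.symm
  · rintro rfl
    exact ForcesEq.refl _ _

/-- The name of the generic dominating family. -/
noncomputable def dN : Name Pos := ck EN

theorem fo_dominating_dN {w D : Fin n} (hw : xs w = wN Pos) (hD : xs D = dN) :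
    Fo (fDominating w D) xs p := by
  rw [fo_dominating hw, hD]
  constructor
  · intro g q _ hg
    refine FFun.dense fun r hr => ?_
    obtain ⟨s, hs, δ, hδ⟩ := mem_ck.1 hg r hr
    exact ⟨s, hs, FFun.congr hδ.symm (FFun_EN δ s)⟩
  · intro f q _ hf r hr
    obtain ⟨s, hs, a, ha, htop, S, -, hS2, hS3⟩ := r.fusion
      (fun m k => {c | ForcesMem (opN (nN Pos m) (nN Pos k)) f c})
      (fun m k c hc d hd => ForcesMem.mono hd hc)
      (fun m c hc => by
        obtain ⟨d, hd, k, hk⟩ := hf.val m (hc.trans hr)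
        exact ⟨d, hd, k, hk⟩)
    refine ⟨s, hs, EN s.t.ht, mem_ck_self EN s.t.ht s, fun s' hs' => ⟨s', le_rfl, 0,
      fun m v hv _ i j v' hv' h1 v'' hv'' h2 c hc => ?_⟩⟩
    have hcs : c ≤ s := (((hc.trans hv'').trans hv').trans hv).trans hs'
    obtain ⟨e, he, c', hc', hce⟩ := hS3 m c hcs
    obtain ⟨k, hk, hkD⟩ := hS2 m e he
    have h3 : ForcesMem (opN (nN Pos m) (nN Pos k)) f c' := ForcesMem.mono hce hkD
    have hc's : c' ≤ s := hc'.trans hcs
    have h4 : ForcesEq i (nN Pos k) c' := hf.func _ _ _ c' ((hc's.trans hs).trans hr)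
      (h1.mono ((hc'.trans hc).trans hv'')) h3
    have h5 : ForcesMem (opN (nN Pos m) (nN Pos (en (s.t.U s.t.ht) m))) (EN s.t.ht) c' := by
      rw [opN_mem_EN (Pos.ht_le hc's), Pos.U_eq hc's le_rfl]
    have h6 : ForcesEq j (nN Pos (en (s.t.U s.t.ht) m)) c' :=
      (FFun_EN s.t.ht c').func _ _ _ c' le_rfl (h2.mono (hc'.trans hc)) h5
    have h7 : en (s.t.U s.t.ht) m = a m := by
      have : s.t.U s.t.ht = Set.range a := htop
      rw [this, en_range ha]
    rw [h7] at h6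
    refine ⟨c', hc', ?_⟩
    rcases lt_or_eq_of_le hk with h8 | h8
    · left
      have : ForcesMem (nN Pos k) (nN Pos (a m)) c' := nN_mem_nN.2 h8
      exact (this.congr_left h4.symm).congr_right h6.symm
    · right
      rw [h8] at h4
      exact h4.trans h6.symm

theorem fo_equip_dN {a D : Fin n} (ha : xs a = aN) (hD : xs D = dN) :
    Fo (fEquip a D) xs p := by
  refine fo_equip_of (grN AN EN) ?_ ?_ ?_
  · rw [ha, hD]
    refine ffun_grN' (fun β => mem_ck_self EN β p) fun β β' q _ h => ?_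
    rw [AN_eq_AN] at h
    rw [h]
    exact ForcesEq.refl _ _
  · refine finj_grN' fun β β' q _ h => ?_
    rw [EN_eq_EN] at h
    rw [h]
    exact ForcesEq.refl _ _
  · rw [ha, hD]
    exact surj_grN fun β => ⟨β, fun q => ForcesEq.refl _ _⟩

/-! ### Every dominating family is large -/

/-- Diagonalization. -/
theorem exists_diag {D : Name Pos}
    (h1 : ∀ g, ∀ q ≤ p, ForcesMem g D q → FFun g (wN Pos) (wN Pos) q)
    (h2 : ∀ f, ∀ q ≤ p, FFun f (wN Pos) (wN Pos) q → ∀ r ≤ q, ∃ s ≤ r, ∃ g, ForcesMem g D s ∧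
      ∀ s' ≤ s, ∃ u ≤ s', ∃ k : ℕ, ∀ m : ℕ, ∀ v ≤ u, k < m → ∀ i j, ∀ v' ≤ v,
        ForcesMem (opN (nN Pos m) i) f v' → ∀ v'' ≤ v', ForcesMem (opN (nN Pos m) j) g v'' →
          ∀ a ≤ v'', ∃ b ≤ a, ForcesMem i j b ∨ ForcesEq i j b)
    (y : ℕ → Name Pos) (hy : ∀ k, ForcesMem (y k) D p) :
    ∃ z, ForcesMem z D p ∧ ∀ k, ∀ q ≤ p, ¬ ForcesEq z (y k) q := by
  classical
  have hreg : ∀ z : Name Pos, Reg (fun r : Pos => ForcesMem z D r ∧
      ∀ k, ∀ q ≤ r, ¬ ForcesEq z (y k) q) := fun z =>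
    Reg.and (ForcesMem.reg _ _) (Reg.all fun k => Reg.neg (ForcesEq.reg _ _))
  refine exists_name (C := fun z r => ForcesMem z D r ∧ ∀ k, ∀ q ≤ r, ¬ ForcesEq z (y k) q)
    hreg (fun x x' r hxx hx => ⟨hx.1.congr_left hxx, fun k q hq h => hx.2 k q hq
      ((hxx.mono hq).trans h)⟩) fun q hq => ?_
  have hyf : ∀ k, FFun (y k) (wN Pos) (wN Pos) p := fun k => h1 _ p le_rfl (hy k)
  -- finitely many values can be decided
  have hdec : ∀ (m K : ℕ), ∀ r ≤ p, ∃ s ≤ r, ∃ v : ℕ → ℕ, ∀ k < K,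
      ForcesMem (opN (nN Pos m) (nN Pos (v k))) (y k) s := by
    intro m K
    induction K with
    | zero => exact fun r _ => ⟨r, le_rfl, fun _ => 0, fun k hk => absurd hk (Nat.not_lt_zero k)⟩
    | succ K ih =>
      intro r hr
      obtain ⟨s, hs, v, hv⟩ := ih r hr
      obtain ⟨t, ht, c, hc⟩ := (hyf K).val m (hs.trans hr)
      refine ⟨t, ht.trans hs, fun k => if k = K then c else v k, fun k hk => ?_⟩
      dsimp only
      split_ifs with hkK
      · rw [hkK]
        exact hc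
      · exact (hv k (by omega)).mono ht
  -- the diagonal function
  let hN : Name Pos := .mk {x : (ℕ × ℕ) × Pos // ∃ v : ℕ → ℕ,
      (∀ k < x.1.1 + 1, ForcesMem (opN (nN Pos x.1.1) (nN Pos (v k))) (y k) x.2) ∧
      x.1.2 = 1 + ∑ k ∈ Finset.range (x.1.1 + 1), v k}
    (fun x => opN (nN Pos x.1.1.1) (nN Pos x.1.1.2)) (fun x => x.1.2)
  have hmem : ∀ (m : ℕ) (v : ℕ → ℕ) (r : Pos),
      (∀ k < m + 1, ForcesMem (opN (nN Pos m) (nN Pos (v k))) (y k) r) →
      ForcesMem (opN (nN Pos m) (nN Pos (1 + ∑ k ∈ Finset.range (m + 1), v k))) hN r :=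
    fun m v r hv s hs => ⟨s, le_rfl, ⟨((m, _), s), v, fun k hk => (hv k hk).mono hs, rfl⟩, le_rfl,
      ForcesEq.refl _ _⟩
  have hmem' : ∀ z, ∀ r ≤ p, ForcesMem z hN r → ∀ s ≤ r, ∃ t ≤ s, ∃ (m : ℕ) (v : ℕ → ℕ),
      (∀ k < m + 1, ForcesMem (opN (nN Pos m) (nN Pos (v k))) (y k) t) ∧
      ForcesEq z (opN (nN Pos m) (nN Pos (1 + ∑ k ∈ Finset.range (m + 1), v k))) t := by
    intro z r _ hz s hs
    obtain ⟨t, ht, ⟨⟨⟨m, c⟩, u⟩, v, hv1, hv2⟩, htu, heq⟩ := hz s hs
    have htu' : t ≤ u := htu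
    refine ⟨t, ht, m, v, fun k hk => (hv1 k hk).mono htu', ?_⟩
    have hv2' : c = 1 + ∑ k ∈ Finset.range (m + 1), v k := hv2
    rw [← hv2']
    exact heq
  have hhf : FFun hN (wN Pos) (wN Pos) q := by
    refine ⟨fun z r hr hz s hs => ?_, fun x r hr hx s hs => ?_, fun x u u' r hr hu hu' => ?_⟩
    · obtain ⟨t, ht, m, v, -, heq⟩ := hmem' z r (hr.trans hq) hz s hs
      exact ⟨t, ht, _, _, nN_mem_wN _ _, nN_mem_wN _ _, heq⟩
    · obtain ⟨t, ht, m, hm⟩ := mem_wN.1 hx s hs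
      obtain ⟨u, hu, v, hv⟩ := hdec m (m + 1) t (((ht.trans hs).trans hr).trans hq)
      refine ⟨u, hu.trans ht, _, nN_mem_wN _ _, (hmem m v u hv).congr_left
        (opN_congr (hm.mono hu).symm (ForcesEq.refl _ _))⟩
    · refine (ForcesEq.reg _ _).dense fun s hs => ?_
      obtain ⟨t, ht, m, v, hv, heq⟩ := hmem' _ r (hr.trans hq) hu s hs
      obtain ⟨t', ht', m', v', hv', heq'⟩ := hmem' _ r (hr.trans hq) hu' t (ht.trans hs)
      rw [opN_inj] at heq heq'
      have hmm : m = m' := nN_eq_nN.1 ((heq.1.mono ht').symm.trans heq'.1)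
      subst hmm
      have ht'p : t' ≤ p := (((ht'.trans ht).trans hs).trans hr).trans hq
      have hvv : ∑ k ∈ Finset.range (m + 1), v k = ∑ k ∈ Finset.range (m + 1), v' k := by
        refine Finset.sum_congr rfl fun k hk => ?_
        have hk' := Finset.mem_range.1 hk
        exact (hyf k).val_unique ht'p ((hv k hk').mono ht') (hv' k hk')
      refine ⟨t', ht'.trans ht, (heq.2.mono ht').trans ?_⟩
      rw [hvv]
      exact heq'.2.symm
  -- a function in `D` dominating the diagonal function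
  obtain ⟨s, hs, g, hg, hdom⟩ := h2 hN q hq hhf q le_rfl
  obtain ⟨u, hu, N, hN'⟩ := hdom s le_rfl
  refine ⟨u, hu.trans hs, g, hg.mono hu, fun k c hc heq => ?_⟩
  have hcp : c ≤ p := ((hc.trans hu).trans hs).trans hq
  let m := max k N + 1
  obtain ⟨d, hd, v, hv⟩ := hdec m (m + 1) c hcp
  have hkm : k < m + 1 := by
    have : k ≤ max k N := le_max_left _ _
    omega
  have hNm : N < m := by
    have : N ≤ max k N := le_max_right _ _
    omega
  have h3 : ForcesMem (opN (nN Pos m) (nN Pos (v k))) g d :=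
    (hv k hkm).congr_right (heq.mono hd).symm
  obtain ⟨b, hb, h4⟩ := hN' m d (hd.trans hc) hNm _ _ d le_rfl (hmem m v d hv) d le_rfl h3 d le_rfl
  rw [nN_mem_nN, nN_eq_nN] at h4
  have h5 : v k ≤ ∑ k ∈ Finset.range (m + 1), v k :=
    Finset.single_le_sum (f := v) (fun _ _ => Nat.zero_le _) (Finset.mem_range.2 hkm)
  omega

theorem fo_le_of_dominating {w D a : Fin n} (hw : xs w = wN Pos) (ha : xs a = aN)
    (h : Fo (fDominating w D) xs p) : Fo (fLe a D) xs p := by
  classical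
  rw [fo_dominating hw] at h
  obtain ⟨h1, h2⟩ := h
  -- the injection
  let x : W → Name Pos := (wellFounded_lt (α := W)).fix (fun β ih =>
    if hx : ∃ z, ForcesMem z (xs D) p ∧ ∀ α, (hα : α < β) → ∀ q ≤ p, ¬ ForcesEq z (ih α hα) q then
      hx.choose else wN Pos)
  have hx : ∀ β, x β = if hx : ∃ z, ForcesMem z (xs D) p ∧ ∀ α, α < β → ∀ q ≤ p,
      ¬ ForcesEq z (x α) q then hx.choose else wN Pos := fun β => by
    change (wellFounded_lt (α := W)).fix _ β = _
    rw [WellFounded.fix_eq]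
  have hx' : ∀ β, ForcesMem (x β) (xs D) p ∧ ∀ α, α < β → ∀ q ≤ p, ¬ ForcesEq (x β) (x α) q := by
    intro β
    induction β using WellFoundedLT.induction with
    | ind β ih =>
      have hex : ∃ z, ForcesMem z (xs D) p ∧ ∀ α, α < β → ∀ q ≤ p, ¬ ForcesEq z (x α) q := by
        by_cases hne : (Set.Iio β).Nonempty
        · obtain ⟨e, he⟩ := (W.countable_Iio β).exists_eq_range hne
          have hlt : ∀ k, e k < β := fun k => by
            have : e k ∈ Set.Iio β := he ▸ ⟨k, rfl⟩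
            exact this
          obtain ⟨z, hz1, hz2⟩ := exists_diag h1 h2 (fun k => x (e k)) fun k =>
            (ih (e k) (hlt k)).1
          refine ⟨z, hz1, fun α hα => ?_⟩
          have : α ∈ Set.range e := he ▸ hα
          obtain ⟨k, rfl⟩ := this
          exact hz2 k
        · have h3 : ∀ q ≤ p, ∃ r ≤ q, ∃ z, ForcesMem z (xs D) r := by
            intro q hq
            obtain ⟨s, hs, g, hg, -⟩ := h2 (EN β) q hq (FFun_EN β q) q le_rfl
            exact ⟨s, hs, g, hg⟩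
          obtain ⟨z, hz⟩ := exists_name (C := fun z r => ForcesMem z (xs D) r)
            (fun z => ForcesMem.reg _ _) (fun _ _ _ h h' => h'.congr_left h) h3
          exact ⟨z, hz, fun α hα => absurd ⟨α, hα⟩ hne⟩
      rw [hx β, dif_pos hex]
      exact hex.choose_spec
  have hinj : ∀ α β, ∀ q ≤ p, ForcesEq (x α) (x β) q → α = β := by
    intro α β q hq heq
    rcases lt_trichotomy α β with h | h | h
    · exact absurd heq.symm ((hx' β).2 α h q hq)
    · exact h
    · exact absurd heq ((hx' α).2 β h q hq)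
  unfold fLe
  refine fo_ex_of (grN AN x) ?_
  rw [fo_and, fo_fun, fo_inj]
  simp only [sn_up, sn_nw, ha]
  constructor
  · refine ffun_grN' (fun β => (hx' β).1) fun β β' q _ h => ?_
    rw [AN_eq_AN] at h
    rw [h]
    exact ForcesEq.refl _ _
  · refine finj_grN' fun β β' q hq h => ?_
    rw [hinj _ _ q hq h]
    exact ForcesEq.refl _ _

theorem fo_cardIsD {w a : Fin n} (hw : xs w = wN Pos) (ha : xs a = aN) :
    Fo (fCardIsD w a) xs p := by
  unfold fCardIsD
  rw [fo_and]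
  constructor
  · refine fo_ex_of dN ?_
    rw [fo_and]
    exact ⟨fo_dominating_dN (by simp only [sn_up, hw]) (by simp only [sn_nw]),
      fo_equip_dN (by simp only [sn_up, ha]) (by simp only [sn_nw])⟩
  · rw [fo_all]
    intro D
    rw [fo_imp]
    intro q _ h
    exact fo_le_of_dominating (by simp only [sn_up, hw]) (by simp only [sn_up, ha]) h

end Pool.Agent.helper60.SA
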