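import Mathlib
import Pool.Agent.helper60.SA.NamesD

set_option autoImplicit false

/-!
# The generic almost disjoint family is selectively (a)
-/

open FirstOrder FirstOrder.Language

namespace Pool.Agent.helper60.SA

open FcU

variable {p q r : Pos} {β β' : W} {n : ℕ} {xs : Fin n → Name Pos}

/-! ### Unfolding the forced statements -/

/-- `p` forces that `x` is a point. -/
def FPt (x : Name Pos) (p : Pos) : Prop :=
  ∀ q ≤ p, ∃ r ≤ q, ForcesMem x (wN Pos) r ∨ ForcesMem x aN r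

theorem FPt.mono {x : Name Pos} (h : FPt x p) (hq : q ≤ p) : FPt x q :=
  fun r hr => h r (hr.trans hq)

theorem FPt.cases {x : Name Pos} (h : FPt x p) (hq : q ≤ p) :
    ∃ r ≤ q, (∃ k, ForcesEq x (nN Pos k) r) ∨ ∃ β, ForcesEq x (AN β) r := by
  obtain ⟨r, hr, h1 | h1⟩ := h q hq
  · obtain ⟨s, hs, k, hk⟩ := mem_wN.1 h1 r le_rfl
    exact ⟨s, hs.trans hr, Or.inl ⟨k, hk⟩⟩
  · obtain ⟨s, hs, k, hk⟩ := mem_aN.1 h1 r le_rfl
    exact ⟨s, hs.trans hr, Or.inr ⟨k, hk⟩⟩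

theorem FPt.of_cases {x : Name Pos}
    (h : ∀ q ≤ p, ∃ r ≤ q, (∃ k, ForcesEq x (nN Pos k) r) ∨ ∃ β, ForcesEq x (AN β) r) :
    FPt x p := by
  intro q hq
  obtain ⟨r, hr, ⟨k, hk⟩ | ⟨β, hβ⟩⟩ := h q hq
  · exact ⟨r, hr, Or.inl ((nN_mem_wN k r).congr_left hk.symm)⟩
  · exact ⟨r, hr, Or.inr ((AN_mem_aN β r).congr_left hβ.symm)⟩

theorem FPt_nN (k : ℕ) (p : Pos) : FPt (nN Pos k) p :=
  fun q _ => ⟨q, le_rfl, Or.inl (nN_mem_wN k q)⟩

theorem FPt_AN (β : W) (p : Pos) : FPt (AN β) p :=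
  fun q _ => ⟨q, le_rfl, Or.inr (AN_mem_aN β q)⟩

theorem fo_pt {w a x : Fin n} (hw : xs w = wN Pos) (ha : xs a = aN) :
    Fo (fPt w a x) xs p ↔ FPt (xs x) p := by
  unfold fPt FPt
  rw [fo_or]
  simp only [fo_mem, hw, ha]

/-- `p` forces that `A β \ u` is finite. -/
def FSub (u : Name Pos) (β : W) (m : ℕ) (p : Pos) : Prop :=
  ∀ z, ∀ t ≤ p, ForcesMem z (AN β) t →
    ∀ t' ≤ t, ∃ t'' ≤ t', ForcesMem z (nN Pos m) t'' ∨ ForcesMem z u t''

theorem FSub.mono {u : Name Pos} {m : ℕ} (h : FSub u β m p) (hq : q ≤ p) : FSub u β m q :=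
  fun z t ht => h z t (ht.trans hq)

/-- `p` forces that `u` is open. -/
def FOpen (u : Name Pos) (p : Pos) : Prop :=
  (∀ x, ∀ q ≤ p, ForcesMem x u q → FPt x q) ∧
  ∀ β, ∀ q ≤ p, ForcesMem (AN β) u q → ∀ r ≤ q, ∃ s ≤ r, ∃ m : ℕ, FSub u β m s

theorem fo_isOpen {w a u : Fin n} (hw : xs w = wN Pos) (ha : xs a = aN) :
    Fo (fIsOpen w a u) xs p ↔ FOpen (xs u) p := by
  unfold fIsOpen FOpen
  rw [fo_and, fo_ball, fo_ball_a ha]
  refine and_congr ?_ ?_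
  · refine forall_congr' fun x => forall_congr' fun q => forall_congr' fun _ =>
      forall_congr' fun _ => ?_
    rw [fo_pt (by simp only [sn_up, hw]) (by simp only [sn_up, ha]), sn_nw]
  · refine forall_congr' fun β => ?_
    rw [fo_imp]
    refine forall_congr' fun q => forall_congr' fun _ => ?_
    refine imp_congr (by rw [fo_mem]; simp only [sn_up, sn_nw]) ?_
    rw [fo_bex_w (by simp only [sn_up, hw])]
    refine forall_congr' fun r => forall_congr' fun _ => exists_congr fun s =>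
      and_congr_right fun _ => exists_congr fun m => ?_
    unfold FSub
    rw [fo_ball]
    simp only [fo_or, fo_mem, sn_up, sn_nw]

/-- `p` forces that `c` is an open cover. -/
def FCover (c : Name Pos) (p : Pos) : Prop :=
  (∀ u, ∀ q ≤ p, ForcesMem u c q → FOpen u q) ∧
  ∀ x, ∀ q ≤ p, FPt x q → ∀ r ≤ q, ∃ s ≤ r, ∃ u, ForcesMem u c s ∧ ForcesMem x u s

theorem fo_openCover {w a c : Fin n} (hw : xs w = wN Pos) (ha : xs a = aN) :
    Fo (fOpenCover w a c) xs p ↔ FCover (xs c) p := by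
  unfold fOpenCover FCover
  rw [fo_and, fo_ball, fo_all]
  refine and_congr ?_ ?_
  · refine forall_congr' fun x => forall_congr' fun q => forall_congr' fun _ =>
      forall_congr' fun _ => ?_
    rw [fo_isOpen (by simp only [sn_up, hw]) (by simp only [sn_up, ha]), sn_nw]
  · refine forall_congr' fun x => ?_
    rw [fo_imp]
    refine forall_congr' fun q => forall_congr' fun _ => ?_
    rw [fo_pt (by simp only [sn_up, hw]) (by simp only [sn_up, ha]), sn_nw]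
    refine imp_congr_right fun _ => ?_
    rw [fo_bex]
    simp only [fo_mem, sn_up, sn_nw]

/-- `p` forces that `d` is dense. -/
def FDense (d : Name Pos) (p : Pos) : Prop :=
  ∀ u, ∀ q ≤ p, FOpen u q → ∀ r ≤ q, (∀ r' ≤ r, ∃ r'' ≤ r', ∃ x, ForcesMem x u r'') →
    ∀ s ≤ r, ∃ t ≤ s, ∃ x, ForcesMem x u t ∧ ForcesMem x d t

theorem fo_isDense {w a d : Fin n} (hw : xs w = wN Pos) (ha : xs a = aN)
    (h : Fo (fIsDense w a d) xs p) : FDense (xs d) p := by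
  unfold fIsDense at h
  rw [fo_and, fo_all] at h
  intro u q hq hu r hr hne s hs
  have h1 := h.2 u
  rw [fo_imp] at h1
  have h2 := h1 q hq (by
    rw [fo_isOpen (by simp only [sn_up, hw]) (by simp only [sn_up, ha]), sn_nw]
    exact hu)
  rw [fo_imp] at h2
  have h3 := h2 r hr (by
    rw [fo_ex]
    simp only [fo_mem, sn_up, sn_nw]
    exact hne)
  rw [fo_bex] at h3
  simp only [fo_mem, sn_up, sn_nw] at h3
  exact h3 s hs

theorem fo_closedDiscrete {w a f : Fin n} (hw : xs w = wN Pos) (ha : xs a = aN) :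
    Fo (fClosedDiscrete w a f) xs p ↔ ∀ x, ∀ q ≤ p, FPt x q → ∀ r ≤ q, ∃ s ≤ r, ∃ u,
      FOpen u s ∧ ForcesMem x u s ∧ ∀ y, ∀ t ≤ s, ForcesMem y u t → ∀ t' ≤ t,
        ForcesMem y (xs f) t' → ForcesEq y x t' := by
  unfold fClosedDiscrete
  rw [fo_all]
  refine forall_congr' fun x => ?_
  rw [fo_imp]
  refine forall_congr' fun q => forall_congr' fun _ => ?_
  rw [fo_pt (by simp only [sn_up, hw]) (by simp only [sn_up, ha]), sn_nw]
  refine imp_congr_right fun _ => ?_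
  rw [fo_ex]
  refine forall_congr' fun r => forall_congr' fun _ => exists_congr fun s =>
    and_congr_right fun _ => exists_congr fun u => ?_
  rw [fo_and, fo_and, fo_isOpen (by simp only [sn_up, hw]) (by simp only [sn_up, ha]), fo_ball]
  simp only [fo_mem, fo_imp, fo_eq, sn_up, sn_nw]

theorem fo_isSeq {w s : Fin n} (hw : xs w = wN Pos) : Fo (fIsSeq w s) xs p ↔
    (∀ z, ∀ q ≤ p, ForcesMem z (xs s) q → ∀ r ≤ q, ∃ t ≤ r, ∃ k : ℕ, ∀ t' ≤ t, ∃ t'' ≤ t', ∃ y,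
      ForcesEq z (opN (nN Pos k) y) t'') ∧
    (∀ k : ℕ, ∀ q ≤ p, ∃ r ≤ q, ∃ y, ForcesMem (opN (nN Pos k) y) (xs s) r) ∧
    ∀ m y y', ∀ q ≤ p, ForcesMem (opN m y) (xs s) q → ∀ r ≤ q, ForcesMem (opN m y') (xs s) r →
      ForcesEq y y' r := by
  unfold fIsSeq
  rw [fo_and, fo_and, fo_ball, fo_ball_w hw]
  refine and_congr ?_ (and_congr ?_ ?_)
  · refine forall_congr' fun x => forall_congr' fun q => forall_congr' fun _ =>
      forall_congr' fun _ => ?_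
    rw [fo_bex_w (by simp only [sn_up, hw])]
    simp only [fo_ex, fo_opair, sn_up, sn_nw]
  · simp only [fo_ex, fo_app, sn_up, sn_nw]
  · simp only [fo_all, fo_imp, fo_app, fo_eq, sn_up, sn_nw]

theorem fo_star_of {s t x : Fin n} (m f c u y : Name Pos)
    (h1 : ForcesMem (opN m f) (xs t) p) (h2 : ForcesMem (opN m c) (xs s) p)
    (h3 : ForcesMem u c p) (h4 : ForcesMem (xs x) u p) (h5 : ForcesMem y f p)
    (h6 : ForcesMem y u p) : Fo (fStar s t x) xs p := by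
  unfold fStar
  refine fo_ex_of m (fo_ex_of f (fo_ex_of c (fo_ex_of u ?_)))
  rw [fo_and, fo_and, fo_and, fo_and, fo_app, fo_app, fo_mem, fo_mem]
  simp only [sn_up, sn_nw]
  refine ⟨h1, h2, h3, h4, fo_ex_of y ?_⟩
  rw [fo_and, fo_mem, fo_mem]
  simp only [sn_up, sn_nw]
  exact ⟨h5, h6⟩

/-! ### Open sets -/

/-- The name of `{k}`. -/
noncomputable def sgN (k : ℕ) : Name Pos := ck (fun _ : PUnit.{2} => nN Pos k)

theorem mem_sgN {z : Name Pos} {k : ℕ} : ForcesMem z (sgN k) p ↔ ForcesEq z (nN Pos k) p := by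
  unfold sgN
  rw [mem_ck]
  constructor
  · intro h
    refine (ForcesEq.reg _ _).dense fun q hq => ?_
    obtain ⟨r, hr, -, h1⟩ := h q hq
    exact ⟨r, hr, h1⟩
  · intro h q hq
    exact ⟨q, le_rfl, PUnit.unit, h.mono hq⟩

theorem FOpen_sgN (k : ℕ) (p : Pos) : FOpen (sgN k) p := by
  constructor
  · intro x q _ hx
    rw [mem_sgN] at hx
    exact FPt.of_cases fun r hr => ⟨r, le_rfl, Or.inl ⟨k, hx.mono hr⟩⟩
  · intro β q _ h
    rw [mem_sgN] at h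
    exact absurd h (AN_ne_nN β k q)

/-- The name of `{A β} ∪ {k ∈ S : M ≤ k}`. -/
noncomputable def nbN (β : W) (S : Set ℕ) (M : ℕ) : Name Pos :=
  ck (fun o : ULift.{1} (Option {x : ℕ // M ≤ x ∧ x ∈ S}) =>
    match o.down with
    | none => AN β
    | some x => nN Pos x.1)

theorem mem_nbN {z : Name Pos} {S : Set ℕ} {M : ℕ} : ForcesMem z (nbN β S M) p ↔
    ∀ q ≤ p, ∃ r ≤ q, ForcesEq z (AN β) r ∨ ∃ k, M ≤ k ∧ k ∈ S ∧ ForcesEq z (nN Pos k) r := by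
  unfold nbN
  rw [mem_ck]
  refine forall_congr' fun q => forall_congr' fun _ => exists_congr fun r =>
    and_congr_right fun _ => ?_
  constructor
  · rintro ⟨⟨_ | ⟨k, h1, h2⟩⟩, h⟩
    · exact Or.inl h
    · exact Or.inr ⟨k, h1, h2, h⟩
  · rintro (h | ⟨k, h1, h2, h⟩)
    · exact ⟨⟨none⟩, h⟩
    · exact ⟨⟨some ⟨k, h1, h2⟩⟩, h⟩

theorem FOpen_nbN (hβ : β < p.t.ht) (M : ℕ) : FOpen (nbN β (p.t.A β) M) p := by
  constructor
  · intro x q _ hx
    refine FPt.of_cases fun r hr => ?_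
    obtain ⟨s, hs, h | ⟨k, -, -, h⟩⟩ := mem_nbN.1 hx r hr
    · exact ⟨s, hs, Or.inr ⟨β, h⟩⟩
    · exact ⟨s, hs, Or.inl ⟨k, h⟩⟩
  · intro β' q hq h r hr
    have hββ : β' = β := by
      obtain ⟨s, hs, h | ⟨k, -, -, h⟩⟩ := mem_nbN.1 h q le_rfl
      · exact AN_eq_AN.1 h
      · exact absurd h (AN_ne_nN β' k s)
    subst hββ
    refine ⟨r, le_rfl, M, fun z t ht hz t' ht' => ?_⟩
    obtain ⟨t'', ht'', k, -, h2, h3⟩ := mem_AN.1 hz t' ht'
    have hle : t'' ≤ p := (((ht''.trans ht').trans ht).trans hr).trans hq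
    rw [Pos.A_eq hle hβ] at h2
    refine ⟨t'', ht'', ?_⟩
    by_cases hk : k < M
    · left
      exact (nN_mem_nN.2 hk).congr_left h3.symm
    · right
      exact mem_nbN.2 fun u hu => ⟨u, le_rfl, Or.inr ⟨k, not_lt.1 hk, h2, h3.mono hu⟩⟩

/-! ### The closed discrete sets -/

/-- The name of the union of `{k}` and the generic set at the coordinate `ξ`. -/
noncomputable def QN (ξ : Coord) (k : ℕ) : Name Pos :=
  .mk {x : ℕ × Pos // x.1 = k ∨ ∀ z ∈ x.2.Z, z (ξ, x.1) = true}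
    (fun x => nN Pos x.1.1) (fun x => x.1.2)

variable {ξ : Coord} {k : ℕ}

theorem mem_QN {z : Name Pos} : ForcesMem z (QN ξ k) p ↔ ∀ q ≤ p, ∃ r ≤ q, ∃ j,
    (j = k ∨ ∀ z ∈ r.Z, z (ξ, j) = true) ∧ ForcesEq z (nN Pos j) r := by
  constructor
  · intro h q hq
    obtain ⟨r, hr, ⟨⟨j, s⟩, h1⟩, h3, h4⟩ := h q hq
    have h3' : r ≤ s := h3
    exact ⟨r, hr, j, h1.imp id fun h z hz => h z (Pos.Z_le h3' hz), h4⟩
  · intro h q hq
    obtain ⟨r, hr, j, h1, h3⟩ := h q hq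
    exact ⟨r, hr, ⟨(j, r), h1⟩, le_rfl, h3⟩

theorem nN_mem_QN {j : ℕ} (h : j = k ∨ ∀ z ∈ p.Z, z (ξ, j) = true) :
    ForcesMem (nN Pos j) (QN ξ k) p :=
  mem_QN.2 fun q hq => ⟨q, le_rfl, j, h.imp id fun h z hz => h z (Pos.Z_le hq hz),
    ForcesEq.refl _ _⟩

/-- The name of the sequence of these sets. -/
noncomputable def tN (ξ : Coord) : Name Pos :=
  grN (fun k : ULift.{1} ℕ => nN Pos k.down) (fun k => QN ξ k.down)

theorem opN_mem_tN (ξ : Coord) (k : ℕ) (p : Pos) :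
    ForcesMem (opN (nN Pos k) (QN ξ k)) (tN ξ) p :=
  mem_grN_self (fun k : ULift.{1} ℕ => nN Pos k.down) (fun k => QN ξ k.down) ⟨k⟩ p

theorem mem_tN {m f : Name Pos} : ForcesMem (opN m f) (tN ξ) p ↔
    ∀ q ≤ p, ∃ r ≤ q, ∃ k, ForcesEq m (nN Pos k) r ∧ ForcesEq f (QN ξ k) r := by
  unfold tN
  rw [mem_grN]
  refine forall_congr' fun q => forall_congr' fun _ => exists_congr fun r =>
    and_congr_right fun _ => ?_
  exact ⟨fun ⟨i, hi⟩ => ⟨i.down, hi⟩, fun ⟨i, hi⟩ => ⟨⟨i⟩, hi⟩⟩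

theorem fo_isSeq_tN {w s : Fin n} (hw : xs w = wN Pos) (hs : xs s = tN ξ) :
    Fo (fIsSeq w s) xs p := by
  rw [fo_isSeq hw, hs]
  refine ⟨fun z q _ hz r hr => ?_, fun k q _ => ⟨q, le_rfl, _, opN_mem_tN ξ k q⟩,
    fun m y y' q _ h1 r hr h2 => ?_⟩
  · obtain ⟨t, ht, k, hk⟩ := mem_ck.1 hz r hr
    exact ⟨t, ht, k.down, fun t' ht' => ⟨t', le_rfl, _, hk.mono ht'⟩⟩
  · refine (ForcesEq.reg _ _).dense fun t ht => ?_
    obtain ⟨t1, ht1, i, h3, h4⟩ := mem_tN.1 h1 t (ht.trans hr)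
    obtain ⟨t2, ht2, j, h5, h6⟩ := mem_tN.1 h2 t1 (ht1.trans ht)
    have hij : i = j := nN_eq_nN.1 ((h3.mono ht2).symm.trans h5)
    subst hij
    exact ⟨t2, ht2.trans ht1, (h4.mono ht2).trans h6.symm⟩

/-- The generic set at `ξ` has finite intersection with all `A β`. -/
def Thin (ξ : Coord) : Prop := ∀ β, ∀ p : Pos, ∃ r ≤ p, β < r.t.ht ∧
  ∃ M, ∀ x, M ≤ x → x ∈ r.t.A β → ∀ z ∈ r.Z, z (ξ, x) = false

theorem closedDiscrete_QN (hξ : Thin ξ) (k : ℕ) (p : Pos) : ∀ x, ∀ q ≤ p, FPt x q → ∀ r ≤ q,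
    ∃ s ≤ r, ∃ u, FOpen u s ∧ ForcesMem x u s ∧ ∀ y, ∀ t ≤ s, ForcesMem y u t → ∀ t' ≤ t,
      ForcesMem y (QN ξ k) t' → ForcesEq y x t' := by
  intro x q _ hx r hr
  obtain ⟨s, hs, ⟨j, hj⟩ | ⟨β, hβ⟩⟩ := hx.cases hr
  · refine ⟨s, hs, sgN j, FOpen_sgN j s, mem_sgN.2 hj, fun y t ht hy t' ht' _ => ?_⟩
    rw [mem_sgN] at hy
    exact (hy.mono ht').trans (hj.mono (ht'.trans ht)).symm
  · obtain ⟨t, ht, hβt, M, hM⟩ := hξ β s
    refine ⟨t, ht.trans hs, nbN β (t.t.A β) (max M (k + 1)), FOpen_nbN hβt _, ?_,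
      fun y t1 ht1 hy t2 ht2 hyQ => ?_⟩
    · exact mem_nbN.2 fun u hu => ⟨u, le_rfl, Or.inl ((hβ.mono (hu.trans ht)))⟩
    · refine (ForcesEq.reg _ _).dense fun t3 ht3 => ?_
      obtain ⟨t4, ht4, h1 | ⟨j, h1, h2, h3⟩⟩ := mem_nbN.1 hy t3 (ht3.trans ht2)
      · exact ⟨t4, ht4, h1.trans
          (hβ.mono ((((ht4.trans ht3).trans ht2).trans ht1).trans ht)).symm⟩
      · exfalso
        obtain ⟨t5, ht5, i, h4, h5⟩ := mem_QN.1 hyQ t4 (ht4.trans ht3)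
        have hij : i = j := nN_eq_nN.1 (h5.symm.trans (h3.mono ht5))
        subst hij
        rcases h4 with h4 | h4
        · have := le_max_right M (k + 1)
          omega
        · obtain ⟨z, hz⟩ := t5.Z_nonempty
          have hle : t5 ≤ t := (((ht5.trans ht4).trans ht3).trans ht2).trans ht1
          have h6 := hM i (le_trans (le_max_left _ _) h1) h2 z (Pos.Z_le hle hz)
          rw [h4 z hz] at h6
          exact absurd h6 (by simp)

/-! ### The main argument -/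

theorem FDense.nN_mem {d : Name Pos} (hd : FDense d p) (k : ℕ) : ForcesMem (nN Pos k) d p := by
  refine (ForcesMem.reg _ _).dense fun q hq => ?_
  obtain ⟨t, ht, x, h1, h2⟩ := hd (sgN k) p le_rfl (FOpen_sgN k p) p le_rfl
    (fun r' _ => ⟨r', le_rfl, nN Pos k, mem_sgN.2 (ForcesEq.refl _ _)⟩) q hq
  rw [mem_sgN] at h1
  exact ⟨t, ht, h2.congr_left h1⟩

theorem QN_sub {d : Name Pos} (hd : FDense d p) (ξ : Coord) (k : ℕ) :
    ∀ x, ∀ q ≤ p, ForcesMem x (QN ξ k) q → ForcesMem x d q := by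
  intro x q hq hx
  refine (ForcesMem.reg _ _).dense fun r hr => ?_
  obtain ⟨s, hs, j, -, h2⟩ := mem_QN.1 hx r hr
  exact ⟨s, hs, ((hd.nN_mem j).mono ((hs.trans hr).trans hq)).congr_left h2.symm⟩

theorem exists_xi {s : Name Pos} (h2 : ∀ k : ℕ, ∀ q ≤ p, ∃ r ≤ q, ∃ y,
      ForcesMem (opN (nN Pos k) y) s r)
    (hcov : ∀ m c, ∀ q ≤ p, ForcesMem (opN m c) s q → FCover c q) :
    ∃ ξ : Coord, Thin ξ ∧ ∀ β, ∀ q ≤ p, ∃ r ≤ q, ∃ c u y, ForcesMem (opN (nN Pos 0) c) s r ∧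
      ForcesMem u c r ∧ ForcesMem (AN β) u r ∧ ForcesMem y (QN ξ 0) r ∧ ForcesMem y u r := by
  classical
  let Φ : W → ℕ → Pos → Prop := fun β m r => ∀ r' ≤ r, ∃ r'' ≤ r', ∃ c u,
    ForcesMem (opN (nN Pos 0) c) s r'' ∧ ForcesMem u c r'' ∧ ForcesMem (AN β) u r'' ∧
      FSub u β m r''
  have hΦ : ∀ β m r r', r' ≤ r → Φ β m r → Φ β m r' := fun β m r r' hr h t ht =>
    h t (ht.trans hr)
  let g : W → ℕ → Set Pos := fun β m => {r | (r ≤ p ∧ Φ β m r ∧ ∀ m' < m, ∀ r' ≤ r, ¬ Φ β m' r') ∨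
    ((∀ r' ≤ r, ¬ r' ≤ p) ∧ m = 0)}
  obtain ⟨ξ, hξ⟩ := Pos.capture g
    (by
      rintro β m q (⟨h1, h2, h3⟩ | ⟨h1, h2⟩) r hr
      · exact Or.inl ⟨hr.trans h1, hΦ β m q r hr h2, fun m' hm' r' hr' => h3 m' hm' r' (hr'.trans hr)⟩
      · exact Or.inr ⟨fun r' hr' => h1 r' (hr'.trans hr), h2⟩)
    (by
      intro β p'
      by_cases hcomp : ∃ q ≤ p', q ≤ p
      · obtain ⟨q, hq', hq⟩ := hcomp
        -- some value can be decided
        have h3 : ∃ m, ∃ r ≤ q, Φ β m r := by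
          obtain ⟨r, hr, c, hc⟩ := h2 0 q hq
          have hcc := hcov _ c r (hr.trans hq) hc
          obtain ⟨t, ht, u, hu1, hu2⟩ := hcc.2 (AN β) r le_rfl (FPt_AN β r) r le_rfl
          obtain ⟨t', ht', m, hm⟩ := (hcc.1 u t ht hu1).2 β t le_rfl hu2 t le_rfl
          refine ⟨m, t', (ht'.trans ht).trans hr, fun r' hr' => ⟨r', le_rfl, c, u, ?_, ?_, ?_, ?_⟩⟩
          · exact hc.mono ((hr'.trans ht').trans ht)
          · exact hu1.mono (hr'.trans ht')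
          · exact hu2.mono (hr'.trans ht')
          · exact hm.mono hr'
        obtain ⟨r, hr, hΦr⟩ := Nat.find_spec h3
        refine ⟨r, hr.trans hq', Nat.find h3, Or.inl ⟨hr.trans hq, hΦr, fun m' hm' r' hr' h => ?_⟩⟩
        exact Nat.find_min h3 hm' ⟨r', hr'.trans hr, h⟩
      · push Not at hcomp
        exact ⟨p', le_rfl, 0, Or.inr ⟨hcomp, rfl⟩⟩)
    (by
      rintro β m m' r (⟨h1, h2, h3⟩ | ⟨h1, h2⟩) (⟨h4, h5, h6⟩ | ⟨h4, h5⟩)
      · rcases lt_trichotomy m m' with h | h | h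
        · exact absurd h2 (h6 m h r le_rfl)
        · exact h
        · exact absurd h5 (h3 m' h r le_rfl)
      · exact absurd h1 (h4 r le_rfl)
      · exact absurd h4 (h1 r le_rfl)
      · rw [h2, h5])
  refine ⟨ξ, fun β q => ?_, fun β q hq => ?_⟩
  · obtain ⟨r, hr, hβ, -, -, -, M, hM⟩ := hξ β q
    exact ⟨r, hr, hβ, M, hM⟩
  · obtain ⟨r, hr, hβ, m, hm, ⟨a, ha, hma, haξ⟩, -⟩ := hξ β q
    rcases hm with ⟨-, h1, -⟩ | ⟨h1, -⟩
    · obtain ⟨t, ht, c, u, h3, h4, h5, h6⟩ := h1 r le_rfl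
      have h7 : ForcesMem (nN Pos a) (AN β) t := by
        rw [nN_mem_AN (hβ.trans_le (Pos.ht_le ht)), Pos.A_eq ht hβ]
        exact ha
      obtain ⟨t', ht', h8 | h8⟩ := h6 _ t le_rfl h7 t le_rfl
      · rw [nN_mem_nN] at h8
        omega
      · refine ⟨t', (ht'.trans ht).trans hr, c, u, nN Pos a, h3.mono ht', h4.mono ht', h5.mono ht',
          nN_mem_QN (Or.inr fun z hz => haξ z (Pos.Z_le (ht'.trans ht) hz)), h8⟩
    · exact absurd (hr.trans hq) (h1 r le_rfl)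

theorem fo_selA {w a : Fin n} (hw : xs w = wN Pos) (ha : xs a = aN) :
    Fo (fSelA w a) xs p := by
  unfold fSelA
  rw [fo_all]
  intro s
  rw [fo_imp]
  intro q1 _ hseq
  rw [fo_imp]
  intro q2 hq2 hcov
  rw [fo_all]
  intro d
  rw [fo_imp]
  intro q hq hd
  rw [fo_isSeq (by simp only [sn_up, hw])] at hseq
  simp only [sn_nw] at hseq
  have hd' := fo_isDense (by simp only [sn_up, hw]) (by simp only [sn_up, ha]) hd
  simp only [sn_nw] at hd'
  have hcov' : ∀ m c, ∀ r ≤ q, ForcesMem (opN m c) s r → FCover c r := by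
    intro m c r hr h
    rw [fo_all] at hcov
    have h1 := hcov m
    rw [fo_all] at h1
    have h2 := h1 c
    rw [fo_imp] at h2
    have h3 := h2 r (hr.trans hq) (by
      rw [fo_app]
      simp only [sn_up, sn_nw]
      exact h)
    rw [fo_openCover (by simp only [sn_up, hw]) (by simp only [sn_up, ha])] at h3
    simp only [sn_nw] at h3
    exact h3
  have htot : ∀ k : ℕ, ∀ q' ≤ q, ∃ r ≤ q', ∃ y, ForcesMem (opN (nN Pos k) y) s r :=
    fun k q' hq' => hseq.2.1 k q' ((hq'.trans hq).trans hq2)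
  obtain ⟨ξ, hξ1, hξ2⟩ := exists_xi htot hcov'
  refine fo_ex_of (tN ξ) ?_
  rw [fo_and, fo_and]
  refine ⟨fo_isSeq_tN (ξ := ξ) (by simp only [sn_up, hw]) (by simp only [sn_nw]), ?_, ?_⟩
  · rw [fo_all]
    intro m
    rw [fo_all]
    intro f
    rw [fo_imp]
    intro r hr h
    rw [fo_app] at h
    simp only [sn_up, sn_nw] at h
    refine Fo.dense fun r' hr' => ?_
    obtain ⟨t, ht, k, -, hk⟩ := mem_tN.1 h r' hr'
    refine ⟨t, ht, (fo_sn_congr hk).2 ?_⟩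
    rw [fo_and, fo_ball, fo_closedDiscrete (by simp only [sn_up, hw]) (by simp only [sn_up, ha])]
    simp only [fo_mem, sn_up, sn_nw]
    refine ⟨fun x t' ht' hx => ?_, closedDiscrete_QN hξ1 k t⟩
    exact QN_sub hd' ξ k x t' (((ht'.trans ht).trans hr').trans hr) hx
  · rw [fo_all]
    intro x
    rw [fo_imp]
    intro r hr hx
    rw [fo_pt (by simp only [sn_up, hw]) (by simp only [sn_up, ha])] at hx
    simp only [sn_nw] at hx
    refine Fo.dense fun r' hr' => ?_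
    obtain ⟨t, ht, ⟨k, hk⟩ | ⟨β, hβ⟩⟩ := hx.cases hr'
    · have htq : t ≤ q := (ht.trans hr').trans hr
      obtain ⟨t1, ht1, c, hc⟩ := htot k t htq
      have hcc := hcov' _ c t1 (ht1.trans htq) hc
      obtain ⟨t2, ht2, u, hu1, hu2⟩ := hcc.2 (nN Pos k) t1 le_rfl (FPt_nN k t1) t1 le_rfl
      refine ⟨t2, (ht2.trans ht1).trans ht, fo_star_of (nN Pos k) (QN ξ k) c u (nN Pos k) ?_ ?_ hu1
        ?_ (nN_mem_QN (Or.inl rfl)) hu2⟩
      · simp only [sn_up, sn_nw]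
        exact opN_mem_tN ξ k t2
      · simp only [sn_up, sn_nw]
        exact hc.mono ht2
      · simp only [sn_nw]
        exact hu2.congr_left (hk.mono (ht2.trans ht1)).symm
    · have htq : t ≤ q := (ht.trans hr').trans hr
      obtain ⟨t1, ht1, c, u, y, h1, h2, h3, h4, h5⟩ := hξ2 β t htq
      refine ⟨t1, ht1.trans ht, fo_star_of (nN Pos 0) (QN ξ 0) c u y ?_ ?_ h2 ?_ h4 h5⟩
      · simp only [sn_up, sn_nw]
        exact opN_mem_tN ξ 0 t1
      · simp only [sn_up, sn_nw]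
        exact h1
      · simp only [sn_nw]
        exact h3.congr_left (hβ.mono ht1).symm

/-- The sentence is forced. -/
theorem fo_sentence (xs : Fin 0 → Name Pos) (p : Pos) : Fo sentence xs p := by
  unfold sentence
  refine fo_ex_of (wN Pos) (fo_ex_of aN ?_)
  rw [fo_and, fo_and, fo_and]
  have hw : sn (sn xs (wN Pos)) aN (up nw) = wN Pos := by simp only [sn_up, sn_nw]
  have ha : sn (sn xs (wN Pos)) aN nw = aN := by simp only [sn_nw]
  exact ⟨fo_isOmega hw, fo_adfam hw ha, fo_cardIsD hw ha, fo_selA hw ha⟩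

/-- **Main theorem.** -/
theorem exists_model_SA : ∃ (M : Type) (E : M → M → Prop), IsZFC E ∧ ∃ w a : M,
    Sem.IsOmega E w ∧ Sem.ADFam E w a ∧ Sem.CardIsD E w a ∧ Sem.SelA E w a := by
  obtain ⟨G⟩ := exists_gen (nameUniv_univ (P := Pos)) ⊤
  refine ⟨G.M, G.E, G.isZFC, ?_⟩
  have h := G.of_forces (fun xs _ => fo_sentence xs ⊤) Fin.elim0
  exact sat_sentence.1 h

end Pool.Agent.helper60.SA
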